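import Pool.Agent.ZUK.Bas
import Pool.Agent.LGap.Cx

/-! # Module Cay (difficulty 3): the complex of Zuk's graph `L(S)`

`G` acts on itself by left multiplication; `S` is a finite symmetric subset not containing `1`.
`WS S a b c = 1` if `a⁻¹ b`, `b⁻¹ c`, `a⁻¹ c ∈ S`, and `0` otherwise.

`cx_WS`: symmetric since `S = S⁻¹`: `b⁻¹ a = (a⁻¹ b)⁻¹`; invariant; finite: `WS v b c ≠ 0` implies
`b ∈ v S`, `c ∈ v S` (`(Finset.image (v * ·) S) ×ˢ ...`).
`WS_sum`: for every `F : G × G → ℝ`, `∑ᶠ q, WS S v q.1 q.2 * F q =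
∑ s ∈ S, ∑ s' ∈ S, if s⁻¹ * s' ∈ S then F (v * s, v * s') else 0`. PROOF. The sum is supported on pairs
`(v s, v s')` with `s, s' ∈ S` (`v⁻¹ b = s`, `v⁻¹ c = s'`, `b⁻¹ c = s⁻¹ s'`); reindex by the injective map
`(s, s') ↦ (v s, v s')` of `S ×ˢ S` (`finsum_eq_sum_of_support_subset`, `Finset.sum_map` or
`Finset.sum_image`, `Finset.sum_product`).
`conn_WS`: if `S` generates `G` and every `s ∈ S` has a neighbour in `L(S)` (some `s' ∈ S` with
`s⁻¹ s' ∈ S`), then any two elements are connected by steps `a → b` with `WS S a b c ≠ 0` for some `c`.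
PROOF. It is enough to connect `a` to `a g` for all `g` in the closure of `S`; `Subgroup.closure_induction`
(with `S` symmetric one can use `Subgroup.closure_induction''` or prove that the set of `g` such that all
`a` are connected to `a g` is a subgroup: symmetry from symmetry of `WS`); a step: `a → a s` with
`c = a s'`. -/

open MulAction LGap

namespace ZUK

variable {G : Type*} [Group G]

open Classical in
/-- the weights of the complex of `L(S)` -/
noncomputable def WS (S : Finset G) (a b c : G) : ℝ :=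
  if a⁻¹ * b ∈ S ∧ b⁻¹ * c ∈ S ∧ a⁻¹ * c ∈ S then 1 else 0

theorem cx_WS (S : Finset G) (hS : ∀ s ∈ S, s⁻¹ ∈ S) : Cx G (WS S) := by
  classical
  have hi : ∀ a b : G, a⁻¹ * b ∈ S ↔ b⁻¹ * a ∈ S := by
    intro a b
    constructor
    · intro h
      have h1 := hS _ h
      rwa [mul_inv_rev, inv_inv] at h1
    · intro h
      have h1 := hS _ h
      rwa [mul_inv_rev, inv_inv] at h1
  refine ⟨?_, ?_, ?_, ?_, ?_⟩
  · intro u v w
    unfold WS
    split_ifs
    · exact zero_le_one
    · exact le_rfl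
  · intro u v w
    unfold WS
    refine if_congr ?_ rfl rfl
    rw [hi u v]
    exact ⟨fun h => ⟨h.1, h.2.2, h.2.1⟩, fun h => ⟨h.1, h.2.2, h.2.1⟩⟩
  · intro u v w
    unfold WS
    refine if_congr ?_ rfl rfl
    rw [hi v w]
    exact ⟨fun h => ⟨h.2.2, h.2.1, h.1⟩, fun h => ⟨h.2.2, h.2.1, h.1⟩⟩
  · intro h u v w
    have h1 : ∀ a b : G, (h • a)⁻¹ * (h • b) = a⁻¹ * b := by
      intro a b
      rw [smul_eq_mul, smul_eq_mul, mul_inv_rev, mul_assoc, inv_mul_cancel_left]
    unfold WS
    rw [h1, h1, h1]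
  · intro v
    refine ((S ×ˢ S).image fun p : G × G => (v * p.1, v * p.2)).finite_toSet.subset ?_
    rintro ⟨b, c⟩ hq
    simp only [Set.mem_ofPred_eq] at hq
    rw [Finset.coe_image]
    unfold WS at hq
    split_ifs at hq with h
    · refine ⟨(v⁻¹ * b, v⁻¹ * c), ?_, ?_⟩
      · rw [Finset.mem_coe, Finset.mem_product]
        exact ⟨h.1, h.2.2⟩
      · simp
    · exact absurd rfl hq

open Classical in
theorem WS_sum (S : Finset G) (v : G) (F : G × G → ℝ) :
    ∑ᶠ q : G × G, WS S v q.1 q.2 * F q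
      = ∑ s ∈ S, ∑ s' ∈ S, if s⁻¹ * s' ∈ S then F (v * s, v * s') else 0 := by
  have hinj : Function.Injective fun p : G × G => (v * p.1, v * p.2) := by
    rintro ⟨a, b⟩ ⟨c, d⟩ h
    simp only [Prod.mk.injEq, mul_right_inj] at h
    exact Prod.ext h.1 h.2
  have h1 : ∑ᶠ q : G × G, WS S v q.1 q.2 * F q =
      ∑ q ∈ (S ×ˢ S).map ⟨fun p : G × G => (v * p.1, v * p.2), hinj⟩,
        WS S v q.1 q.2 * F q := by
    apply finsum_eq_sum_of_support_subset
    rintro ⟨b, c⟩ hq
    simp only [Function.mem_support, ne_eq, mul_eq_zero, not_or] at hq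
    rw [Finset.mem_coe, Finset.mem_map]
    have h2 := hq.1
    unfold WS at h2
    split_ifs at h2 with h
    · refine ⟨(v⁻¹ * b, v⁻¹ * c), ?_, ?_⟩
      · rw [Finset.mem_product]
        exact ⟨h.1, h.2.2⟩
      · simp
    · exact absurd rfl h2
  rw [h1, Finset.sum_map, Finset.sum_product]
  refine Finset.sum_congr rfl fun s hs => Finset.sum_congr rfl fun s' hs' => ?_
  have h2 : (v * s)⁻¹ * (v * s') = s⁻¹ * s' := by
    rw [mul_inv_rev, mul_assoc, inv_mul_cancel_left]
  have h3 : WS S v (v * s) (v * s') = if s⁻¹ * s' ∈ S then 1 else 0 := by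
    unfold WS
    rw [inv_mul_cancel_left, inv_mul_cancel_left, h2]
    simp only [hs, hs', true_and, and_true]
  simp only [Function.Embedding.coeFn_mk]
  rw [h3]
  split_ifs
  · rw [one_mul]
  · rw [zero_mul]

theorem conn_WS (S : Finset G) (hS : ∀ s ∈ S, s⁻¹ ∈ S)
    (hgen : Subgroup.closure (S : Set G) = ⊤) (hnb : ∀ s ∈ S, ∃ s' ∈ S, s⁻¹ * s' ∈ S) (a b : G) :
    Relation.ReflTransGen (fun x y => ∃ c, WS S x y c ≠ 0) a b := by
  have hsymm : ∀ x y : G, Relation.ReflTransGen (fun x y => ∃ c, WS S x y c ≠ 0) x y →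
      Relation.ReflTransGen (fun x y => ∃ c, WS S x y c ≠ 0) y x := by
    intro x y h
    induction h with
    | refl => exact Relation.ReflTransGen.refl
    | tail _ h ih =>
      refine (Relation.ReflTransGen.single ?_).trans ih
      obtain ⟨c, hc⟩ := h
      exact ⟨c, by rwa [(cx_WS S hS).swap12]⟩
  have hstep : ∀ s ∈ S, ∀ a : G, ∃ c, WS S a (a * s) c ≠ 0 := by
    intro s hs a
    obtain ⟨s', hs', h⟩ := hnb s hs
    refine ⟨a * s', ?_⟩
    unfold WS
    have h2 : (a * s)⁻¹ * (a * s') = s⁻¹ * s' := by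
      rw [mul_inv_rev, mul_assoc, inv_mul_cancel_left]
    rw [inv_mul_cancel_left, inv_mul_cancel_left, h2, if_pos ⟨hs, h, hs'⟩]
    exact one_ne_zero
  have key : ∀ g : G, ∀ a : G,
      Relation.ReflTransGen (fun x y => ∃ c, WS S x y c ≠ 0) a (a * g) := by
    intro g
    have hg : g ∈ Subgroup.closure (S : Set G) := by
      rw [hgen]
      exact Subgroup.mem_top g
    induction hg using Subgroup.closure_induction with
    | mem x hx =>
      intro a
      exact Relation.ReflTransGen.single (hstep x (Finset.mem_coe.1 hx) a)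
    | one =>
      intro a
      rw [mul_one]
    | mul x y _ _ hx hy =>
      intro a
      rw [← mul_assoc]
      exact (hx a).trans (hy (a * x))
    | inv x _ hx =>
      intro a
      have h1 := hx (a * x⁻¹)
      rw [inv_mul_cancel_right] at h1
      exact hsymm _ _ h1
  have h := key (a⁻¹ * b) a
  rwa [mul_inv_cancel_left] at h

end ZUK
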