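import Pool.Agent.ZUK.Bas

/-! # Module Deg (difficulty 3): degrees

`dg_lower`. PROOF. `dg` is constant on orbits (`dg_smul`, `typ_eq_iff`) and there are finitely many orbits:
`m₀ = min_o dg (rep o)` (`Finset.exists_min_image` or `Finite.exists_min`), or `m₀ = 1` if there are no
orbits. `v = frame H v • rep (typ H v)` (`LGap.frame_smul`).

`degenerate`. PROOF. If `dg v = 0` then `w v u = 0` for all `u` (`dg` is a sum of nonnegative terms, the terms
in `nb` are nonzero). So no step leaves `v`, and by connectivity `V = {v}` (induction on `ReflTransGen` from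
`v`). So `h • v = v` for all `h`, the stabilizer of `v` is everything, `H` is finite, every element has
finite order, and an order automorphism of finite order is trivial: `Pool.ELN.pow_eq_one` (in
Pool/Agent/ELN/Lo.lean; copy the proof here as a private lemma): if `x < g x` then `x < g^n x` for all
`n ≥ 1`. -/

open MulAction LGap

namespace ZUK

variable {H V : Type*} [Group H] [MulAction H V] {w : V → V → ℝ}

theorem dg_lower (hw : Gr H w) (hf : Finite (Ty H V)) (hd : ∀ v, 0 < dg hw v) :
    ∃ m₀ : ℝ, 0 < m₀ ∧ ∀ v, m₀ ≤ dg hw v := by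
  have hrep : ∀ v, dg hw v = dg hw (rep (typ H v)) := by
    intro v
    conv_lhs => rw [← frame_smul (H := H) v]
    exact dg_smul hw _ _
  rcases isEmpty_or_nonempty (Ty H V) with h | h
  · exact ⟨1, one_pos, fun v => (h.false (typ H v)).elim⟩
  · obtain ⟨o, ho⟩ := Finite.exists_min (fun o : Ty H V => dg hw (rep o))
    exact ⟨dg hw (rep o), hd _, fun v => by rw [hrep v]; exact ho _⟩

theorem degenerate (hw : Gr H w) (hst : ∀ v : V, Finite (MulAction.stabilizer H v))
    (hconn : ∀ v u : V, Relation.ReflTransGen (fun a b => w a b ≠ 0) v u) (v : V)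
    (hv : dg hw v = 0) {X : Type*} [LinearOrder X] (ψ : H →* (X ≃o X)) : ψ = 1 := by
  have hzero : ∀ u, w v u = 0 := by
    intro u
    by_contra hne
    have h1 : 0 < w v u := lt_of_le_of_ne (hw.nonneg v u) (Ne.symm hne)
    have h2 : w v u ≤ dg hw v :=
      Finset.single_le_sum (f := fun u => w v u) (fun u _ => hw.nonneg v u)
        ((mem_nb hw).2 hne)
    rw [hv] at h2
    linarith
  have hV : ∀ u, u = v := by
    intro u
    induction hconn v u with
    | refl => rfl
    | tail _ h ih =>
      rw [ih] at h
      exact absurd (hzero _) h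
  ext h x
  have h1 : IsOfFinOrder h := by
    haveI := hst v
    have h1 : IsOfFinOrder (⟨h, hV (h • v)⟩ : MulAction.stabilizer H v) :=
      isOfFinOrder_of_finite _
    have h2 := (MulAction.stabilizer H v).subtype.isOfFinOrder h1
    simpa using h2
  have h2 : IsOfFinOrder (ψ h) := ψ.isOfFinOrder h1
  obtain ⟨n, hn, hsn⟩ := isOfFinOrder_iff_pow_eq_one.1 h2
  obtain ⟨m, rfl⟩ : ∃ m, n = m + 1 := ⟨n - 1, by omega⟩
  have key1 : ψ h x < x → ∀ n : ℕ, ((ψ h) ^ (n + 1)) x < x := by
    intro hx n
    induction n with
    | zero => simpa using hx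
    | succ n ih =>
      rw [pow_succ', RelIso.mul_apply]
      exact ((ψ h).strictMono ih).trans hx
  have key2 : x < ψ h x → ∀ n : ℕ, x < ((ψ h) ^ (n + 1)) x := by
    intro hx n
    induction n with
    | zero => simpa using hx
    | succ n ih =>
      rw [pow_succ', RelIso.mul_apply]
      exact hx.trans ((ψ h).strictMono ih)
  rcases lt_trichotomy (ψ h x) x with h3 | h3 | h3
  · have h4 := key1 h3 m
    rw [hsn] at h4
    exact absurd h4 (lt_irrefl _)
  · exact h3
  · have h4 := key2 h3 m
    rw [hsn] at h4
    exact absurd h4 (lt_irrefl _)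

end ZUK
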