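import Mathlib

/-! # Module Pa1 (difficulty 3): the numbers for the partite criterion

Indices are in `Fin 3`; for `i ≠ k` the third index is `-(i + k)` (indeed `0 + 1 + 2 = 0` in `Fin 3`).

PROOF. Put `x j = (1 - ε j ^ 2) + (ε k + ε i * ε j) + (ε i + ε k * ε j)` where `i, k` are the other two indices,
concretely `x 0 = 1 - ε 0 ^ 2 + (ε 1 + ε 2 * ε 0) + (ε 2 + ε 1 * ε 0)` and cyclically. Each `ε j < 1` since
`ε j ^ 2 < 1`, so `x j > 0`. One computes `x 0 - ε 1 * x 2 - ε 2 * x 1 = D` with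
`D = 1 - ε 0 ^ 2 - ε 1 ^ 2 - ε 2 ^ 2 - 2 ε 0 ε 1 ε 2 > 0`, and cyclically. Let
`b k i = ε k * x i / x j` with `j = -(i + k)` the third index. Then `b k i * b k j = ε k ^ 2`, `b k i ≥ 0` and
`b k i + b i k = (ε k * x i + ε i * x k) / x j = 1 - D / x j ≤ 1 - κ`, `κ = min_j (D / x j)` (or
`κ = D / (x 0 + x 1 + x 2)`). -/

namespace ZUK

theorem exists_b (ε : Fin 3 → ℝ) (h0 : ∀ k, 0 ≤ ε k)
    (h : ε 0 ^ 2 + ε 1 ^ 2 + ε 2 ^ 2 + 2 * ε 0 * ε 1 * ε 2 < 1) :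
    ∃ (b : Fin 3 → Fin 3 → ℝ) (κ : ℝ), 0 < κ ∧ (∀ k i, i ≠ k → 0 ≤ b k i) ∧
      (∀ k i, i ≠ k → b k i * b k (-(i + k)) = ε k ^ 2) ∧
      (∀ k i, i ≠ k → b k i + b i k ≤ 1 - κ) := by
  have e0 := h0 0
  have e1 := h0 1
  have e2 := h0 2
  set D : ℝ := 1 - ε 0 ^ 2 - ε 1 ^ 2 - ε 2 ^ 2 - 2 * ε 0 * ε 1 * ε 2 with hD
  have hD0 : 0 < D := by rw [hD]; linarith
  have p012 : 0 ≤ 2 * ε 0 * ε 1 * ε 2 := by positivity
  have hs0 : 0 < 1 - ε 0 ^ 2 := by nlinarith [sq_nonneg (ε 1), sq_nonneg (ε 2)]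
  have hs1 : 0 < 1 - ε 1 ^ 2 := by nlinarith [sq_nonneg (ε 0), sq_nonneg (ε 2)]
  have hs2 : 0 < 1 - ε 2 ^ 2 := by nlinarith [sq_nonneg (ε 0), sq_nonneg (ε 1)]
  let x : Fin 3 → ℝ := ![1 - ε 0 ^ 2 + (ε 1 + ε 2 * ε 0) + (ε 2 + ε 1 * ε 0),
    1 - ε 1 ^ 2 + (ε 2 + ε 0 * ε 1) + (ε 0 + ε 2 * ε 1),
    1 - ε 2 ^ 2 + (ε 0 + ε 1 * ε 2) + (ε 1 + ε 0 * ε 2)]
  have hx0 : x 0 = 1 - ε 0 ^ 2 + (ε 1 + ε 2 * ε 0) + (ε 2 + ε 1 * ε 0) := rfl
  have hx1 : x 1 = 1 - ε 1 ^ 2 + (ε 2 + ε 0 * ε 1) + (ε 0 + ε 2 * ε 1) := rfl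
  have hx2 : x 2 = 1 - ε 2 ^ 2 + (ε 0 + ε 1 * ε 2) + (ε 1 + ε 0 * ε 2) := rfl
  have px0 : 0 < x 0 := by rw [hx0]; positivity
  have px1 : 0 < x 1 := by rw [hx1]; positivity
  have px2 : 0 < x 2 := by rw [hx2]; positivity
  have hx : ∀ j, 0 < x j := by
    intro j
    fin_cases j
    · exact px0
    · exact px1
    · exact px2
  have k0 : ε 1 * x 2 + ε 2 * x 1 = x 0 - D := by rw [hx0, hx1, hx2, hD]; ring
  have k1 : ε 0 * x 2 + ε 2 * x 0 = x 1 - D := by rw [hx0, hx1, hx2, hD]; ring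
  have k2 : ε 0 * x 1 + ε 1 * x 0 = x 2 - D := by rw [hx0, hx1, hx2, hD]; ring
  have key : ∀ k i : Fin 3, i ≠ k → ε k * x i + ε i * x k = x (-(i + k)) - D := by
    intro k i hik
    have a01 : (-((1 : Fin 3) + 0)) = 2 := by decide
    have a02 : (-((2 : Fin 3) + 0)) = 1 := by decide
    have a10 : (-((0 : Fin 3) + 1)) = 2 := by decide
    have a12 : (-((2 : Fin 3) + 1)) = 0 := by decide
    have a20 : (-((0 : Fin 3) + 2)) = 1 := by decide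
    have a21 : (-((1 : Fin 3) + 2)) = 0 := by decide
    fin_cases k <;> fin_cases i
    · exact absurd rfl hik
    · change ε 0 * x 1 + ε 1 * x 0 = x (-((1 : Fin 3) + 0)) - D
      rw [a01]; exact k2
    · change ε 0 * x 2 + ε 2 * x 0 = x (-((2 : Fin 3) + 0)) - D
      rw [a02]; exact k1
    · change ε 1 * x 0 + ε 0 * x 1 = x (-((0 : Fin 3) + 1)) - D
      rw [a10, add_comm]; exact k2
    · exact absurd rfl hik
    · change ε 1 * x 2 + ε 2 * x 1 = x (-((2 : Fin 3) + 1)) - D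
      rw [a12]; exact k0
    · change ε 2 * x 0 + ε 0 * x 2 = x (-((0 : Fin 3) + 2)) - D
      rw [a20, add_comm]; exact k1
    · change ε 2 * x 1 + ε 1 * x 2 = x (-((1 : Fin 3) + 2)) - D
      rw [a21, add_comm]; exact k0
    · exact absurd rfl hik
  have third : ∀ k i : Fin 3, (-(-(i + k) + k)) = i := by decide
  have comm : ∀ k i : Fin 3, (-(k + i)) = -(i + k) := by decide
  have sumx : ∀ j, x j ≤ x 0 + x 1 + x 2 := by
    intro j
    fin_cases j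
    · change x 0 ≤ _
      linarith
    · change x 1 ≤ _
      linarith
    · change x 2 ≤ _
      linarith
  refine ⟨fun k i => ε k * x i / x (-(i + k)), D / (x 0 + x 1 + x 2), by positivity, ?_, ?_, ?_⟩
  · intro k i _
    exact div_nonneg (mul_nonneg (h0 k) (hx i).le) (hx _).le
  · intro k i _
    change ε k * x i / x (-(i + k)) * (ε k * x (-(i + k)) / x (-(-(i + k) + k))) = ε k ^ 2
    rw [third]
    have h1 := (hx i).ne'
    have h2 := (hx (-(i + k))).ne'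
    field_simp
  · intro k i hik
    change ε k * x i / x (-(i + k)) + ε i * x k / x (-(k + i)) ≤ 1 - D / (x 0 + x 1 + x 2)
    rw [comm k i, ← add_div, key k i hik, sub_div, div_self (hx _).ne']
    have h3 : D / (x 0 + x 1 + x 2) ≤ D / x (-(i + k)) :=
      div_le_div_of_nonneg_left hD0.le (hx _) (sumx _)
    linarith

end ZUK
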