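import Pool.Agent.ZUK.Asy

/-! # Module Pa2 (difficulty 4): the local condition for partite complexes

`τ : V → Fin 3` are the types; the three vertices of a triangle have different types. `ε = ε (τ v)`,
`a i`, `i ≠ τ v`, are numbers `≥ 0` with `a i * a j = ε ^ 2` for the two types `i, j ≠ τ v`, `j = -(i + τ v)`.
Angle hypothesis at `v`: if `f` has mean zero on both types of neighbours then
`∑ᶠ q, W v q.1 q.2 * (f q.1 * f q.2) ≤ ε * ∑ᶠ q, W v q.1 q.2 * f q.1 ^ 2`.

`angle_scaled`: for such `f`,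
`∑ᶠ q, W v q.1 q.2 * (f q.1 * f q.2) ≤ ∑ᶠ q, W v q.1 q.2 * (a (τ q.1) * f q.1 ^ 2)`.
PROOF. Let `i, j` be the types of neighbours, `E i = ∑ᶠ q, W * (if τ q.1 = i then f q.1 ^ 2 else 0)`, and let `S`
be the left side. Apply the hypothesis to `f_t = t f` on type `i` and `t⁻¹ f` on type `j` (`t > 0`): the
left side does not change (each triangle at `v` has one vertex of type `i` and one of type `j`), so
`S ≤ ε (t^2 E i + t^{-2} E j)` for all `t > 0`. If `a i > 0` and `a j > 0` take `t^2 = a i / ε` (then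
`ε t^{-2} = ε^2 / a i = a j`). If `ε = 0` then `S ≤ 0`. If `ε > 0` both `a i, a j > 0` by `a i a j = ε^2`.

`angle_cond`. PROOF. Let `F x = f x - f v`, `c i` the mean of `F` on type `i` (weights `em W v x`; the total
weights of the two types are both `M / 2`, where `M = ∑ᶠ x, em W v x = ∑ᶠ q, W v q.1 q.2`, since each triangle
at `v` has one vertex of each type), `F = g + c`, `g` of mean zero on both types. Then
`∑ W (F q.1 - F q.2)^2 = ∑ W (g q.1 - g q.2)^2 + M (c i - c j)^2` (mixed terms vanish),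
`∑ W (g q.1 - g q.2)^2 = 2 ∑ W (g q.1)^2 - 2 ∑ W g g ≥ ∑ W (2 - 2 a (τ q.1)) (g q.1)^2` (`angle_scaled`), and for
every type `∑_{x of type i} em F^2 = ∑_{x of type i} em g^2 + (M/2) (c i)^2`. The weights on the left are
`θ (τ x) * em W v x` with `θ i ≤ 2 - 2 a i ≤ 2`. So the left side is
`≤ ∑ W (2 - 2 a) g^2 + M ((c i)^2 + (c j)^2)`. Finally `∑ᶠ x, em W v x * F x = (M/2) (c i + c j)` and
`C (M/2)^2 (c i + c j)^2 ≥ M (c i + c j)^2` since `C = 4 / m₀ ≥ 4 / M`, and
`M (c i - c j)^2 + M (c i + c j)^2 = 2 M ((c i)^2 + (c j)^2)`. -/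

open MulAction LGap

namespace ZUK

variable {H V : Type*} [Group H] [MulAction H V] {W : V → V → V → ℝ}

private lemma pa2_fin (hW : Cx H W) (v : V) (g : V × V → ℝ) :
    ∑ᶠ q : V × V, W v q.1 q.2 * g q = ∑ q ∈ (hW.fin v).toFinset, W v q.1 q.2 * g q := by
  refine finsum_eq_sum_of_support_subset _ fun q hq => ?_
  rw [Set.Finite.coe_toFinset]
  exact left_ne_zero_of_mul hq

private lemma pa2_swap (hW : Cx H W) (v : V) (g : V × V → ℝ) :
    ∑ q ∈ (hW.fin v).toFinset, W v q.1 q.2 * g q =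
      ∑ q ∈ (hW.fin v).toFinset, W v q.1 q.2 * g q.swap := by
  refine Finset.sum_equiv (Equiv.prodComm V V) (fun q => ?_) (fun q _ => ?_)
  · simp only [Set.Finite.mem_toFinset, Set.mem_setOf_eq, Equiv.prodComm_apply, Prod.fst_swap,
      Prod.snd_swap]
    rw [hW.swap23]
  · simp only [Equiv.prodComm_apply, Prod.fst_swap, Prod.snd_swap, Prod.swap_swap]
    rw [hW.swap23]

private lemma pa2_types (k : Fin 3) : ∃ i j : Fin 3, i ≠ k ∧ j ≠ k ∧ i ≠ j ∧ -(i + k) = j ∧
    ∀ t, t ≠ k → t = i ∨ t = j := by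
  revert k
  decide

private lemma pa2_case (hW : Cx H W) (τ : V → Fin 3) (v : V)
    (hτ : ∀ x y, W v x y ≠ 0 → τ x ≠ τ v ∧ τ y ≠ τ v ∧ τ x ≠ τ y) {i j : Fin 3}
    (ht : ∀ t, t ≠ τ v → t = i ∨ t = j) :
    ∀ q ∈ (hW.fin v).toFinset, (τ q.1 = i ∧ τ q.2 = j) ∨ (τ q.1 = j ∧ τ q.2 = i) := by
  intro q hq
  rw [Set.Finite.mem_toFinset] at hq
  obtain ⟨h1, h2, h3⟩ := hτ q.1 q.2 hq
  rcases ht _ h1 with h | h <;> rcases ht _ h2 with h' | h'
  · exact absurd (h.trans h'.symm) h3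
  · exact Or.inl ⟨h, h'⟩
  · exact Or.inr ⟨h, h'⟩
  · exact absurd (h.trans h'.symm) h3

theorem angle_scaled (hW : Cx H W) (τ : V → Fin 3) (v : V)
    (hτ : ∀ x y, W v x y ≠ 0 → τ x ≠ τ v ∧ τ y ≠ τ v ∧ τ x ≠ τ y)
    {ε : ℝ} (hε : 0 ≤ ε) (a : Fin 3 → ℝ) (ha : ∀ i, i ≠ τ v → 0 ≤ a i)
    (hab : ∀ i, i ≠ τ v → a i * a (-(i + τ v)) = ε ^ 2)
    (hang : ∀ f : V → ℝ, (∀ i, ∑ᶠ q : V × V, W v q.1 q.2 * (if τ q.1 = i then f q.1 else 0) = 0) →
      ∑ᶠ q : V × V, W v q.1 q.2 * (f q.1 * f q.2) ≤ ε * ∑ᶠ q : V × V, W v q.1 q.2 * f q.1 ^ 2)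
    (f : V → ℝ) (hf : ∀ i, ∑ᶠ q : V × V, W v q.1 q.2 * (if τ q.1 = i then f q.1 else 0) = 0) :
    ∑ᶠ q : V × V, W v q.1 q.2 * (f q.1 * f q.2)
      ≤ ∑ᶠ q : V × V, W v q.1 q.2 * (a (τ q.1) * f q.1 ^ 2) := by
  obtain ⟨i, j, hi, hj, hij, hijk, ht⟩ := pa2_types (τ v)
  have hc := pa2_case hW τ v hτ ht
  have hji : j ≠ i := hij.symm
  have hw0 : ∀ q ∈ (hW.fin v).toFinset, 0 ≤ W v q.1 q.2 := fun q _ => hW.nonneg _ _ _
  obtain ⟨Ei, hEi⟩ : ∃ E : ℝ, E = ∑ q ∈ (hW.fin v).toFinset, W v q.1 q.2 *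
    (if τ q.1 = i then f q.1 ^ 2 else 0) := ⟨_, rfl⟩
  obtain ⟨Ej, hEj⟩ : ∃ E : ℝ, E = ∑ q ∈ (hW.fin v).toFinset, W v q.1 q.2 *
    (if τ q.1 = j then f q.1 ^ 2 else 0) := ⟨_, rfl⟩
  have hEi0 : 0 ≤ Ei := by
    rw [hEi]
    refine Finset.sum_nonneg fun q hq => mul_nonneg (hw0 q hq) ?_
    split_ifs <;> positivity
  have hEj0 : 0 ≤ Ej := by
    rw [hEj]
    refine Finset.sum_nonneg fun q hq => mul_nonneg (hw0 q hq) ?_
    split_ifs <;> positivity
  have eR := pa2_fin hW v (fun q => a (τ q.1) * f q.1 ^ 2)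
  have eL := pa2_fin hW v (fun q => f q.1 * f q.2)
  beta_reduce at eR eL
  have hR : ∑ q ∈ (hW.fin v).toFinset, W v q.1 q.2 * (a (τ q.1) * f q.1 ^ 2) =
      a i * Ei + a j * Ej := by
    rw [hEi, hEj]
    simp only [Finset.mul_sum, ← Finset.sum_add_distrib]
    refine Finset.sum_congr rfl fun q hq => ?_
    rcases hc q hq with ⟨h1, h2⟩ | ⟨h1, h2⟩
    · simp only [h1, hij, if_true, if_false]
      ring
    · simp only [h1, hji, if_true, if_false]
      ring
  rw [eR, eL, hR]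
  have key : ∀ t : ℝ, 0 < t → ∑ q ∈ (hW.fin v).toFinset, W v q.1 q.2 * (f q.1 * f q.2) ≤
      ε * (t ^ 2 * Ei + (t⁻¹) ^ 2 * Ej) := by
    intro t htp
    have h1 := hang (fun x => if τ x = i then t * f x else t⁻¹ * f x) (fun l => ?_)
    · have e1 := pa2_fin hW v (fun q => (if τ q.1 = i then t * f q.1 else t⁻¹ * f q.1) *
        (if τ q.2 = i then t * f q.2 else t⁻¹ * f q.2))
      have e2 := pa2_fin hW v (fun q => (if τ q.1 = i then t * f q.1 else t⁻¹ * f q.1) ^ 2)
      beta_reduce at e1 e2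
      rw [e1, e2] at h1
      have h2 : ∑ q ∈ (hW.fin v).toFinset, W v q.1 q.2 *
          ((if τ q.1 = i then t * f q.1 else t⁻¹ * f q.1) *
            (if τ q.2 = i then t * f q.2 else t⁻¹ * f q.2)) =
          ∑ q ∈ (hW.fin v).toFinset, W v q.1 q.2 * (f q.1 * f q.2) := by
        refine Finset.sum_congr rfl fun q hq => ?_
        congr 1
        rcases hc q hq with ⟨h3, h4⟩ | ⟨h3, h4⟩
        · simp only [h3, h4, hji, if_true, if_false]
          field_simp
        · simp only [h3, h4, hji, if_true, if_false]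
          field_simp
      have h3 : ∑ q ∈ (hW.fin v).toFinset, W v q.1 q.2 *
          (if τ q.1 = i then t * f q.1 else t⁻¹ * f q.1) ^ 2 =
          t ^ 2 * Ei + (t⁻¹) ^ 2 * Ej := by
        rw [hEi, hEj]
        simp only [Finset.mul_sum, ← Finset.sum_add_distrib]
        refine Finset.sum_congr rfl fun q hq => ?_
        rcases hc q hq with ⟨h4, h5⟩ | ⟨h4, h5⟩
        · simp only [h4, hij, if_true, if_false]
          ring
        · simp only [h4, hji, if_true, if_false]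
          ring
      rw [h2, h3] at h1
      exact h1
    · by_cases hl : l = i
      · have h2 := hf i
        have e1 := pa2_fin hW v (fun q => if τ q.1 = i then f q.1 else 0)
        have e2 := pa2_fin hW v (fun q => if τ q.1 = l then
          (if τ q.1 = i then t * f q.1 else t⁻¹ * f q.1) else 0)
        beta_reduce at e1 e2
        rw [e1] at h2
        rw [e2]
        calc ∑ q ∈ (hW.fin v).toFinset, W v q.1 q.2 * (if τ q.1 = l then
              (if τ q.1 = i then t * f q.1 else t⁻¹ * f q.1) else 0)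
            = t * ∑ q ∈ (hW.fin v).toFinset, W v q.1 q.2 * (if τ q.1 = i then f q.1 else 0) := by
              rw [Finset.mul_sum]
              refine Finset.sum_congr rfl fun q _ => ?_
              rw [hl]
              split_ifs <;> ring
          _ = 0 := by rw [h2, mul_zero]
      · have h2 := hf l
        have e1 := pa2_fin hW v (fun q => if τ q.1 = l then f q.1 else 0)
        have e2 := pa2_fin hW v (fun q => if τ q.1 = l then
          (if τ q.1 = i then t * f q.1 else t⁻¹ * f q.1) else 0)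
        beta_reduce at e1 e2
        rw [e1] at h2
        rw [e2]
        calc ∑ q ∈ (hW.fin v).toFinset, W v q.1 q.2 * (if τ q.1 = l then
              (if τ q.1 = i then t * f q.1 else t⁻¹ * f q.1) else 0)
            = t⁻¹ * ∑ q ∈ (hW.fin v).toFinset, W v q.1 q.2 *
                (if τ q.1 = l then f q.1 else 0) := by
              rw [Finset.mul_sum]
              refine Finset.sum_congr rfl fun q _ => ?_
              by_cases h3 : τ q.1 = l
              · have h4 : τ q.1 ≠ i := by rw [h3]; exact hl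
                rw [if_pos h3, if_pos h3, if_neg h4]
                ring
              · rw [if_neg h3, if_neg h3]
                ring
          _ = 0 := by rw [h2, mul_zero]
  have hai := ha i hi
  have haj := ha j hj
  have hp := hab i hi
  rw [hijk] at hp
  rcases hε.eq_or_lt with h0 | h0
  · have h1 := key 1 one_pos
    rw [← h0, zero_mul] at h1
    have h2 := mul_nonneg hai hEi0
    have h3 := mul_nonneg haj hEj0
    linarith
  · have hpp : 0 < a i * a j := by
      rw [hp]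
      positivity
    have hai' : 0 < a i := lt_of_le_of_ne hai fun h => by
      rw [← h, zero_mul] at hpp
      exact lt_irrefl _ hpp
    have h1 := key (Real.sqrt (a i / ε)) (Real.sqrt_pos.2 (div_pos hai' h0))
    rw [inv_pow, Real.sq_sqrt (div_pos hai' h0).le] at h1
    refine h1.trans (le_of_eq ?_)
    have h2 : a j = ε ^ 2 / a i := by
      rw [eq_div_iff hai'.ne', ← hp]
      ring
    rw [h2]
    field_simp

theorem angle_cond (hW : Cx H W) (τ : V → Fin 3) (v : V)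
    (hτ : ∀ x y, W v x y ≠ 0 → τ x ≠ τ v ∧ τ y ≠ τ v ∧ τ x ≠ τ y)
    {ε : ℝ} (hε : 0 ≤ ε) (a θ : Fin 3 → ℝ) (ha : ∀ i, i ≠ τ v → 0 ≤ a i)
    (hab : ∀ i, i ≠ τ v → a i * a (-(i + τ v)) = ε ^ 2)
    (hθ : ∀ i, i ≠ τ v → θ i ≤ 2 - 2 * a i)
    (hang : ∀ f : V → ℝ, (∀ i, ∑ᶠ q : V × V, W v q.1 q.2 * (if τ q.1 = i then f q.1 else 0) = 0) →
      ∑ᶠ q : V × V, W v q.1 q.2 * (f q.1 * f q.2) ≤ ε * ∑ᶠ q : V × V, W v q.1 q.2 * f q.1 ^ 2)
    {m₀ : ℝ} (hm₀ : 0 < m₀) (hv : m₀ ≤ ∑ᶠ x, em W v x) (f : V → ℝ) :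
    ∑ᶠ x, em W v x * (θ (τ x) * (f x - f v) ^ 2)
        ≤ 4 / m₀ * (∑ᶠ x, em W v x * (f x - f v)) ^ 2
          + ∑ᶠ q : V × V, W v q.1 q.2 * (f q.1 - f q.2) ^ 2 := by
  obtain ⟨i, j, hi, hj, hij, hijk, ht⟩ := pa2_types (τ v)
  have hc := pa2_case hW τ v hτ ht
  have hji : j ≠ i := hij.symm
  have hw0 : ∀ q ∈ (hW.fin v).toFinset, 0 ≤ W v q.1 q.2 := fun q _ => hW.nonneg _ _ _
  obtain ⟨F, hF⟩ : ∃ F : V → ℝ, ∀ x, F x = f x - f v := ⟨_, fun _ => rfl⟩
  -- masses
  obtain ⟨M, hM⟩ : ∃ M : ℝ, M = ∑ q ∈ (hW.fin v).toFinset, W v q.1 q.2 * 1 := ⟨_, rfl⟩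
  obtain ⟨Mi, hMi⟩ : ∃ M : ℝ, M = ∑ q ∈ (hW.fin v).toFinset, W v q.1 q.2 *
    (if τ q.1 = i then 1 else 0) := ⟨_, rfl⟩
  obtain ⟨Mj, hMj⟩ : ∃ M : ℝ, M = ∑ q ∈ (hW.fin v).toFinset, W v q.1 q.2 *
    (if τ q.1 = j then 1 else 0) := ⟨_, rfl⟩
  have hMij : Mi = Mj := by
    rw [hMi, hMj, pa2_swap hW v (fun q => if τ q.1 = i then 1 else 0)]
    refine Finset.sum_congr rfl fun q hq => ?_
    rcases hc q hq with ⟨h1, h2⟩ | ⟨h1, h2⟩
    · simp only [Prod.fst_swap, h1, h2, hij, hji, if_false]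
    · simp only [Prod.fst_swap, h1, h2, if_true]
  have hMs : M = Mi + Mj := by
    rw [hM, hMi, hMj]
    simp only [← Finset.sum_add_distrib]
    refine Finset.sum_congr rfl fun q hq => ?_
    rcases hc q hq with ⟨h1, h2⟩ | ⟨h1, h2⟩
    · simp only [h1, hij, if_true, if_false]
      ring
    · simp only [h1, hji, if_true, if_false]
      ring
  have hMm : m₀ ≤ M := by
    have e1 := pairs_fst hW v (fun _ => 1)
    have e2 := pa2_fin hW v (fun _ => 1)
    simp only [mul_one] at e1 e2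
    rw [hM]
    simp only [mul_one]
    rw [← e2, e1]
    exact hv
  have hM0 : 0 < M := hm₀.trans_le hMm
  have hMi2 : Mi = M / 2 := by linarith
  have hMj2 : Mj = M / 2 := by linarith
  obtain ⟨ci, hci⟩ : ∃ c : ℝ, c = (∑ q ∈ (hW.fin v).toFinset, W v q.1 q.2 *
    (if τ q.1 = i then F q.1 else 0)) / Mi := ⟨_, rfl⟩
  obtain ⟨cj, hcj⟩ : ∃ c : ℝ, c = (∑ q ∈ (hW.fin v).toFinset, W v q.1 q.2 *
    (if τ q.1 = j then F q.1 else 0)) / Mj := ⟨_, rfl⟩
  have hMi0 : Mi ≠ 0 := by rw [hMi2]; positivity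
  have hMj0 : Mj ≠ 0 := by rw [hMj2]; positivity
  obtain ⟨g, hg⟩ : ∃ g : V → ℝ, ∀ x, g x = F x - (if τ x = i then ci else cj) :=
    ⟨_, fun _ => rfl⟩
  have hPi : ∑ q ∈ (hW.fin v).toFinset, W v q.1 q.2 * (if τ q.1 = i then g q.1 else 0) = 0 := by
    have h1 : ∑ q ∈ (hW.fin v).toFinset, W v q.1 q.2 * (if τ q.1 = i then F q.1 else 0) =
        ci * Mi := by
      rw [hci]
      field_simp
    have h2 : ∑ q ∈ (hW.fin v).toFinset, W v q.1 q.2 * (if τ q.1 = i then g q.1 else 0) =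
        ∑ q ∈ (hW.fin v).toFinset, W v q.1 q.2 * (if τ q.1 = i then F q.1 else 0) -
          ci * ∑ q ∈ (hW.fin v).toFinset, W v q.1 q.2 * (if τ q.1 = i then 1 else 0) := by
      rw [Finset.mul_sum, ← Finset.sum_sub_distrib]
      refine Finset.sum_congr rfl fun q hq => ?_
      rw [hg]
      split_ifs <;> ring
    rw [h2, h1, ← hMi, sub_self]
  have hPj : ∑ q ∈ (hW.fin v).toFinset, W v q.1 q.2 * (if τ q.1 = j then g q.1 else 0) = 0 := by
    have h1 : ∑ q ∈ (hW.fin v).toFinset, W v q.1 q.2 * (if τ q.1 = j then F q.1 else 0) =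
        cj * Mj := by
      rw [hcj]
      field_simp
    have h2 : ∑ q ∈ (hW.fin v).toFinset, W v q.1 q.2 * (if τ q.1 = j then g q.1 else 0) =
        ∑ q ∈ (hW.fin v).toFinset, W v q.1 q.2 * (if τ q.1 = j then F q.1 else 0) -
          cj * ∑ q ∈ (hW.fin v).toFinset, W v q.1 q.2 * (if τ q.1 = j then 1 else 0) := by
      rw [Finset.mul_sum, ← Finset.sum_sub_distrib]
      refine Finset.sum_congr rfl fun q hq => ?_
      rw [hg]
      by_cases h : τ q.1 = j
      · have h' : τ q.1 ≠ i := by rw [h]; exact hji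
        rw [if_pos h, if_pos h, if_pos h, if_neg h']
        ring
      · rw [if_neg h, if_neg h, if_neg h]
        ring
    rw [h2, h1, ← hMj, sub_self]
  obtain ⟨Gi, hGi⟩ : ∃ E : ℝ, E = ∑ q ∈ (hW.fin v).toFinset, W v q.1 q.2 *
    (if τ q.1 = i then g q.1 ^ 2 else 0) := ⟨_, rfl⟩
  obtain ⟨Gj, hGj⟩ : ∃ E : ℝ, E = ∑ q ∈ (hW.fin v).toFinset, W v q.1 q.2 *
    (if τ q.1 = j then g q.1 ^ 2 else 0) := ⟨_, rfl⟩
  obtain ⟨X, hX⟩ : ∃ X : ℝ, X = ∑ q ∈ (hW.fin v).toFinset, W v q.1 q.2 * (g q.1 * g q.2) :=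
    ⟨_, rfl⟩
  have hGi0 : 0 ≤ Gi := by
    rw [hGi]
    refine Finset.sum_nonneg fun q hq => mul_nonneg (hw0 q hq) ?_
    split_ifs <;> positivity
  have hGj0 : 0 ≤ Gj := by
    rw [hGj]
    refine Finset.sum_nonneg fun q hq => mul_nonneg (hw0 q hq) ?_
    split_ifs <;> positivity
  -- the angle condition for `g`
  have hXle : X ≤ a i * Gi + a j * Gj := by
    have h1 := angle_scaled hW τ v hτ hε a ha hab hang g (fun l => ?_)
    · have e1 := pa2_fin hW v (fun q => g q.1 * g q.2)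
      have e2 := pa2_fin hW v (fun q => a (τ q.1) * g q.1 ^ 2)
      beta_reduce at e1 e2
      rw [e1, e2, ← hX] at h1
      refine h1.trans (le_of_eq ?_)
      rw [hGi, hGj]
      simp only [Finset.mul_sum, ← Finset.sum_add_distrib]
      refine Finset.sum_congr rfl fun q hq => ?_
      rcases hc q hq with ⟨h1, h2⟩ | ⟨h1, h2⟩
      · simp only [h1, hij, if_true, if_false]
        ring
      · simp only [h1, hji, if_true, if_false]
        ring
    · have e1 := pa2_fin hW v (fun q => if τ q.1 = l then g q.1 else 0)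
      beta_reduce at e1
      rw [e1]
      by_cases hl : l = τ v
      · refine Finset.sum_eq_zero fun q hq => ?_
        have h2 : τ q.1 ≠ l := by
          rw [Set.Finite.mem_toFinset] at hq
          rw [hl]
          exact (hτ q.1 q.2 hq).1
        rw [if_neg h2, mul_zero]
      · rcases ht l hl with h | h
        · rw [h]; exact hPi
        · rw [h]; exact hPj
  -- the three terms
  have hA : ∑ᶠ x, em W v x * (θ (τ x) * (f x - f v) ^ 2) =
      θ i * (Gi + ci ^ 2 * Mi) + θ j * (Gj + cj ^ 2 * Mj) := by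
    have e1 := pairs_fst hW v (fun x => θ (τ x) * (f x - f v) ^ 2)
    have e2 := pa2_fin hW v (fun q => θ (τ q.1) * (f q.1 - f v) ^ 2)
    beta_reduce at e1 e2
    rw [← e1, e2]
    have h1 : ∑ q ∈ (hW.fin v).toFinset, W v q.1 q.2 * (θ (τ q.1) * (f q.1 - f v) ^ 2) =
        θ i * (Gi + 2 * ci * (∑ q ∈ (hW.fin v).toFinset, W v q.1 q.2 *
          (if τ q.1 = i then g q.1 else 0)) + ci ^ 2 * Mi) +
        θ j * (Gj + 2 * cj * (∑ q ∈ (hW.fin v).toFinset, W v q.1 q.2 *
          (if τ q.1 = j then g q.1 else 0)) + cj ^ 2 * Mj) := by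
      rw [hGi, hGj, hMi, hMj]
      simp only [Finset.mul_sum, ← Finset.sum_add_distrib]
      refine Finset.sum_congr rfl fun q hq => ?_
      have h3 : F q.1 = f q.1 - f v := hF _
      rcases hc q hq with ⟨h1, h2⟩ | ⟨h1, h2⟩
      · have h4 := hg q.1
        rw [if_pos h1] at h4
        simp only [h1, hij, if_true, if_false]
        rw [← h3, show F q.1 = g q.1 + ci by linarith]
        ring
      · have h4 := hg q.1
        rw [h1, if_neg hji] at h4
        simp only [h1, hji, if_true, if_false]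
        rw [← h3, show F q.1 = g q.1 + cj by linarith]
        ring
    rw [h1, hPi, hPj]
    ring
  have hD : ∑ᶠ x, em W v x * (f x - f v) = ci * Mi + cj * Mj := by
    have e1 := pairs_fst hW v (fun x => f x - f v)
    have e2 := pa2_fin hW v (fun q => f q.1 - f v)
    beta_reduce at e1 e2
    rw [← e1, e2]
    have h1 : ∑ q ∈ (hW.fin v).toFinset, W v q.1 q.2 * (f q.1 - f v) =
        ((∑ q ∈ (hW.fin v).toFinset, W v q.1 q.2 *
          (if τ q.1 = i then g q.1 else 0)) + ci * Mi) +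
        ((∑ q ∈ (hW.fin v).toFinset, W v q.1 q.2 *
          (if τ q.1 = j then g q.1 else 0)) + cj * Mj) := by
      rw [hMi, hMj]
      simp only [Finset.mul_sum, ← Finset.sum_add_distrib]
      refine Finset.sum_congr rfl fun q hq => ?_
      have h3 : F q.1 = f q.1 - f v := hF _
      rcases hc q hq with ⟨h1, h2⟩ | ⟨h1, h2⟩
      · have h4 := hg q.1
        rw [if_pos h1] at h4
        simp only [h1, hij, if_true, if_false]
        rw [← h3, show F q.1 = g q.1 + ci by linarith]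
        ring
      · have h4 := hg q.1
        rw [h1, if_neg hji] at h4
        simp only [h1, hji, if_true, if_false]
        rw [← h3, show F q.1 = g q.1 + cj by linarith]
        ring
    rw [h1, hPi, hPj]
    ring
  have hB : ∑ᶠ q : V × V, W v q.1 q.2 * (f q.1 - f q.2) ^ 2 =
      2 * (Gi + Gj) - 2 * X + M * (ci - cj) ^ 2 := by
    have e2 := pa2_fin hW v (fun q => (f q.1 - f q.2) ^ 2)
    beta_reduce at e2
    rw [e2]
    have s1 := pa2_swap hW v (fun q => if τ q.1 = i then g q.1 ^ 2 else 0)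
    have s2 := pa2_swap hW v (fun q => if τ q.1 = j then g q.1 ^ 2 else 0)
    have s3 := pa2_swap hW v (fun q => if τ q.1 = i then g q.1 else 0)
    have s4 := pa2_swap hW v (fun q => if τ q.1 = j then g q.1 else 0)
    beta_reduce at s1 s2 s3 s4
    simp only [Prod.fst_swap] at s1 s2 s3 s4
    rw [← hGi] at s1
    rw [← hGj] at s2
    rw [hPi] at s3
    rw [hPj] at s4
    have h1 : ∑ q ∈ (hW.fin v).toFinset, W v q.1 q.2 * (f q.1 - f q.2) ^ 2 =
        Gi + Gj + (∑ q ∈ (hW.fin v).toFinset, W v q.1 q.2 *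
            (if τ q.2 = i then g q.2 ^ 2 else 0)) +
          (∑ q ∈ (hW.fin v).toFinset, W v q.1 q.2 *
            (if τ q.2 = j then g q.2 ^ 2 else 0)) + (-2) * X +
          (ci - cj) ^ 2 * M +
          2 * (ci - cj) * (∑ q ∈ (hW.fin v).toFinset, W v q.1 q.2 *
            (if τ q.1 = i then g q.1 else 0)) +
          2 * (cj - ci) * (∑ q ∈ (hW.fin v).toFinset, W v q.1 q.2 *
            (if τ q.1 = j then g q.1 else 0)) +
          2 * (ci - cj) * (∑ q ∈ (hW.fin v).toFinset, W v q.1 q.2 *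
            (if τ q.2 = i then g q.2 else 0)) +
          2 * (cj - ci) * (∑ q ∈ (hW.fin v).toFinset, W v q.1 q.2 *
            (if τ q.2 = j then g q.2 else 0)) := by
      rw [hGi, hGj, hX, hM]
      simp only [Finset.mul_sum, ← Finset.sum_add_distrib]
      refine Finset.sum_congr rfl fun q hq => ?_
      have h3 : F q.1 = f q.1 - f v := hF _
      have h3' : F q.2 = f q.2 - f v := hF _
      have h5 : f q.1 - f q.2 = F q.1 - F q.2 := by linarith
      rw [h5]
      rcases hc q hq with ⟨h1, h2⟩ | ⟨h1, h2⟩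
      · have h4 := hg q.1
        rw [if_pos h1] at h4
        have h4' := hg q.2
        rw [h2, if_neg hji] at h4'
        simp only [h1, h2, hij, hji, if_true, if_false]
        rw [show F q.1 = g q.1 + ci by linarith, show F q.2 = g q.2 + cj by linarith]
        ring
      · have h4 := hg q.1
        rw [h1, if_neg hji] at h4
        have h4' := hg q.2
        rw [if_pos h2] at h4'
        simp only [h1, h2, hij, hji, if_true, if_false]
        rw [show F q.1 = g q.1 + cj by linarith, show F q.2 = g q.2 + ci by linarith]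
        ring
    rw [h1, hPi, hPj, ← s1, ← s2, ← s3, ← s4]
    ring
  rw [hA, hB, hD, hMi2, hMj2]
  have t1 := hθ i hi
  have t2 := hθ j hj
  have a1 := ha i hi
  have a2 := ha j hj
  have p1 : θ i * Gi ≤ (2 - 2 * a i) * Gi := mul_le_mul_of_nonneg_right t1 hGi0
  have p2 : θ j * Gj ≤ (2 - 2 * a j) * Gj := mul_le_mul_of_nonneg_right t2 hGj0
  have p3 : θ i * (ci ^ 2 * (M / 2)) ≤ 2 * (ci ^ 2 * (M / 2)) :=
    mul_le_mul_of_nonneg_right (by linarith) (by positivity)
  have p4 : θ j * (cj ^ 2 * (M / 2)) ≤ 2 * (cj ^ 2 * (M / 2)) :=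
    mul_le_mul_of_nonneg_right (by linarith) (by positivity)
  have p5 : M * (ci + cj) ^ 2 ≤ 4 / m₀ * (ci * (M / 2) + cj * (M / 2)) ^ 2 := by
    have h1 : 4 / m₀ * (ci * (M / 2) + cj * (M / 2)) ^ 2 = (M / m₀) * (M * (ci + cj) ^ 2) := by
      field_simp
      ring
    rw [h1]
    have h2 : 1 ≤ M / m₀ := by rw [one_le_div hm₀]; exact hMm
    have h3 : 0 ≤ M * (ci + cj) ^ 2 := by positivity
    nlinarith
  nlinarith [p1, p2, p3, p4, p5, hXle]

end ZUK
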