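import Pool.Agent.ZUK.Bas

/-! # Module Sub (difficulty 3): passing to finite index subgroups

`finite_orbits`. PROOF. Let `R` be a finite set of representatives of the right cosets `K t` (finite index:
`K.FiniteIndex`; the inverses of representatives of the left cosets; `Finite (H ⧸ K)`). Every `v` is
`h • rep o`, `h = k * t`, so `v = k • (t • rep o)`. So the map from `(H ⧸ K) × Ty H V` to the orbits of `K`,
`(c, o) ↦` class of `(Quotient.out c)⁻¹ • rep o`, is surjective: for `v = h • rep o` take the coset `c` of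
`h⁻¹`; `(out c)⁻¹ * ... `: `out c = h⁻¹ * k` with `k ∈ K`, so `(out c)⁻¹ • rep o = k⁻¹ • h • rep o = k⁻¹ • v`.
`finite_stab`: the stabilizer in `K` embeds into the stabilizer in `H`.
`gr_sub`, `tn_sub`: restriction (the action of `k : K` on `V` is the action of `(k : H)`: `Subgroup.smul_def`).
`dg_sub`: `nb` and `dg` do not depend on the group (both are the same sums: `dg_eq`).
`ct_sub`: the inequality is the same (`sum_nb`; `pq` is the same finite set, `mem_pq`). -/

open MulAction LGap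

namespace ZUK

variable {H V : Type*} [Group H] [MulAction H V] {w : V → V → ℝ} {φ : V → V → V → ℝ}

theorem finite_orbits (K : Subgroup H) [K.FiniteIndex] (hf : Finite (Ty H V)) :
    Finite (Ty K V) := by
  have : Finite (H ⧸ K) := inferInstance
  refine Finite.of_surjective
    (fun q : (H ⧸ K) × Ty H V => typ K ((Quotient.out q.1)⁻¹ • rep q.2)) ?_
  intro t
  obtain ⟨h, hh⟩ := exists_frame (H := H) (rep t)
  refine ⟨((QuotientGroup.mk h⁻¹ : H ⧸ K), typ H (rep t)), ?_⟩
  have h1 : (QuotientGroup.mk (Quotient.out (QuotientGroup.mk h⁻¹ : H ⧸ K)) : H ⧸ K) =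
      QuotientGroup.mk h⁻¹ := Quotient.out_eq _
  rw [QuotientGroup.eq] at h1
  -- (out)⁻¹ * h⁻¹ ∈ K
  set g := Quotient.out (QuotientGroup.mk h⁻¹ : H ⧸ K) with hg
  have h2 : (⟨g⁻¹ * h⁻¹, h1⟩ : K) • (rep t) = g⁻¹ • rep (typ H (rep t)) := by
    rw [Subgroup.smul_def]
    change (g⁻¹ * h⁻¹) • rep t = _
    conv_lhs => rw [← hh]
    rw [smul_smul, mul_assoc, inv_mul_cancel, mul_one]
  change typ K (g⁻¹ • rep (typ H (rep t))) = t
  rw [← h2, typ_smul, typ_rep]

theorem finite_stab (K : Subgroup H) (hst : ∀ v : V, Finite (MulAction.stabilizer H v)) (v : V) :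
    Finite (MulAction.stabilizer K v) := by
  have := hst v
  refine Finite.of_injective (β := MulAction.stabilizer H v)
    (fun k => ⟨((k : K) : H), by
      have := k.2
      rw [MulAction.mem_stabilizer_iff] at this ⊢
      exact this⟩) ?_
  intro a b hab
  have h1 : (((a : K) : H)) = ((b : K) : H) :=
    congrArg (fun z : MulAction.stabilizer H v => (z : H)) hab
  exact Subtype.ext (Subtype.ext h1)

theorem gr_sub (K : Subgroup H) (hw : Gr H w) : Gr K w :=
  ⟨hw.nonneg, hw.symm, fun h u v => hw.inv (h : H) u v, hw.fin⟩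

theorem tn_sub (K : Subgroup H) (hφ : Tn H φ) : Tn K φ :=
  ⟨hφ.swap12, hφ.swap23, fun h u v w => hφ.inv (h : H) u v w, hφ.fin⟩

theorem dg_sub (K : Subgroup H) (hw : Gr H w) (hw' : Gr K w) (v : V) : dg hw' v = dg hw v := by
  rw [dg_eq, dg_eq]

theorem ct_sub (K : Subgroup H) (hw : Gr H w) (hφ : Tn H φ) (hw' : Gr K w) (hφ' : Tn K φ)
    {κ C : ℝ} (hc : Ct hw hφ κ C) : Ct hw' hφ' κ C := by
  have h1 : ∀ v, nb hw' v = nb hw v := fun v => by
    ext u
    rw [mem_nb, mem_nb]
  have h2 : ∀ v, pq hφ' v = pq hφ v := fun v => by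
    ext q
    rw [mem_pq, mem_pq]
  refine ⟨hc.kpos, hc.cnn, hc.marg, fun v f => ?_⟩
  rw [h1, h2]
  exact hc.ineq v f

end ZUK
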