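import Pool.Agent.ZUK.Asy

/-! # Module Zul (difficulty 3): the spectral gap of the links gives the local condition

`gap_cond`: PROOF. Let `M = ∑ᶠ q, W v q.1 q.2 = ∑ᶠ x, em W v x ≥ m₀ > 0` (`LGap.pairs_fst` with `f = 1`),
`μ = (∑ᶠ q, W v q.1 q.2 * f q.1) / M`, `g = f - μ`. All finsums over `q` are finite sums over `LGap.lp`-like
finite sets (`hW.fin v`; it may be convenient to use `LGap.finsum_lp`, `LGap.lp` from Pool.Agent.LGap.Final: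
you may import it) . `∑ W g q.1 = 0`, so the gap inequality gives
`2 lam ∑ W (g q.1)^2 ≤ ∑ W (f q.1 - f q.2)^2`. With `e = μ - f v`: `∑ W (g q.1)^2 = ∑ W (f q.1 - f v)^2 - M e^2`,
`M e = ∑ W (f q.1 - f v) = ∑ᶠ x, em W v x * (f x - f v)`, so `M e^2 = (∑ᶠ ..)^2 / M ≤ (∑ᶠ ..)^2 / m₀`.
Finally `∑ W (f q.1 - f v)^2 = ∑ᶠ x, em W v x * (f x - f v)^2` (`LGap.pairs_fst`). So
`(2 lam - 1) E + E = 2 lam E ≤ 2 lam / m₀ * (∑ᶠ ..)^2 + ∑ W (f q.1 - f q.2)^2`. -/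

open MulAction LGap

namespace ZUK

variable {H V : Type*} [Group H] [MulAction H V] {W : V → V → V → ℝ}

private lemma zul_sum (hW : Cx H W) (v : V) (F : V × V → ℝ) :
    ∑ᶠ q : V × V, W v q.1 q.2 * F q = ∑ q ∈ (hW.fin v).toFinset, W v q.1 q.2 * F q := by
  apply finsum_eq_sum_of_support_subset
  intro q hq
  simp only [Function.mem_support, ne_eq, mul_eq_zero, not_or] at hq
  simpa using hq.1

theorem gap_cond (hW : Cx H W) {lam m₀ : ℝ} (hlam : 1 / 2 < lam) (hm₀ : 0 < m₀) (v : V)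
    (hv : m₀ ≤ ∑ᶠ x, em W v x)
    (hgap : ∀ f : V → ℝ, ∑ᶠ q : V × V, W v q.1 q.2 * f q.1 = 0 →
      2 * lam * ∑ᶠ q : V × V, W v q.1 q.2 * f q.1 ^ 2 ≤
        ∑ᶠ q : V × V, W v q.1 q.2 * (f q.1 - f q.2) ^ 2) (f : V → ℝ) :
    (2 * lam - 1) * ∑ᶠ x, em W v x * (f x - f v) ^ 2 + ∑ᶠ x, em W v x * (f x - f v) ^ 2
        ≤ 2 * lam / m₀ * (∑ᶠ x, em W v x * (f x - f v)) ^ 2
          + ∑ᶠ q : V × V, W v q.1 q.2 * (f q.1 - f q.2) ^ 2 := by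
  set P := (hW.fin v).toFinset with hP
  obtain ⟨M, hM⟩ : ∃ M, M = ∑ q ∈ P, W v q.1 q.2 := ⟨_, rfl⟩
  obtain ⟨B, hB⟩ : ∃ B, B = ∑ᶠ x, em W v x * (f x - f v) := ⟨_, rfl⟩
  obtain ⟨E, hE⟩ : ∃ E, E = ∑ᶠ x, em W v x * (f x - f v) ^ 2 := ⟨_, rfl⟩
  obtain ⟨D, hD⟩ : ∃ D, D = ∑ᶠ q : V × V, W v q.1 q.2 * (f q.1 - f q.2) ^ 2 := ⟨_, rfl⟩
  have hM1 : M = ∑ᶠ x, em W v x := by
    have h := pairs_fst hW v (fun _ => (1 : ℝ))
    rw [zul_sum hW v (fun _ => (1 : ℝ))] at h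
    simp only [mul_one] at h
    rw [hM, ← h]
  have hMm : m₀ ≤ M := hM1 ▸ hv
  have hM0 : 0 < M := hm₀.trans_le hMm
  have hB1 : B = ∑ q ∈ P, W v q.1 q.2 * (f q.1 - f v) := by
    rw [hB, ← pairs_fst hW v (fun x => f x - f v)]
    exact zul_sum hW v (fun q => f q.1 - f v)
  have hE1 : E = ∑ q ∈ P, W v q.1 q.2 * (f q.1 - f v) ^ 2 := by
    rw [hE, ← pairs_fst hW v (fun x => (f x - f v) ^ 2)]
    exact zul_sum hW v (fun q => (f q.1 - f v) ^ 2)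
  have hg := hgap (fun x => f x - f v - B / M) (by
    rw [zul_sum hW v (fun q => f q.1 - f v - B / M)]
    have e : ∀ q : V × V, W v q.1 q.2 * (f q.1 - f v - B / M) =
        W v q.1 q.2 * (f q.1 - f v) - B / M * W v q.1 q.2 := fun q => by ring
    simp only [e]
    rw [Finset.sum_sub_distrib, ← Finset.mul_sum, ← hP, ← hB1, ← hM]
    field_simp
    ring)
  rw [zul_sum hW v (fun q => (f q.1 - f v - B / M) ^ 2)] at hg
  have e : ∀ q : V × V, W v q.1 q.2 * (f q.1 - f v - B / M) ^ 2 =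
      W v q.1 q.2 * (f q.1 - f v) ^ 2 - 2 * (B / M) * (W v q.1 q.2 * (f q.1 - f v))
        + (B / M) ^ 2 * W v q.1 q.2 := fun q => by ring
  simp only [e] at hg
  rw [Finset.sum_add_distrib, Finset.sum_sub_distrib, ← Finset.mul_sum, ← Finset.mul_sum, ← hP,
    ← hB1, ← hM, ← hE1] at hg
  have e2 : ∀ q : V × V, (f q.1 - f v - B / M - (f q.2 - f v - B / M)) = f q.1 - f q.2 :=
    fun q => by ring
  simp only [e2] at hg
  rw [← hD] at hg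
  have h1 : E - 2 * (B / M) * B + (B / M) ^ 2 * M = E - B ^ 2 / M := by
    field_simp
    ring
  rw [h1] at hg
  rw [← hB, ← hE, ← hD]
  have h2 : B ^ 2 / M ≤ B ^ 2 / m₀ := by
    exact div_le_div_of_nonneg_left (sq_nonneg _) hm₀ hMm
  have h3 : 2 * lam * (B ^ 2 / M) ≤ 2 * lam * (B ^ 2 / m₀) :=
    mul_le_mul_of_nonneg_left h2 (by linarith)
  have h4 : 2 * lam / m₀ * B ^ 2 = 2 * lam * (B ^ 2 / m₀) := by ring
  rw [h4]
  nlinarith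

end ZUK
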