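import Pool.Agent.ZUK.Mn
import Pool.Agent.ZUK.Sub
import Pool.Agent.ZUK.Deg
import Pool.Agent.ZUK.Zul
import Pool.Agent.ZUK.Pa1
import Pool.Agent.ZUK.Pa2
import Pool.Agent.ZUK.Cay

/-! # ZUK: final theorems -/

open MulAction LGap

namespace ZUK

/-- certificates exclude actions of finite index subgroups on linear orders -/
theorem order_trivial {G V : Type*} [Group G] [MulAction G V] [Nonempty V]
    {w : V → V → ℝ} {φ : V → V → V → ℝ} (hw : Gr G w) (hφ : Tn G φ)
    (hf : Finite (Ty G V)) (hst : ∀ v : V, Finite (MulAction.stabilizer G v))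
    (hconn : ∀ v u : V, Relation.ReflTransGen (fun a b => w a b ≠ 0) v u)
    (hc : (∀ v, 0 < dg hw v) → ∃ κ C, Ct hw hφ κ C) (K : Subgroup G) [K.FiniteIndex]
    {X : Type*} [LinearOrder X] (ψ : K →* (X ≃o X)) : ψ = 1 := by
  have hw' := gr_sub K hw
  have hst' : ∀ v : V, Finite (MulAction.stabilizer K v) := fun v => finite_stab K hst v
  by_cases hd : ∀ v, 0 < dg hw v
  · obtain ⟨κ, C, hC⟩ := hc hd
    have hd' : ∀ v, 0 < dg hw' v := fun v => by rw [dg_sub K hw hw']; exact hd v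
    have := finite_orbits K hf
    let _ : Fintype (Ty K V) := Fintype.ofFinite _
    let _ : MulAction K X :=
      { smul := fun g x => ψ g x
        one_smul := by
          intro x
          show ψ 1 x = x
          rw [map_one]
          rfl
        mul_smul := by
          intro a b x
          show ψ (a * b) x = ψ a (ψ b x)
          rw [map_mul]
          rfl }
    have hm : ∀ h : K, StrictMono (fun x : X => h • x) := fun h => (ψ h).strictMono
    have hmain := main (X := X) hw' (tn_sub K hφ) hd' hst' hconn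
      (ct_sub K hw hφ hw' (tn_sub K hφ) hC) hm
    ext g x
    exact hmain g x
  · push Not at hd
    obtain ⟨v, hv⟩ := hd
    have hv0 : dg hw' v = 0 := by
      rw [dg_sub K hw hw']
      exact le_antisymm hv (dg_nonneg hw v)
    exact degenerate hw' hst' hconn v hv0 ψ

/-- the local condition for triangle complexes -/
theorem complex_trivial {G V : Type*} [Group G] [MulAction G V] [Nonempty V]
    {W : V → V → V → ℝ} (hW : Cx G W) (hf : Finite (Ty G V))
    (hst : ∀ v : V, Finite (MulAction.stabilizer G v))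
    (hconn : ∀ v u : V, Relation.ReflTransGen (fun a b => ∃ c, W a b c ≠ 0) v u)
    (β : V → V → ℝ) (hβ : ∀ (h : G) (v x : V), β (h • v) (h • x) = β v x)
    (hs : ∀ v x, β x v + β v x = 2 * em W v x) (h0 : ∀ v x, em W v x = 0 → β v x = 0)
    (hc : ∀ m₀ : ℝ, 0 < m₀ → (∀ v, m₀ ≤ ∑ᶠ x, em W v x) → ∃ κ C : ℝ, 0 < κ ∧ 0 ≤ C ∧
      ∀ (v : V) (f : V → ℝ),
      κ * ∑ᶠ x, em W v x * (f x - f v) ^ 2 + ∑ᶠ x, β v x * (f x - f v) ^ 2
        ≤ C * (∑ᶠ x, em W v x * (f x - f v)) ^ 2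
          + ∑ᶠ q : V × V, W v q.1 q.2 * (f q.1 - f q.2) ^ 2)
    (K : Subgroup G) [K.FiniteIndex]
    {X : Type*} [LinearOrder X] (ψ : K →* (X ≃o X)) : ψ = 1 := by
  have hφ := tn_tW hW hβ hs h0
  refine order_trivial (gr_em hW) hφ hf hst ?_ ?_ K ψ
  · intro v u
    have h1 := hconn v u
    induction h1 with
    | refl => exact Relation.ReflTransGen.refl
    | tail _ hbc ih => exact ih.tail ((em_ne_zero_iff hW).2 hbc)
  · intro hd
    obtain ⟨m₀, hm₀, hm⟩ := dg_lower (gr_em hW) hf hd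
    obtain ⟨κ, C, hκ, hC, hcond⟩ := hc m₀ hm₀ (fun v => by
      have := hm v
      rw [dg_eq] at this
      exact this)
    exact ⟨κ, C, ct_tW hW hφ hs h0 hκ hC hcond⟩

/-- links with gap larger than `1/2` -/
theorem gap_trivial {G V : Type*} [Group G] [MulAction G V] [Nonempty V]
    {W : V → V → V → ℝ} (hW : Cx G W) (hf : Finite (Ty G V))
    (hst : ∀ v : V, Finite (MulAction.stabilizer G v))
    (hconn : ∀ v u : V, Relation.ReflTransGen (fun a b => ∃ c, W a b c ≠ 0) v u)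
    {lam : ℝ} (hlam : 1 / 2 < lam)
    (hgap : ∀ (v : V) (f : V → ℝ), ∑ᶠ q : V × V, W v q.1 q.2 * f q.1 = 0 →
      2 * lam * ∑ᶠ q : V × V, W v q.1 q.2 * f q.1 ^ 2 ≤
        ∑ᶠ q : V × V, W v q.1 q.2 * (f q.1 - f q.2) ^ 2)
    (K : Subgroup G) [K.FiniteIndex]
    {X : Type*} [LinearOrder X] (ψ : K →* (X ≃o X)) : ψ = 1 := by
  refine complex_trivial hW hf hst hconn (em W) (em_smul hW) ?_ (fun v x h => h) ?_ K ψ
  · intro v x
    rw [em_symm hW x v]
    ring
  · intro m₀ hm₀ hm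
    refine ⟨2 * lam - 1, 2 * lam / m₀, by linarith, by positivity, ?_⟩
    intro v f
    exact gap_cond hW hlam hm₀ v (hm v) (hgap v) f

/-- partite complexes with an angle condition -/
theorem angle_trivial {G V : Type*} [Group G] [MulAction G V] [Nonempty V]
    {W : V → V → V → ℝ} (hW : Cx G W) (hf : Finite (Ty G V))
    (hst : ∀ v : V, Finite (MulAction.stabilizer G v))
    (hconn : ∀ v u : V, Relation.ReflTransGen (fun a b => ∃ c, W a b c ≠ 0) v u)
    (τ : V → Fin 3) (hτG : ∀ (g : G) (v : V), τ (g • v) = τ v)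
    (hτ : ∀ v x y, W v x y ≠ 0 → τ x ≠ τ v ∧ τ y ≠ τ v ∧ τ x ≠ τ y)
    {ε : Fin 3 → ℝ} (hε : ∀ k, 0 ≤ ε k)
    (hsum : ε 0 ^ 2 + ε 1 ^ 2 + ε 2 ^ 2 + 2 * ε 0 * ε 1 * ε 2 < 1)
    (hang : ∀ (v : V) (f : V → ℝ),
      (∀ i, ∑ᶠ q : V × V, W v q.1 q.2 * (if τ q.1 = i then f q.1 else 0) = 0) →
      ∑ᶠ q : V × V, W v q.1 q.2 * (f q.1 * f q.2)
        ≤ ε (τ v) * ∑ᶠ q : V × V, W v q.1 q.2 * f q.1 ^ 2)
    (K : Subgroup G) [K.FiniteIndex]
    {X : Type*} [LinearOrder X] (ψ : K →* (X ≃o X)) : ψ = 1 := by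
  obtain ⟨b, κ, hκ, hb0, hb1, hb2⟩ := exists_b ε hε hsum
  have hne : ∀ v x, em W v x ≠ 0 → τ x ≠ τ v := by
    intro v x h
    obtain ⟨u, hu⟩ := (em_ne_zero_iff hW).1 h
    exact (hτ v x u hu).1
  refine complex_trivial hW hf hst hconn
    (fun v x => em W v x * (1 + b (τ x) (τ v) - b (τ v) (τ x))) ?_ ?_ ?_ ?_ K ψ
  · intro h v x
    simp only [em_smul hW, hτG]
  · intro v x
    show em W x v * (1 + b (τ v) (τ x) - b (τ x) (τ v))
      + em W v x * (1 + b (τ x) (τ v) - b (τ v) (τ x)) = 2 * em W v x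
    rw [em_symm hW x v]
    ring
  · intro v x h
    simp only [h, zero_mul]
  · intro m₀ hm₀ hm
    refine ⟨κ, 4 / m₀, hκ, by positivity, ?_⟩
    intro v f
    have h1 := angle_cond hW τ v (hτ v) (hε (τ v)) (fun i => b (τ v) i)
      (fun i => κ + (1 + b i (τ v) - b (τ v) i))
      (fun i hi => hb0 (τ v) i hi) (fun i hi => hb1 (τ v) i hi)
      (fun i hi => by
        have := hb2 (τ v) i hi
        linarith) (hang v) hm₀ (hm v) f
    refine le_trans (le_of_eq ?_) h1
    have hfin : ∀ g : V → ℝ, (Function.support (fun x => em W v x * g x)).Finite := fun g =>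
      (fin_nbr hW v).subset (fun x hx => by
        intro h
        apply hx
        show em W v x * g x = 0
        rw [h, zero_mul])
    rw [mul_finsum]
    have h2 : ∀ x, em W v x * (1 + b (τ x) (τ v) - b (τ v) (τ x)) * (f x - f v) ^ 2
        = em W v x * ((1 + b (τ x) (τ v) - b (τ v) (τ x)) * (f x - f v) ^ 2) := by
      intro x
      ring
    rw [finsum_congr h2]
    have h3 : ∀ x, κ * (em W v x * (f x - f v) ^ 2) = em W v x * (κ * (f x - f v) ^ 2) := by
      intro x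
      ring
    rw [finsum_congr h3, ← finsum_add_distrib (hfin _) (hfin _)]
    apply finsum_congr
    intro x
    ring

/-- Zuk's graph `L(S)` -/
theorem zuk_trivial {G : Type*} [Group G] (S : Finset G) (hS : ∀ s ∈ S, s⁻¹ ∈ S)
    (hgen : Subgroup.closure (S : Set G) = ⊤) (hnb : ∀ s ∈ S, ∃ s' ∈ S, s⁻¹ * s' ∈ S)
    {lam : ℝ} (hlam : 1 / 2 < lam)
    (hgap : ∀ f : G → ℝ, (∑ s ∈ S, ∑ s' ∈ S, (open Classical in if s⁻¹ * s' ∈ S then f s else 0)) = 0 →
      2 * lam * ∑ s ∈ S, ∑ s' ∈ S, (open Classical in if s⁻¹ * s' ∈ S then f s ^ 2 else 0) ≤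
        ∑ s ∈ S, ∑ s' ∈ S, (open Classical in if s⁻¹ * s' ∈ S then (f s - f s') ^ 2 else 0))
    (K : Subgroup G) [K.FiniteIndex]
    {X : Type*} [LinearOrder X] (ψ : K →* (X ≃o X)) : ψ = 1 := by
  have hf : Finite (Ty G G) := by
    have : Subsingleton (Ty G G) := by
      constructor
      intro a b
      rw [← typ_rep a, ← typ_rep b]
      exact typ_eq_iff.2 ⟨rep b * (rep a)⁻¹, by simp⟩
    infer_instance
  have hst : ∀ v : G, Finite (MulAction.stabilizer G v) := by
    intro v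
    have : Subsingleton (MulAction.stabilizer G v) := by
      constructor
      rintro ⟨a, ha⟩ ⟨b, hb⟩
      rw [MulAction.mem_stabilizer_iff, smul_eq_mul] at ha hb
      have h1 : a = 1 := by simpa using ha
      have h2 : b = 1 := by simpa using hb
      subst h1
      subst h2
      rfl
    infer_instance
  refine gap_trivial (cx_WS S hS) hf hst (conn_WS S hS hgen hnb) hlam ?_ K ψ
  intro v f hfz
  rw [WS_sum S v (fun q => f q.1)] at hfz
  rw [WS_sum S v (fun q => f q.1 ^ 2), WS_sum S v (fun q => (f q.1 - f q.2) ^ 2)]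
  exact hgap (fun s => f (v * s)) hfz

end ZUK
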