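import Mathlib

/-! # ZUK: groups that are, up to finite index, quotients of finite index subgroups -/

set_option autoImplicit false

universe u v w

namespace ZUK

theorem cm_pow_eq_one {X : Type u} [LinearOrder X] {g : X ≃o X} {m : ℕ} (hm : m ≠ 0)
    (h : g ^ m = 1) : g = 1 := by
  by_contra hne
  have hex : ∃ p, g p ≠ p := by
    by_contra hcon
    push Not at hcon
    exact hne (OrderIso.ext (funext hcon))
  obtain ⟨p, hp⟩ := hex
  obtain ⟨l, rfl⟩ := Nat.exists_eq_succ_of_ne_zero hm
  rcases lt_or_gt_of_ne hp with h1 | h1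
  · have h2 : ∀ l : ℕ, (g ^ (l + 1)) p < p := by
      intro l
      induction l with
      | zero => simpa using h1
      | succ l ih =>
        have h3 : (g ^ (l + 1 + 1)) p = (g ^ (l + 1)) (g p) := by
          rw [pow_succ]; rfl
        rw [h3]
        exact ((g ^ (l + 1)).strictMono h1).trans ih
    have h4 := h2 l
    rw [h] at h4
    exact lt_irrefl _ h4
  · have h2 : ∀ l : ℕ, p < (g ^ (l + 1)) p := by
      intro l
      induction l with
      | zero => simpa using h1
      | succ l ih =>
        have h3 : (g ^ (l + 1 + 1)) p = (g ^ (l + 1)) (g p) := by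
          rw [pow_succ]; rfl
        rw [h3]
        exact ih.trans ((g ^ (l + 1)).strictMono h1)
    have h4 := h2 l
    rw [h] at h4
    exact lt_irrefl _ h4

theorem commens {K : Type u} [Group K] {Λ : Type v} [Group Λ] {X : Type w} [LinearOrder X]
    (hK : ∀ ψ : K →* (X ≃o X), ψ = 1) (N : Subgroup Λ) [N.FiniteIndex] (e : K →* N)
    (he : Function.Surjective e) (ψ : Λ →* (X ≃o X)) : ψ = 1 := by
  have h1 := hK ((ψ.comp N.subtype).comp e)
  have h2 : ∀ n : N, ψ n = 1 := by
    intro n
    obtain ⟨k, rfl⟩ := he n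
    exact DFunLike.congr_fun h1 k
  ext1 g
  obtain ⟨m, hm, _, hmem⟩ := N.exists_pow_mem_of_index_ne_zero Subgroup.FiniteIndex.index_ne_zero g
  have h3 : (ψ g) ^ m = 1 := by
    rw [← map_pow]
    exact h2 ⟨g ^ m, hmem⟩
  exact cm_pow_eq_one hm.ne' h3

theorem cm_interval {Γ : Type u} [Group Γ]
    (h : ∀ ψ : Γ →* (Set.Icc (0 : ℝ) 1 ≃o Set.Icc (0 : ℝ) 1), ψ = 1)
    (φ : Γ →* (Set.Icc (0 : ℝ) 1 ≃ₜ Set.Icc (0 : ℝ) 1)) (hφ : ∀ g, Monotone (φ g)) : φ = 1 := by
  have hinv : ∀ g y, φ g⁻¹ (φ g y) = y := by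
    intro g y
    have : φ g⁻¹ (φ g y) = (φ (g⁻¹ * g)) y := by rw [map_mul]; rfl
    rw [this, inv_mul_cancel, map_one]
    rfl
  let ψ : Γ →* (Set.Icc (0 : ℝ) 1 ≃o Set.Icc (0 : ℝ) 1) :=
    { toFun := fun g =>
        { toEquiv := (φ g).toEquiv
          map_rel_iff' := by
            intro x y
            constructor
            · intro h
              have := hφ g⁻¹ h
              have h1 := hinv g x
              have h2 := hinv g y
              change (φ g⁻¹) ((φ g) x) ≤ (φ g⁻¹) ((φ g) y) at this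
              rwa [h1, h2] at this
            · intro h; exact hφ g h }
      map_one' := by
        ext y
        show ((φ 1) y : ℝ) = y
        rw [map_one]
        rfl
      map_mul' := by
        intro g g'
        ext y
        show ((φ (g * g')) y : ℝ) = (φ g) ((φ g') y)
        rw [map_mul]
        rfl }
  have h1 := h ψ
  ext g y
  have h2 : ψ g = 1 := by rw [h1]; rfl
  have h3 : (ψ g) y = y := by rw [h2]; rfl
  have h4 : (φ g) y = y := h3
  rw [h4]
  rfl

end ZUK
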