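import Pool.Agent.ZUK.Tra

/-! # Module Ant (difficulty 2): antisymmetry

`Pk_sv`: PROOF. `transport_one` with `Φ v u = sg (p v) (p u)` (invariant, `sg_smul`):
`Pk k (fun u => ch o u * sg (p r) (p u)) r = Pk k (fun u => ch o u * sg (p u) (p r)) r`, and by `sg_anti`
the right side is minus the left side (`Pk_cmul` with `c = -1`), so it vanishes.
`bb_zero`: sum over `k`. -/

open MulAction LGap

namespace ZUK

variable {H V X : Type*} [Group H] [MulAction H V] {w : V → V → ℝ}
  [Fintype (Ty H V)] [LinearOrder X] [MulAction H X]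

theorem Pk_sv (hw : Gr H w) (hd : ∀ v, 0 < dg hw v)
    (hst : ∀ v : V, Finite (MulAction.stabilizer H v)) (o : Ty H V) {p : V → X}
    (hp : ∀ (h : H) v, p (h • v) = h • p v) (hm : ∀ h : H, StrictMono (fun x : X => h • x))
    (k : ℕ) : Pk hw k (sv o p (p (rep o))) (rep o) = 0 := by
  have h1 := transport_one hw hd hst k o (fun v u => sg (p v) (p u)) (fun h u v => by
    simp only [hp]
    exact sg_smul hm h _ _)
  have h2 : Pk hw k (fun u => ch o u * sg (p u) (p (rep o))) (rep o) =
      (-1) * Pk hw k (fun u => ch o u * sg (p (rep o)) (p u)) (rep o) := by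
    rw [← Pk_cmul]
    apply Pk_congr
    intro u
    rw [sg_anti (p (rep o)) (p u)]
    ring
  have h3 : Pk hw k (sv o p (p (rep o))) (rep o) =
      Pk hw k (fun u => ch o u * sg (p (rep o)) (p u)) (rep o) := rfl
  rw [h3]
  linarith

theorem bb_zero (hw : Gr H w) (hd : ∀ v, 0 < dg hw v)
    (hst : ∀ v : V, Finite (MulAction.stabilizer H v)) (o : Ty H V) {p : V → X}
    (hp : ∀ (h : H) v, p (h • v) = h • p v) (hm : ∀ h : H, StrictMono (fun x : X => h • x))
    (n : ℕ) : bb hw o p n (p (rep o)) (rep o) = 0 := by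
  unfold bb J
  exact Finset.sum_eq_zero fun k _ => Pk_sv hw hd hst o hp hm k

end ZUK
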