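import Pool.Agent.ZUK.Tr3
import Pool.Agent.LGap.Cx

/-! # Module Asy (difficulty 4): the tensor of a weighted triangle complex

`W` is a weighted triangle complex (`LGap.Cx H W`), `em W v x = ∑ᶠ u, W v x u`. `β v x` are invariant
side weights with `β x v + β v x = 2 * em W v x`, vanishing where `em W` vanishes.

`gr_em`: `em_nonneg`, `em_symm`, `em_smul`, `fin_nbr` of Pool/Agent/LGap/Cx.lean.
`tn_tW`: `swap12`, `swap23`: from `hW.swap12`, `hW.swap23` and permuting the four `if` terms (split on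
`v = x`, `v = y`, `x = y` and substitute); no condition on `β` is needed. `inv`: `hW.inv`, `hβ`, injectivity
of `h • ·`, and `∑ᶠ u, β (h • v) u = ∑ᶠ u, β v u` (`finsum_comp_equiv (MulAction.toPerm h)`). `fin`: if
`tW W β v x y ≠ 0` then `W v x y ≠ 0`, or `x = y` and `β x v ≠ 0`, or `v = x` and `β v y ≠ 0`, or `v = y` and
`β v x ≠ 0`, or `v = x = y`; each of these sets of pairs is finite (`hW.fin v`, and `β x v ≠ 0` implies
`em W v x ≠ 0`, `fin_nbr`).
`marg_tW`: `∑ᶠ y, tW v x y = -2 * em W v x + β x v + (if v = x then ∑ᶠ y, β v y else 0) + β v x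
- (if v = x then ∑ᶠ u, β v u else 0) = 0` (all sums have finite support; `finsum_add_distrib` etc.).
`form_tW`: `∑_{q ∈ pq v} tW v q.1 q.2 * (f q.1 * f q.2) = ∑ᶠ q, W v q.1 q.2 * (f q.1 - f q.2)^2
- ∑ᶠ x, β v x * (f x - f v)^2`. PROOF: the left side is
`-2 ∑ᶠ W f f + ∑ᶠ_x β x v (f x)^2 + 2 f v ∑ᶠ_y β v y f y - (∑ᶠ β v u) (f v)^2`, with `β x v = 2 em v x - β v x`
and `2 ∑ᶠ_x em v x (f x)^2 = ∑ᶠ_q W (f q.1)^2 + ∑ᶠ_q W (f q.2)^2` (`LGap.pairs_fst` and `hW.swap23`).
`ct_tW`: from `form_tW` and the hypothesis (`sum_nb`). -/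

open MulAction LGap

namespace ZUK

variable {H V : Type*} [Group H] [MulAction H V] {W : V → V → V → ℝ} {β : V → V → ℝ}

open Classical in
/-- the tensor of a triangle complex -/
noncomputable def tW (W : V → V → V → ℝ) (β : V → V → ℝ) (v x y : V) : ℝ :=
  -2 * W v x y + (if x = y then β x v else 0) + (if v = x then β v y else 0)
    + (if v = y then β v x else 0) - (if v = x ∧ v = y then ∑ᶠ u, β v u else 0)

private lemma asy_beta_left (hW : Cx H W) (h0 : ∀ v x, em W v x = 0 → β v x = 0) {v x : V}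
    (h : β v x ≠ 0) : x ∈ nbr hW v :=
  (mem_nbr hW).2 fun h1 => h (h0 v x h1)

private lemma asy_beta_right (hW : Cx H W) (h0 : ∀ v x, em W v x = 0 → β v x = 0) {v x : V}
    (h : β x v ≠ 0) : x ∈ nbr hW v :=
  (mem_nbr hW).2 fun h1 => h (h0 x v (by rw [em_symm hW]; exact h1))

private lemma asy_W_fst (hW : Cx H W) {v x y : V} (h : W v x y ≠ 0) : x ∈ nbr hW v :=
  (mem_nbr hW).2 (em_ne_zero hW h)

private lemma asy_W_snd (hW : Cx H W) {v x y : V} (h : W v x y ≠ 0) : y ∈ nbr hW v :=
  (mem_nbr hW).2 (em_ne_zero hW (by rw [← hW.swap23]; exact h))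

theorem gr_em (hW : Cx H W) : Gr H (em W) :=
  ⟨em_nonneg hW, em_symm hW, em_smul hW, fin_nbr hW⟩

theorem tn_tW (hW : Cx H W) (hβ : ∀ (h : H) (v x : V), β (h • v) (h • x) = β v x)
    (hs : ∀ v x, β x v + β v x = 2 * em W v x) (h0 : ∀ v x, em W v x = 0 → β v x = 0) :
    Tn H (tW W β) := by
  classical
  have _ := hs
  refine ⟨?_, ?_, ?_, ?_⟩
  · intro u v w
    unfold tW
    rw [hW.swap12 u v w]
    by_cases h1 : u = v
    · subst h1
      simp
    · have h1' : ¬ v = u := fun h => h1 h.symm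
      simp only [h1, h1', false_and, if_false]
      ring
  · intro u v w
    unfold tW
    rw [hW.swap23 u v w]
    by_cases h1 : v = w
    · subst h1
      ring_nf
    · have h1' : ¬ w = v := fun h => h1 h.symm
      simp only [h1, h1', if_false]
      by_cases h2 : u = v
      · subst h2
        simp [h1]
      · simp [h2]
  · intro h u v w
    unfold tW
    have hB : ∑ᶠ x, β (h • u) x = ∑ᶠ x, β u x := by
      rw [← finsum_comp_equiv (MulAction.toPerm h)]
      exact finsum_congr fun x => hβ h u x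
    rw [hW.inv, hβ, hβ, hβ, hB]
    have e1 : (h • v = h • w) = (v = w) := by
      rw [(MulAction.injective h).eq_iff]
    have e2 : (h • u = h • v) = (u = v) := by
      rw [(MulAction.injective h).eq_iff]
    have e3 : (h • u = h • w) = (u = w) := by
      rw [(MulAction.injective h).eq_iff]
    simp only [e1, e2, e3]
  · intro v
    set S : Finset V := insert v (nbr hW v) with hS
    refine (S ×ˢ S).finite_toSet.subset ?_
    rintro ⟨x, y⟩ hq
    simp only [Set.mem_setOf_eq] at hq
    simp only [Finset.coe_product, Set.mem_prod, Finset.mem_coe]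
    have hv : v ∈ S := Finset.mem_insert_self _ _
    have hn : ∀ {z}, z ∈ nbr hW v → z ∈ S := fun hz => Finset.mem_insert_of_mem hz
    by_contra hcon
    apply hq
    have hW0 : W v x y = 0 := by
      by_contra h
      exact hcon ⟨hn (asy_W_fst hW h), hn (asy_W_snd hW h)⟩
    have t1 : (if x = y then β x v else 0) = 0 := by
      by_contra h
      split_ifs at h with h1
      · subst h1
        exact hcon ⟨hn (asy_beta_right hW h0 h), hn (asy_beta_right hW h0 h)⟩
      · exact h rfl
    have t2 : (if v = x then β v y else 0) = 0 := by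
      by_contra h
      split_ifs at h with h1
      · subst h1
        exact hcon ⟨hv, hn (asy_beta_left hW h0 h)⟩
      · exact h rfl
    have t3 : (if v = y then β v x else 0) = 0 := by
      by_contra h
      split_ifs at h with h1
      · subst h1
        exact hcon ⟨hn (asy_beta_left hW h0 h), hv⟩
      · exact h rfl
    have t4 : ¬ (v = x ∧ v = y) := by
      rintro ⟨h1, h2⟩
      subst h1
      subst h2
      exact hcon ⟨hv, hv⟩
    unfold tW
    rw [hW0, t1, t2, t3, if_neg t4]
    ring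

private lemma asy_sumW (hW : Cx H W) (v : V) (S : Finset V) (hS : ∀ z ∈ nbr hW v, z ∈ S) (x : V) :
    em W v x = ∑ y ∈ S, W v x y := by
  unfold LGap.em
  refine finsum_eq_sum_of_support_subset _ fun y hy => ?_
  exact Finset.mem_coe.2 (hS _ (asy_W_snd hW hy))

private lemma asy_sumβ (hW : Cx H W) (h0 : ∀ v x, em W v x = 0 → β v x = 0) (v : V) (S : Finset V)
    (hS : ∀ z ∈ nbr hW v, z ∈ S) (g : V → ℝ) :
    ∑ᶠ x, β v x * g x = ∑ x ∈ S, β v x * g x := by
  refine finsum_eq_sum_of_support_subset _ fun x hx => ?_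
  have h1 : β v x ≠ 0 := fun h => hx (by show β v x * g x = 0; rw [h, zero_mul])
  exact Finset.mem_coe.2 (hS _ (asy_beta_left hW h0 h1))

private lemma asy_sumβ1 (hW : Cx H W) (h0 : ∀ v x, em W v x = 0 → β v x = 0) (v : V)
    (S : Finset V) (hS : ∀ z ∈ nbr hW v, z ∈ S) :
    ∑ᶠ x, β v x = ∑ x ∈ S, β v x := by
  have := asy_sumβ hW h0 v S hS (fun _ => 1)
  simpa using this

theorem marg_tW (hW : Cx H W)
    (hs : ∀ v x, β x v + β v x = 2 * em W v x) (h0 : ∀ v x, em W v x = 0 → β v x = 0) (v x : V) :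
    ∑ᶠ y, tW W β v x y = 0 := by
  classical
  set S : Finset V := insert x (insert v (nbr hW v)) with hS
  have hxS : x ∈ S := Finset.mem_insert_self _ _
  have hvS : v ∈ S := Finset.mem_insert_of_mem (Finset.mem_insert_self _ _)
  have hn : ∀ z ∈ nbr hW v, z ∈ S := fun z hz =>
    Finset.mem_insert_of_mem (Finset.mem_insert_of_mem hz)
  have hfin : ∑ᶠ y, tW W β v x y = ∑ y ∈ S, tW W β v x y := by
    refine finsum_eq_sum_of_support_subset _ fun y hy => ?_
    rw [Finset.mem_coe]
    by_contra hyS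
    apply hy
    have hyx : ¬ x = y := fun h => hyS (h ▸ hxS)
    have hyv : ¬ v = y := fun h => hyS (h ▸ hvS)
    have hW0 : W v x y = 0 := by
      by_contra h
      exact hyS (hn _ (asy_W_snd hW h))
    have hβ0 : β v y = 0 := by
      by_contra h
      exact hyS (hn _ (asy_beta_left hW h0 h))
    have hn4 : ¬ (v = x ∧ v = y) := fun h => hyv h.2
    unfold tW
    rw [hW0, hβ0, if_neg hyx, if_neg hyv, if_neg hn4]
    simp
  rw [hfin]
  unfold tW
  rw [Finset.sum_sub_distrib, Finset.sum_add_distrib, Finset.sum_add_distrib,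
    Finset.sum_add_distrib, ← Finset.mul_sum, ← asy_sumW hW v S hn x]
  have s1 : ∑ y ∈ S, (if x = y then β x v else 0) = β x v := by
    rw [Finset.sum_ite_eq, if_pos hxS]
  have s3 : ∑ y ∈ S, (if v = y then β v x else 0) = β v x := by
    rw [Finset.sum_ite_eq, if_pos hvS]
  have s2 : ∑ y ∈ S, (if v = x then β v y else 0) =
      if v = x then ∑ᶠ u, β v u else 0 := by
    split_ifs with h
    · rw [asy_sumβ1 hW h0 v S hn]
    · simp
  have s4 : ∑ y ∈ S, (if v = x ∧ v = y then ∑ᶠ u, β v u else 0) =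
      if v = x then ∑ᶠ u, β v u else 0 := by
    by_cases h : v = x
    · simp only [h, true_and, if_true]
      rw [Finset.sum_ite_eq, if_pos hxS]
    · simp [h]
  rw [s1, s2, s3, s4]
  have := hs v x
  linarith

theorem form_tW (hW : Cx H W) (hφ : Tn H (tW W β))
    (hs : ∀ v x, β x v + β v x = 2 * em W v x) (h0 : ∀ v x, em W v x = 0 → β v x = 0)
    (v : V) (f : V → ℝ) :
    ∑ q ∈ pq hφ v, tW W β v q.1 q.2 * (f q.1 * f q.2)
      = ∑ᶠ q : V × V, W v q.1 q.2 * (f q.1 - f q.2) ^ 2 - ∑ᶠ x, β v x * (f x - f v) ^ 2 := by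
  classical
  set S : Finset V := insert v (nbr hW v) with hS
  have hvS : v ∈ S := Finset.mem_insert_self _ _
  have hn : ∀ z ∈ nbr hW v, z ∈ S := fun z hz => Finset.mem_insert_of_mem hz
  have hsub : pq hφ v ⊆ S ×ˢ S := by
    rintro ⟨x, y⟩ hq
    rw [mem_pq] at hq
    simp only at hq
    rw [Finset.mem_product]
    by_contra hcon
    apply hq
    have hW0 : W v x y = 0 := by
      by_contra h
      exact hcon ⟨hn _ (asy_W_fst hW h), hn _ (asy_W_snd hW h)⟩
    have t1 : (if x = y then β x v else 0) = 0 := by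
      by_contra h
      split_ifs at h with h1
      · subst h1
        exact hcon ⟨hn _ (asy_beta_right hW h0 h), hn _ (asy_beta_right hW h0 h)⟩
      · exact h rfl
    have t2 : (if v = x then β v y else 0) = 0 := by
      by_contra h
      split_ifs at h with h1
      · subst h1
        exact hcon ⟨hvS, hn _ (asy_beta_left hW h0 h)⟩
      · exact h rfl
    have t3 : (if v = y then β v x else 0) = 0 := by
      by_contra h
      split_ifs at h with h1
      · subst h1
        exact hcon ⟨hn _ (asy_beta_left hW h0 h), hvS⟩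
      · exact h rfl
    have t4 : ¬ (v = x ∧ v = y) := by
      rintro ⟨h1, h2⟩
      subst h1
      subst h2
      exact hcon ⟨hvS, hvS⟩
    unfold tW
    rw [hW0, t1, t2, t3, if_neg t4]
    ring
  have hL : ∑ q ∈ pq hφ v, tW W β v q.1 q.2 * (f q.1 * f q.2) =
      ∑ x ∈ S, ∑ y ∈ S, tW W β v x y * (f x * f y) := by
    rw [← Finset.sum_product' S S (fun x y => tW W β v x y * (f x * f y))]
    refine Finset.sum_subset hsub fun q _ hq => ?_
    have : tW W β v q.1 q.2 = 0 := by
      by_contra h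
      exact hq ((mem_pq hφ).2 h)
    rw [this, zero_mul]
  have hR : ∑ᶠ q : V × V, W v q.1 q.2 * (f q.1 - f q.2) ^ 2 =
      ∑ x ∈ S, ∑ y ∈ S, W v x y * (f x - f y) ^ 2 := by
    rw [← Finset.sum_product' S S (fun x y => W v x y * (f x - f y) ^ 2)]
    refine finsum_eq_sum_of_support_subset _ fun q hq => ?_
    have h1 : W v q.1 q.2 ≠ 0 := fun h => hq (by simp [h])
    rw [Finset.mem_coe, Finset.mem_product]
    exact ⟨hn _ (asy_W_fst hW h1), hn _ (asy_W_snd hW h1)⟩
  rw [hL, hR, asy_sumβ hW h0 v S hn]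
  obtain ⟨B, hBdef⟩ : ∃ B, B = ∑ᶠ u, β v u := ⟨_, rfl⟩
  have hB : B = ∑ x ∈ S, β v x := hBdef.trans (asy_sumβ1 hW h0 v S hn)
  -- left side
  have l1 : ∀ x ∈ S, ∑ y ∈ S, tW W β v x y * (f x * f y) =
      (-2) * (∑ y ∈ S, W v x y * (f x * f y)) + β x v * f x ^ 2 +
        (if v = x then f x * ∑ y ∈ S, β v y * f y else 0) + β v x * f x * f v -
        (if v = x then B * (f x * f v) else 0) := by
    intro x hx
    have e : ∀ y, tW W β v x y * (f x * f y) = (-2) * (W v x y * (f x * f y)) +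
        (if x = y then β x v * (f x * f y) else 0) +
        (if v = x then f x * (β v y * f y) else 0) + (if v = y then β v x * f x * f y else 0) -
        (if v = y then (if v = x then B * (f x * f y) else 0) else 0) := by
      intro y
      unfold tW
      rw [← hBdef]
      split_ifs <;> first | ring1 | (exfalso; tauto)
    rw [Finset.sum_congr rfl fun y _ => e y, Finset.sum_sub_distrib, Finset.sum_add_distrib,
      Finset.sum_add_distrib, Finset.sum_add_distrib, ← Finset.mul_sum, Finset.sum_ite_eq,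
      Finset.sum_ite_eq, Finset.sum_ite_eq, if_pos hx, if_pos hvS, if_pos hvS]
    have s2 : ∑ y ∈ S, (if v = x then f x * (β v y * f y) else 0) =
        if v = x then f x * ∑ y ∈ S, β v y * f y else 0 := by
      split_ifs with h
      · rw [Finset.mul_sum]
      · simp
    rw [s2]
    ring
  rw [Finset.sum_congr rfl l1, Finset.sum_sub_distrib, Finset.sum_add_distrib,
    Finset.sum_add_distrib, Finset.sum_add_distrib, ← Finset.mul_sum, Finset.sum_ite_eq,
    Finset.sum_ite_eq, if_pos hvS, if_pos hvS]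
  -- right side
  have r1 : ∑ x ∈ S, ∑ y ∈ S, W v x y * (f x - f y) ^ 2 =
      ∑ x ∈ S, em W v x * f x ^ 2 + ∑ x ∈ S, em W v x * f x ^ 2 -
        2 * ∑ x ∈ S, ∑ y ∈ S, W v x y * (f x * f y) := by
    have e : ∀ x y, W v x y * (f x - f y) ^ 2 = W v x y * f x ^ 2 + W v x y * f y ^ 2 -
        2 * (W v x y * (f x * f y)) := by
      intro x y
      ring
    simp only [e, Finset.sum_sub_distrib, Finset.sum_add_distrib]
    congr 1
    · congr 1
      · refine Finset.sum_congr rfl fun x _ => ?_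
        rw [← Finset.sum_mul, ← asy_sumW hW v S hn x]
      · rw [Finset.sum_comm]
        refine Finset.sum_congr rfl fun x _ => ?_
        rw [← Finset.sum_mul, asy_sumW hW v S hn x]
        congr 1
        exact Finset.sum_congr rfl fun y _ => (hW.swap23 v x y).symm
    · rw [Finset.mul_sum]
      refine Finset.sum_congr rfl fun x _ => ?_
      rw [Finset.mul_sum]
  have r2 : ∑ x ∈ S, β v x * (f x - f v) ^ 2 = ∑ x ∈ S, β v x * f x ^ 2 -
      2 * f v * ∑ x ∈ S, β v x * f x + f v ^ 2 * B := by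
    rw [hB, Finset.mul_sum, Finset.mul_sum, ← Finset.sum_sub_distrib, ← Finset.sum_add_distrib]
    exact Finset.sum_congr rfl fun x _ => by ring
  have r3 : ∑ x ∈ S, β x v * f x ^ 2 + ∑ x ∈ S, β v x * f x ^ 2 =
      2 * ∑ x ∈ S, em W v x * f x ^ 2 := by
    rw [← Finset.sum_add_distrib, Finset.mul_sum]
    refine Finset.sum_congr rfl fun x _ => ?_
    rw [← add_mul, hs v x]
    ring
  have r4 : ∑ x ∈ S, β v x * f x * f v = f v * ∑ x ∈ S, β v x * f x := by
    rw [Finset.mul_sum]
    exact Finset.sum_congr rfl fun x _ => by ring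
  rw [r1, r2, r4]
  linarith [r3]

theorem ct_tW (hW : Cx H W) (hφ : Tn H (tW W β))
    (hs : ∀ v x, β x v + β v x = 2 * em W v x) (h0 : ∀ v x, em W v x = 0 → β v x = 0)
    {κ C : ℝ} (hκ : 0 < κ) (hC : 0 ≤ C)
    (hcond : ∀ (v : V) (f : V → ℝ),
      κ * ∑ᶠ x, em W v x * (f x - f v) ^ 2 + ∑ᶠ x, β v x * (f x - f v) ^ 2
        ≤ C * (∑ᶠ x, em W v x * (f x - f v)) ^ 2
          + ∑ᶠ q : V × V, W v q.1 q.2 * (f q.1 - f q.2) ^ 2) :
    Ct (gr_em hW) hφ κ C := by
  refine ⟨hκ, hC, marg_tW hW hs h0, fun v f => ?_⟩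
  rw [form_tW hW hφ hs h0, sum_nb (gr_em hW) v (fun u => (f u - f v) ^ 2),
    sum_nb (gr_em hW) v (fun u => f u - f v)]
  have := hcond v f
  linarith

end ZUK
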