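import Pool.Agent.ZUK.Df

/-! # ZUK: basic lemmas on the Markov operator -/

open MulAction LGap

namespace ZUK

variable {H V X : Type*} [Group H] [MulAction H V] {w : V → V → ℝ} {φ : V → V → V → ℝ}

lemma mem_nb (hw : Gr H w) {v u : V} : u ∈ nb hw v ↔ w v u ≠ 0 := by
  unfold nb
  rw [Set.Finite.mem_toFinset]
  exact Iff.rfl

lemma mem_pq (hφ : Tn H φ) {v : V} {q : V × V} : q ∈ pq hφ v ↔ φ v q.1 q.2 ≠ 0 := by
  unfold pq
  rw [Set.Finite.mem_toFinset]
  exact Iff.rfl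

lemma sum_nb (hw : Gr H w) (v : V) (f : V → ℝ) :
    ∑ u ∈ nb hw v, w v u * f u = ∑ᶠ u, w v u * f u := by
  symm
  apply finsum_eq_sum_of_support_subset
  intro u hu
  simp only [Function.mem_support, ne_eq, mul_eq_zero, not_or] at hu
  exact (mem_nb hw).2 hu.1

lemma dg_eq (hw : Gr H w) (v : V) : dg hw v = ∑ᶠ u, w v u := by
  have h := sum_nb hw v (fun _ => 1)
  simp only [mul_one] at h
  exact h

lemma dg_nonneg (hw : Gr H w) (v : V) : 0 ≤ dg hw v :=
  Finset.sum_nonneg (fun u _ => hw.nonneg v u)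

/-- sums over the neighbours of a translated vertex -/
lemma sum_nb_smul (hw : Gr H w) (h : H) (v : V) (f : V → ℝ) :
    ∑ u ∈ nb hw (h • v), w (h • v) u * f u = ∑ u ∈ nb hw v, w v u * f (h • u) := by
  rw [sum_nb, sum_nb hw v (fun u => f (h • u)), ← finsum_comp_equiv (MulAction.toPerm h)]
  apply finsum_congr
  intro u
  simp only [MulAction.toPerm_apply]
  rw [hw.inv]

lemma dg_smul (hw : Gr H w) (h : H) (v : V) : dg hw (h • v) = dg hw v := by
  have h1 := sum_nb_smul hw h v (fun _ => 1)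
  simp only [mul_one] at h1
  exact h1

lemma PL_apply (hw : Gr H w) (f : V → ℝ) (v : V) :
    PL hw f v = (∑ u ∈ nb hw v, w v u * f u) / dg hw v := rfl

lemma PL_congr (hw : Gr H w) {f g : V → ℝ} (h : ∀ u, f u = g u) (v : V) :
    PL hw f v = PL hw g v := by
  rw [show f = g from funext h]

lemma Pk_congr (hw : Gr H w) (k : ℕ) {f g : V → ℝ} (h : ∀ u, f u = g u) (v : V) :
    Pk hw k f v = Pk hw k g v := by
  rw [show f = g from funext h]

lemma PL_smul (hw : Gr H w) (f : V → ℝ) (h : H) (v : V) :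
    PL hw f (h • v) = PL hw (fun u => f (h • u)) v := by
  rw [PL_apply, PL_apply, sum_nb_smul, dg_smul]

lemma Pk_zero (hw : Gr H w) (f : V → ℝ) : Pk hw 0 f = f := by
  unfold Pk
  rw [pow_zero]
  rfl

lemma Pk_one (hw : Gr H w) (f : V → ℝ) : Pk hw 1 f = PL hw f := by
  unfold Pk
  rw [pow_one]

/-- one step at the beginning of the walk -/
lemma Pk_succ (hw : Gr H w) (k : ℕ) (f : V → ℝ) : Pk hw (k + 1) f = PL hw (Pk hw k f) := by
  unfold Pk
  rw [pow_succ']
  rfl

/-- one step at the end of the walk -/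
lemma Pk_succ' (hw : Gr H w) (k : ℕ) (f : V → ℝ) : Pk hw (k + 1) f = Pk hw k (PL hw f) := by
  unfold Pk
  rw [pow_succ]
  rfl

lemma Pk_add (hw : Gr H w) (j k : ℕ) (f : V → ℝ) : Pk hw (j + k) f = Pk hw j (Pk hw k f) := by
  unfold Pk
  rw [pow_add]
  rfl

lemma Pk_succ_apply (hw : Gr H w) (k : ℕ) (f : V → ℝ) (v : V) :
    Pk hw (k + 1) f v = (∑ u ∈ nb hw v, w v u * Pk hw k f u) / dg hw v := by
  rw [Pk_succ, PL_apply]

lemma Pk_smul (hw : Gr H w) (k : ℕ) (f : V → ℝ) (h : H) (v : V) :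
    Pk hw k f (h • v) = Pk hw k (fun u => f (h • u)) v := by
  induction k generalizing f v with
  | zero => rw [Pk_zero, Pk_zero]
  | succ k ih =>
    rw [Pk_succ, Pk_succ, PL_smul]
    exact PL_congr hw (fun u => ih f u) v

lemma Pk_cmul (hw : Gr H w) (k : ℕ) (c : ℝ) (f : V → ℝ) (v : V) :
    Pk hw k (fun u => c * f u) v = c * Pk hw k f v := by
  have h : (fun u => c * f u) = c • f := rfl
  rw [h, map_smul]
  rfl

lemma Pk_addf (hw : Gr H w) (k : ℕ) (f g : V → ℝ) (v : V) :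
    Pk hw k (fun u => f u + g u) v = Pk hw k f v + Pk hw k g v := by
  have h : (fun u => f u + g u) = f + g := rfl
  rw [h, map_add]
  rfl

lemma Pk_subf (hw : Gr H w) (k : ℕ) (f g : V → ℝ) (v : V) :
    Pk hw k (fun u => f u - g u) v = Pk hw k f v - Pk hw k g v := by
  have h : (fun u => f u - g u) = f - g := rfl
  rw [h, map_sub]
  rfl

lemma Pk_sumf (hw : Gr H w) (k : ℕ) {ι : Type*} (s : Finset ι) (F : ι → V → ℝ) (v : V) :
    Pk hw k (fun u => ∑ i ∈ s, F i u) v = ∑ i ∈ s, Pk hw k (F i) v := by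
  have h : (fun u => ∑ i ∈ s, F i u) = ∑ i ∈ s, F i := by
    funext u
    rw [Finset.sum_apply]
  rw [h, map_sum, Finset.sum_apply]

lemma Pk_zerof (hw : Gr H w) (k : ℕ) (v : V) : Pk hw k (fun _ => 0) v = 0 := by
  have h : (fun _ => 0 : V → ℝ) = 0 := rfl
  rw [h, map_zero]
  rfl

lemma PL_mono (hw : Gr H w) {f g : V → ℝ} (h : ∀ u, f u ≤ g u) (v : V) :
    PL hw f v ≤ PL hw g v := by
  rw [PL_apply, PL_apply]
  apply div_le_div_of_nonneg_right _ (dg_nonneg hw v)
  apply Finset.sum_le_sum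
  intro u _
  exact mul_le_mul_of_nonneg_left (h u) (hw.nonneg v u)

lemma Pk_mono (hw : Gr H w) (k : ℕ) {f g : V → ℝ} (h : ∀ u, f u ≤ g u) (v : V) :
    Pk hw k f v ≤ Pk hw k g v := by
  induction k generalizing v with
  | zero => rw [Pk_zero, Pk_zero]; exact h v
  | succ k ih =>
    rw [Pk_succ, Pk_succ]
    exact PL_mono hw ih v

lemma Pk_nonneg (hw : Gr H w) (k : ℕ) {f : V → ℝ} (h : ∀ u, 0 ≤ f u) (v : V) :
    0 ≤ Pk hw k f v := by
  have h1 := Pk_mono hw k (f := fun _ => 0) (g := f) h v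
  rw [Pk_zerof] at h1
  exact h1

lemma PL_const (hw : Gr H w) (hd : ∀ v, 0 < dg hw v) (c : ℝ) (v : V) :
    PL hw (fun _ => c) v = c := by
  rw [PL_apply, ← Finset.sum_mul]
  have h1 : ∑ u ∈ nb hw v, w v u = dg hw v := rfl
  rw [h1]
  have := (hd v).ne'
  field_simp

lemma Pk_const (hw : Gr H w) (hd : ∀ v, 0 < dg hw v) (k : ℕ) (c : ℝ) (v : V) :
    Pk hw k (fun _ => c) v = c := by
  induction k generalizing v with
  | zero => rw [Pk_zero]
  | succ k ih =>
    rw [Pk_succ]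
    have h1 : Pk hw k (fun _ => c) = fun _ => c := funext ih
    rw [h1]
    exact PL_const hw hd c v

lemma Pk_le_const (hw : Gr H w) (hd : ∀ v, 0 < dg hw v) (k : ℕ) {f : V → ℝ} {c : ℝ}
    (h : ∀ u, f u ≤ c) (v : V) : Pk hw k f v ≤ c := by
  have h1 := Pk_mono hw k (f := f) (g := fun _ => c) h v
  rw [Pk_const hw hd] at h1
  exact h1

lemma const_le_Pk (hw : Gr H w) (hd : ∀ v, 0 < dg hw v) (k : ℕ) {f : V → ℝ} {c : ℝ}
    (h : ∀ u, c ≤ f u) (v : V) : c ≤ Pk hw k f v := by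
  have h1 := Pk_mono hw k (f := fun _ => c) (g := f) h v
  rw [Pk_const hw hd] at h1
  exact h1

lemma abs_Pk_le (hw : Gr H w) (hd : ∀ v, 0 < dg hw v) (k : ℕ) {f : V → ℝ} {c : ℝ}
    (h : ∀ u, |f u| ≤ c) (v : V) : |Pk hw k f v| ≤ c := by
  rw [abs_le]
  exact ⟨const_le_Pk hw hd k (fun u => (abs_le.1 (h u)).1) v,
    Pk_le_const hw hd k (fun u => (abs_le.1 (h u)).2) v⟩

/-- the indicator function of an orbit -/
lemma ch_smul (o : Ty H V) (h : H) (v : V) : ch o (h • v) = ch o v := by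
  unfold ch
  rw [typ_smul]

lemma ch_nonneg (o : Ty H V) (v : V) : 0 ≤ ch o v := by
  unfold ch
  split_ifs <;> norm_num

lemma ch_le_one (o : Ty H V) (v : V) : ch o v ≤ 1 := by
  unfold ch
  split_ifs <;> norm_num

lemma ch_rep (o : Ty H V) : ch o (rep o) = 1 := by
  unfold ch
  rw [typ_rep, if_pos rfl]

lemma ch_rep_ne {o o' : Ty H V} (h : o' ≠ o) : ch o (rep o') = 0 := by
  unfold ch
  rw [typ_rep, if_neg h]

lemma ch_sq (o : Ty H V) (v : V) : ch o v * ch o v = ch o v := by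
  unfold ch
  split_ifs <;> norm_num

/-- linearity and monotonicity of `J2` -/
lemma J2_cmul (hw : Gr H w) (o : Ty H V) (p : V → X) (m n : ℕ) (c : ℝ) (Ψ : X → ℝ) (v : V) :
    J2 hw o p m n (fun s => c * Ψ s) v = c * J2 hw o p m n Ψ v := by
  unfold J2 J
  rw [mul_add, Finset.mul_sum, Finset.mul_sum]
  congr 1
  · apply Finset.sum_congr rfl
    intro k _
    rw [← Pk_cmul]
    apply Pk_congr
    intro u
    ring
  · apply Finset.sum_congr rfl
    intro k _
    rw [← Pk_cmul]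
    apply Pk_congr
    intro u
    ring

lemma J_addf (hw : Gr H w) (o : Ty H V) (p : V → X) (n : ℕ) (Ψ Ψ' : X → ℝ) (v : V) :
    J hw o p n (fun s => Ψ s + Ψ' s) v = J hw o p n Ψ v + J hw o p n Ψ' v := by
  unfold J
  rw [← Finset.sum_add_distrib]
  apply Finset.sum_congr rfl
  intro k _
  rw [← Pk_addf]
  apply Pk_congr
  intro u
  ring

lemma J_sub (hw : Gr H w) (o : Ty H V) (p : V → X) (n : ℕ) (Ψ Ψ' : X → ℝ) (v : V) :
    J hw o p n (fun s => Ψ s - Ψ' s) v = J hw o p n Ψ v - J hw o p n Ψ' v := by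
  unfold J
  rw [← Finset.sum_sub_distrib]
  apply Finset.sum_congr rfl
  intro k _
  rw [← Pk_subf]
  apply Pk_congr
  intro u
  ring

lemma J2_addf (hw : Gr H w) (o : Ty H V) (p : V → X) (m n : ℕ) (Ψ Ψ' : X → ℝ) (v : V) :
    J2 hw o p m n (fun s => Ψ s + Ψ' s) v = J2 hw o p m n Ψ v + J2 hw o p m n Ψ' v := by
  unfold J2
  rw [J_addf, J_addf]
  ring

lemma J_zerof (hw : Gr H w) (o : Ty H V) (p : V → X) (n : ℕ) (v : V) :
    J hw o p n (fun _ => 0) v = 0 := by
  unfold J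
  apply Finset.sum_eq_zero
  intro k _
  have h : (fun u => ch o u * (0:ℝ)) = fun _ => 0 := by
    funext u
    ring
  rw [h, Pk_zerof]

lemma J2_sumf (hw : Gr H w) (o : Ty H V) (p : V → X) (m n : ℕ) {ι : Type*} (t : Finset ι)
    (F : ι → X → ℝ) (v : V) :
    J2 hw o p m n (fun s => ∑ i ∈ t, F i s) v = ∑ i ∈ t, J2 hw o p m n (F i) v := by
  classical
  induction t using Finset.induction_on with
  | empty =>
    simp only [Finset.sum_empty]
    unfold J2
    rw [J_zerof, J_zerof, add_zero]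
  | insert a t ha ih =>
    simp only [Finset.sum_insert ha]
    rw [J2_addf, ih]

lemma J_mono (hw : Gr H w) (o : Ty H V) (p : V → X) (n : ℕ) {Ψ Ψ' : X → ℝ}
    (h : ∀ s, Ψ s ≤ Ψ' s) (v : V) : J hw o p n Ψ v ≤ J hw o p n Ψ' v := by
  unfold J
  apply Finset.sum_le_sum
  intro k _
  apply Pk_mono
  intro u
  exact mul_le_mul_of_nonneg_left (h _) (ch_nonneg o u)

lemma J2_mono (hw : Gr H w) (o : Ty H V) (p : V → X) (m n : ℕ) {Ψ Ψ' : X → ℝ}
    (h : ∀ s, Ψ s ≤ Ψ' s) (v : V) : J2 hw o p m n Ψ v ≤ J2 hw o p m n Ψ' v := by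
  unfold J2
  exact add_le_add (J_mono hw o p m h v) (J_mono hw o p n h v)

lemma J2_nonneg (hw : Gr H w) (o : Ty H V) (p : V → X) (m n : ℕ) {Ψ : X → ℝ}
    (h : ∀ s, 0 ≤ Ψ s) (v : V) : 0 ≤ J2 hw o p m n Ψ v := by
  have h1 := J2_mono hw o p m n (Ψ := fun _ => 0) h v
  unfold J2 at h1
  rw [J_zerof, J_zerof, add_zero] at h1
  exact h1

/-- the total mass is at most the number of terms -/
lemma Tt_nonneg [LinearOrder X] (hw : Gr H w) (o : Ty H V) (p : V → X) (m n : ℕ) (v : V) :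
    0 ≤ Tt hw o p m n v := J2_nonneg hw o p m n (fun _ => zero_le_one) v

lemma J_one_le (hw : Gr H w) (hd : ∀ v, 0 < dg hw v) (o : Ty H V) (p : V → X) (n : ℕ) (v : V) :
    J hw o p n (fun _ => 1) v ≤ n := by
  unfold J
  calc ∑ k ∈ Finset.range n, Pk hw k (fun u => ch o u * 1) v
      ≤ ∑ k ∈ Finset.range n, (1:ℝ) := by
        apply Finset.sum_le_sum
        intro k _
        apply Pk_le_const hw hd
        intro u
        rw [mul_one]
        exact ch_le_one o u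
    _ = n := by simp

lemma Tt_le [LinearOrder X] (hw : Gr H w) (hd : ∀ v, 0 < dg hw v) (o : Ty H V) (p : V → X)
    (m n : ℕ) (v : V) : Tt hw o p m n v ≤ m + n := by
  unfold Tt J2
  exact add_le_add (J_one_le hw hd o p m v) (J_one_le hw hd o p n v)

section equiv

variable [MulAction H X]

/-- equivariance of `J` and `J2` -/
lemma J_smul (hw : Gr H w) (o : Ty H V) {p : V → X} (hp : ∀ (h : H) v, p (h • v) = h • p v)
    (n : ℕ) (Ψ : X → ℝ) (h : H) (v : V) :
    J hw o p n Ψ (h • v) = J hw o p n (fun s => Ψ (h • s)) v := by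
  unfold J
  apply Finset.sum_congr rfl
  intro k _
  rw [Pk_smul]
  apply Pk_congr
  intro u
  rw [ch_smul, hp]

lemma J2_smul (hw : Gr H w) (o : Ty H V) {p : V → X} (hp : ∀ (h : H) v, p (h • v) = h • p v)
    (m n : ℕ) (Ψ : X → ℝ) (h : H) (v : V) :
    J2 hw o p m n Ψ (h • v) = J2 hw o p m n (fun s => Ψ (h • s)) v := by
  unfold J2
  rw [J_smul hw o hp, J_smul hw o hp]

variable [LinearOrder X]

lemma leI_smul (hm : ∀ h : H, StrictMono (fun x : X => h • x)) (h : H) (s t : X) :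
    leI (h • s) (h • t) = leI s t := by
  unfold leI
  have : h • t ≤ h • s ↔ t ≤ s := (hm h).le_iff_le
  simp only [this]

lemma ltI_smul (hm : ∀ h : H, StrictMono (fun x : X => h • x)) (h : H) (s t : X) :
    ltI (h • s) (h • t) = ltI s t := by
  unfold ltI
  have : h • t < h • s ↔ t < s := (hm h).lt_iff_lt
  simp only [this]

lemma sg_smul (hm : ∀ h : H, StrictMono (fun x : X => h • x)) (h : H) (s t : X) :
    sg (h • s) (h • t) = sg s t := by
  unfold sg
  rw [leI_smul hm, ltI_smul hm]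

lemma Ap_smul (hw : Gr H w) (o : Ty H V) {p : V → X} (hp : ∀ (h : H) v, p (h • v) = h • p v)
    (hm : ∀ h : H, StrictMono (fun x : X => h • x)) (m n : ℕ) (h : H) (s : X) (v : V) :
    Ap hw o p m n (h • s) (h • v) = Ap hw o p m n s v := by
  unfold Ap
  rw [J2_smul hw o hp]
  congr 1
  funext t
  exact leI_smul hm h s t

lemma Am_smul (hw : Gr H w) (o : Ty H V) {p : V → X} (hp : ∀ (h : H) v, p (h • v) = h • p v)
    (hm : ∀ h : H, StrictMono (fun x : X => h • x)) (m n : ℕ) (h : H) (s : X) (v : V) :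
    Am hw o p m n (h • s) (h • v) = Am hw o p m n s v := by
  unfold Am
  rw [J2_smul hw o hp]
  congr 1
  funext t
  exact ltI_smul hm h s t

lemma Tt_smul (hw : Gr H w) (o : Ty H V) {p : V → X} (hp : ∀ (h : H) v, p (h • v) = h • p v)
    (m n : ℕ) (h : H) (v : V) : Tt hw o p m n (h • v) = Tt hw o p m n v := by
  unfold Tt
  rw [J2_smul hw o hp]

lemma gq_smul (hw : Gr H w) (o : Ty H V) {p : V → X} (hp : ∀ (h : H) v, p (h • v) = h • p v)
    (hm : ∀ h : H, StrictMono (fun x : X => h • x)) (m n : ℕ) (h : H) (s : X) (v : V) :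
    gq hw o p m n (h • s) (h • v) = gq hw o p m n s v := by
  unfold gq
  rw [sum_nb_smul hw h v (fun u => qf (Am hw o p m n (h • s) u - Am hw o p m n (h • s) (h • v))
    (Ap hw o p m n (h • s) u - Ap hw o p m n (h • s) (h • v)))]
  simp only [Am_smul hw o hp hm, Ap_smul hw o hp hm]

lemma bb_smul (hw : Gr H w) (o : Ty H V) {p : V → X} (hp : ∀ (h : H) v, p (h • v) = h • p v)
    (hm : ∀ h : H, StrictMono (fun x : X => h • x)) (n : ℕ) (h : H) (s : X) (v : V) :
    bb hw o p n (h • s) (h • v) = bb hw o p n s v := by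
  unfold bb
  rw [J_smul hw o hp]
  congr 1
  funext t
  exact sg_smul hm h s t

lemma sv_smul (o : Ty H V) {p : V → X} (hp : ∀ (h : H) v, p (h • v) = h • p v)
    (hm : ∀ h : H, StrictMono (fun x : X => h • x)) (h : H) (s : X) (v : V) :
    sv o p (h • s) (h • v) = sv o p s v := by
  unfold sv
  rw [ch_smul, hp, sg_smul hm]

end equiv

/-- elementary facts on signs -/
lemma sg_self [LinearOrder X] (s : X) : sg s s = 0 := by
  unfold sg leI ltI
  rw [if_pos le_rfl, if_neg (lt_irrefl _)]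
  norm_num

lemma sg_of_lt [LinearOrder X] {s t : X} (h : t < s) : sg s t = 1 := by
  unfold sg leI ltI
  rw [if_pos h.le, if_pos h]
  norm_num

lemma sg_of_gt [LinearOrder X] {s t : X} (h : s < t) : sg s t = -1 := by
  unfold sg leI ltI
  rw [if_neg (not_le.2 h), if_neg (not_lt.2 h.le)]
  norm_num

lemma sg_anti [LinearOrder X] (s t : X) : sg t s = - sg s t := by
  rcases lt_trichotomy s t with h | h | h
  · rw [sg_of_lt h, sg_of_gt h, neg_neg]
  · subst h
    rw [sg_self, neg_zero]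
  · rw [sg_of_lt h, sg_of_gt h]

lemma abs_sg_le [LinearOrder X] (s t : X) : |sg s t| ≤ 1 := by
  rcases lt_trichotomy s t with h | h | h
  · rw [sg_of_gt h]; norm_num
  · subst h
    rw [sg_self]; norm_num
  · rw [sg_of_lt h]; norm_num

lemma qf_nonneg (x y : ℝ) : 0 ≤ qf x y := by
  unfold qf
  nlinarith [sq_nonneg (x + y), sq_nonneg (x - y)]

end ZUK
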