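import Mathlib

/-! # Module Ctr (difficulty 2): the contradiction

PROOF. `∑_{N<n+1} N^2 ≥ n^3 / 3` (induction) and `∑_{N<n+1} N ≤ n^2` for `n ≥ 1` (induction; also true for
`n = 0`). So `c n^3 / 3 - C n^2 ≤ ∑ S N ≤ K n^2` for all `n`; take `n ≥ 1` with `c n > 3 (C + K)`
(`exists_nat_gt`). -/

namespace ZUK

theorem contra (S : ℕ → ℝ) {c C K : ℝ} (hc : 0 < c) (hC : 0 ≤ C)
    (h1 : ∀ N : ℕ, c * (N : ℝ) ^ 2 - C * N ≤ S N)
    (h2 : ∀ n : ℕ, ∑ N ∈ Finset.range (n + 1), S N ≤ K * (n : ℝ) ^ 2) : False := by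
  have hsq : ∀ n : ℕ, (n : ℝ) ^ 3 / 3 ≤ ∑ N ∈ Finset.range (n + 1), (N : ℝ) ^ 2 := by
    intro n
    induction n with
    | zero => simp
    | succ n ih =>
      rw [Finset.sum_range_succ]
      have hn : (0 : ℝ) ≤ (n : ℝ) := Nat.cast_nonneg n
      push_cast
      nlinarith
  have hli : ∀ n : ℕ, ∑ N ∈ Finset.range (n + 1), (N : ℝ) ≤ (n : ℝ) ^ 2 := by
    intro n
    induction n with
    | zero => simp
    | succ n ih =>
      rw [Finset.sum_range_succ]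
      have hn : (0 : ℝ) ≤ (n : ℝ) := Nat.cast_nonneg n
      push_cast
      nlinarith
  have key : ∀ n : ℕ, c * ((n : ℝ) ^ 3 / 3) - C * (n : ℝ) ^ 2 ≤ K * (n : ℝ) ^ 2 := by
    intro n
    calc c * ((n : ℝ) ^ 3 / 3) - C * (n : ℝ) ^ 2
        ≤ c * (∑ N ∈ Finset.range (n + 1), (N : ℝ) ^ 2) -
            C * ∑ N ∈ Finset.range (n + 1), (N : ℝ) :=
          sub_le_sub (mul_le_mul_of_nonneg_left (hsq n) hc.le)
            (mul_le_mul_of_nonneg_left (hli n) hC)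
      _ = ∑ N ∈ Finset.range (n + 1), (c * (N : ℝ) ^ 2 - C * N) := by
          rw [Finset.sum_sub_distrib, Finset.mul_sum, Finset.mul_sum]
      _ ≤ ∑ N ∈ Finset.range (n + 1), S N := Finset.sum_le_sum (fun N _ => h1 N)
      _ ≤ K * (n : ℝ) ^ 2 := h2 n
  obtain ⟨n, hn⟩ := exists_nat_gt (max 1 (3 * (C + K) / c))
  have hn1 : (1 : ℝ) < n := lt_of_le_of_lt (le_max_left _ _) hn
  have hn2 : 3 * (C + K) < n * c := (div_lt_iff₀ hc).mp (lt_of_le_of_lt (le_max_right _ _) hn)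
  have h3 := key n
  have h4 : (0 : ℝ) < (n : ℝ) ^ 2 := by positivity
  have h5 : 3 * (C + K) * (n : ℝ) ^ 2 < n * c * (n : ℝ) ^ 2 := mul_lt_mul_of_pos_right hn2 h4
  have h6 : n * c * (n : ℝ) ^ 2 = 3 * (c * ((n : ℝ) ^ 3 / 3)) := by ring
  nlinarith

end ZUK
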