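import Pool.Agent.ZUK.Bas

/-! # Module Dep (difficulty 3): the functional `J2` is a finite sum over points of `X`

`Pk_dep`: there is a finite set `B` of vertices such that `Pk hw k f v` only depends on `f` on `B`.
PROOF. Induction on `k`, generalizing `v`. `k = 0`: `B = {v}` (`Pk_zero`). `k + 1`: by `Pk_succ_apply`
take the union of the sets for `u ∈ nb hw v`.

`J2_rep`: for a finite set `F` of vertices there is a finite set `T` of points of `X` with
`J2 Ψ v = ∑_{s ∈ T} Ψ s * J2 (eqI s) v` for all `v ∈ F` and all `Ψ`, where `eqI s t = 1` if `t = s`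
and `0` otherwise.
PROOF. For `v ∈ F` and `k < max m n` take the sets `B k v` of `Pk_dep`; let `T` be the image under
`p` of their union. For `u ∈ B k v` we have `ch o u * Ψ (p u) = ∑_{s ∈ T} Ψ s * (ch o u * eqI s (p u))`
(only `s = p u` contributes). Hence `Pk k (fun u => ch o u * Ψ (p u)) v` equals
`Pk k (fun u => ∑_{s ∈ T} Ψ s * (ch o u * eqI s (p u))) v` (by `Pk_dep`)
`= ∑_{s ∈ T} Ψ s * Pk k (fun u => ch o u * eqI s (p u)) v` (`Pk_sumf`, `Pk_cmul`). Sum over `k`. -/

open MulAction LGap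

namespace ZUK

variable {H V X : Type*} [Group H] [MulAction H V] {w : V → V → ℝ}

open Classical in
/-- indicator of `t = s` -/
noncomputable def eqI (s t : X) : ℝ := if t = s then 1 else 0

theorem Pk_dep (hw : Gr H w) (k : ℕ) (v : V) :
    ∃ B : Finset V, ∀ f g : V → ℝ, (∀ u ∈ B, f u = g u) → Pk hw k f v = Pk hw k g v := by
  classical
  induction k generalizing v with
  | zero =>
    refine ⟨{v}, fun f g h => ?_⟩
    rw [Pk_zero, Pk_zero]
    exact h v (Finset.mem_singleton_self v)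
  | succ k ih =>
    choose B hB using ih
    refine ⟨(nb hw v).biUnion B, fun f g h => ?_⟩
    rw [Pk_succ_apply, Pk_succ_apply]
    congr 1
    refine Finset.sum_congr rfl fun u hu => ?_
    rw [hB u f g fun x hx => h x (Finset.mem_biUnion.mpr ⟨u, hu, hx⟩)]

theorem J2_rep (hw : Gr H w) (o : Ty H V) (p : V → X) (m n : ℕ) (F : Finset V) :
    ∃ T : Finset X, ∀ v ∈ F, ∀ Ψ : X → ℝ,
      J2 hw o p m n Ψ v = ∑ s ∈ T, Ψ s * J2 hw o p m n (eqI s) v := by
  classical
  choose B hB using fun (k : ℕ) (v : V) => Pk_dep hw k v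
  refine ⟨(F.biUnion fun v => (Finset.range (m + n)).biUnion fun k => B k v).image p,
    fun v hv Ψ => ?_⟩
  generalize hT : (F.biUnion fun v => (Finset.range (m + n)).biUnion fun k => B k v).image p = T
  have hmem : ∀ k < m + n, ∀ u ∈ B k v, p u ∈ T := by
    intro k hk u hu
    rw [← hT]
    exact Finset.mem_image_of_mem p (Finset.mem_biUnion.mpr ⟨v, hv, Finset.mem_biUnion.mpr
      ⟨k, Finset.mem_range.mpr hk, hu⟩⟩)
  have hJ : ∀ (l : ℕ), l ≤ m + n → ∀ Ψ₁ Ψ₂ : X → ℝ, (∀ t ∈ T, Ψ₁ t = Ψ₂ t) →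
      J hw o p l Ψ₁ v = J hw o p l Ψ₂ v := by
    intro l hl Ψ₁ Ψ₂ h
    unfold J
    refine Finset.sum_congr rfl fun k hk => ?_
    refine hB k v _ _ fun u hu => ?_
    rw [h _ (hmem k (lt_of_lt_of_le (Finset.mem_range.mp hk) hl) u hu)]
  have h1 : J2 hw o p m n Ψ v = J2 hw o p m n (fun t => ∑ s ∈ T, Ψ s * eqI s t) v := by
    have h2 : ∀ t ∈ T, Ψ t = ∑ s ∈ T, Ψ s * eqI s t := by
      intro t ht
      unfold eqI
      simp [ht]
    unfold J2
    rw [hJ m (Nat.le_add_right m n) _ _ h2, hJ n (Nat.le_add_left n m) _ _ h2]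
  rw [h1, J2_sumf]
  exact Finset.sum_congr rfl fun s _ => J2_cmul hw o p m n (Ψ s) (eqI s) v

end ZUK
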