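import Pool.Agent.LGap.MT

/-! # ZUK: definitions

A group `H` acts on a set `V` of vertices; `w` are weights on pairs of vertices, `φ` is a tensor.
`p : V → X` is an equivariant map to a linearly ordered set. -/

open MulAction LGap

namespace ZUK

variable {H V X : Type*} [Group H] [MulAction H V]

/-- symmetric, invariant, locally finite, nonnegative weights on pairs of vertices -/
structure Gr (H : Type*) {V : Type*} [Group H] [MulAction H V] (w : V → V → ℝ) : Prop where
  nonneg : ∀ u v, 0 ≤ w u v
  symm : ∀ u v, w u v = w v u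
  inv : ∀ (h : H) (u v : V), w (h • u) (h • v) = w u v
  fin : ∀ v, {u | w v u ≠ 0}.Finite

/-- symmetric, invariant, locally finite tensors -/
structure Tn (H : Type*) {V : Type*} [Group H] [MulAction H V] (φ : V → V → V → ℝ) : Prop where
  swap12 : ∀ u v w, φ u v w = φ v u w
  swap23 : ∀ u v w, φ u v w = φ u w v
  inv : ∀ (h : H) (u v w : V), φ (h • u) (h • v) (h • w) = φ u v w
  fin : ∀ v, {q : V × V | φ v q.1 q.2 ≠ 0}.Finite

variable {w : V → V → ℝ} {φ : V → V → V → ℝ}

/-- neighbours -/
noncomputable def nb (hw : Gr H w) (v : V) : Finset V := (hw.fin v).toFinset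

/-- degree -/
noncomputable def dg (hw : Gr H w) (v : V) : ℝ := ∑ u ∈ nb hw v, w v u

/-- pairs of vertices at which the slice of the tensor at `v` does not vanish -/
noncomputable def pq (hφ : Tn H φ) (v : V) : Finset (V × V) := (hφ.fin v).toFinset

/-- the Markov operator -/
noncomputable def PL (hw : Gr H w) : (V → ℝ) →ₗ[ℝ] (V → ℝ) where
  toFun f v := (∑ u ∈ nb hw v, w v u * f u) / dg hw v
  map_add' f g := by
    funext v
    simp only [Pi.add_apply, mul_add, Finset.sum_add_distrib, add_div]
  map_smul' c f := by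
    funext v
    simp only [Pi.smul_apply, smul_eq_mul, RingHom.id_apply]
    rw [← mul_div_assoc, Finset.mul_sum]
    congr 1
    apply Finset.sum_congr rfl
    intro u _
    ring

/-- powers of the Markov operator -/
noncomputable def Pk (hw : Gr H w) (k : ℕ) : (V → ℝ) →ₗ[ℝ] (V → ℝ) := (PL hw) ^ k

open Classical in
/-- indicator function of the orbit `o` -/
noncomputable def ch (o : Ty H V) (v : V) : ℝ := if typ H v = o then 1 else 0

/-- `∑_{k<n} P^k (1_o Ψ(p))` at `v` -/
noncomputable def J (hw : Gr H w) (o : Ty H V) (p : V → X) (n : ℕ) (Ψ : X → ℝ) (v : V) : ℝ :=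
  ∑ k ∈ Finset.range n, Pk hw k (fun u => ch o u * Ψ (p u)) v

/-- sum of two truncations -/
noncomputable def J2 (hw : Gr H w) (o : Ty H V) (p : V → X) (m n : ℕ) (Ψ : X → ℝ) (v : V) : ℝ :=
  J hw o p m Ψ v + J hw o p n Ψ v

section order

variable [LinearOrder X]

/-- indicator of `t ≤ s` -/
noncomputable def leI (s t : X) : ℝ := if t ≤ s then 1 else 0

/-- indicator of `t < s` -/
noncomputable def ltI (s t : X) : ℝ := if t < s then 1 else 0

/-- sign of `s - t` -/
noncomputable def sg (s t : X) : ℝ := leI s t + ltI s t - 1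

/-- distribution functions (right limits) -/
noncomputable def Ap (hw : Gr H w) (o : Ty H V) (p : V → X) (m n : ℕ) (s : X) (v : V) : ℝ :=
  J2 hw o p m n (leI s) v

/-- distribution functions (left limits) -/
noncomputable def Am (hw : Gr H w) (o : Ty H V) (p : V → X) (m n : ℕ) (s : X) (v : V) : ℝ :=
  J2 hw o p m n (ltI s) v

/-- total mass -/
noncomputable def Tt (hw : Gr H w) (o : Ty H V) (p : V → X) (m n : ℕ) (v : V) : ℝ :=
  J2 hw o p m n (fun _ => 1) v

/-- integral over `[0,1]` of the product of two affine functions with values `x, y` at `0` and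
`x', y'` at `1` -/
noncomputable def av (x x' y y' : ℝ) : ℝ := (2 * x * y + 2 * x' * y' + x * y' + x' * y) / 6

/-- the same for the square of one affine function -/
noncomputable def qf (x y : ℝ) : ℝ := (x ^ 2 + x * y + y ^ 2) / 3

/-- local energy at `v` (seen at the point `s`) -/
noncomputable def gq (hw : Gr H w) (o : Ty H V) (p : V → X) (m n : ℕ) (s : X) (v : V) : ℝ :=
  ∑ u ∈ nb hw v, w v u * qf (Am hw o p m n s u - Am hw o p m n s v)
    (Ap hw o p m n s u - Ap hw o p m n s v)

/-- total energy -/
noncomputable def E2 [Fintype (Ty H V)] (hw : Gr H w) (o : Ty H V) (p : V → X) (m n : ℕ) : ℝ :=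
  ∑ o' : Ty H V, cw o' * J2 hw o p m n (fun s => gq hw o p m n s (rep o')) (rep o')

/-- rank function -/
noncomputable def bb (hw : Gr H w) (o : Ty H V) (p : V → X) (n : ℕ) (s : X) (v : V) : ℝ :=
  J hw o p n (sg s) v

/-- squared gradient of the rank function -/
noncomputable def grd (hw : Gr H w) (o : Ty H V) (p : V → X) (n : ℕ) (s : X) (v : V) : ℝ :=
  (∑ u ∈ nb hw v, w v u * (bb hw o p n s u - bb hw o p n s v) ^ 2) / dg hw v

/-- the sign on the orbit `o` -/
noncomputable def sv (o : Ty H V) (p : V → X) (s : X) (v : V) : ℝ := ch o v * sg s (p v)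

/-- second moment of the sum of the signs along the random walk -/
noncomputable def SN (hw : Gr H w) (o : Ty H V) (p : V → X) (s : X) : ℕ → V → ℝ
  | 0 => fun _ => 0
  | N + 1 => fun v => sv o p s v ^ 2 + 2 * sv o p s v * PL hw (bb hw o p N s) v
      + PL hw (SN hw o p s N) v

/-- correlations of the signs -/
noncomputable def Rk (hw : Gr H w) (o : Ty H V) (p : V → X) (s : X) (k j : ℕ) (v : V) : ℝ :=
  Pk hw k (fun u => sv o p s u * Pk hw j (sv o p s) u) v

/-- indicator of `a ≠ b` -/
noncomputable def ne1 (a b : X) : ℝ := if b = a then 0 else 1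

end order

/-- the certificate: the energy at `v` is at most a constant times the square of the Laplacian
plus a quadratic form given by the slice of the tensor -/
structure Ct (hw : Gr H w) (hφ : Tn H φ) (κ C : ℝ) : Prop where
  kpos : 0 < κ
  cnn : 0 ≤ C
  marg : ∀ v x, ∑ᶠ y, φ v x y = 0
  ineq : ∀ (v : V) (f : V → ℝ), κ * ∑ u ∈ nb hw v, w v u * (f u - f v) ^ 2 ≤
    C * (∑ u ∈ nb hw v, w v u * (f u - f v)) ^ 2 + ∑ q ∈ pq hφ v, φ v q.1 q.2 * (f q.1 * f q.2)

end ZUK
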