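import Pool.Agent.ZUK.Poi

/-! # Module Gbd (difficulty 2): the total masses

PROOF. Take `π, B, ψ` from `exists_poisson`. By induction on `n`
`J n 1 v = ∑_{k<n} Pk k (ch o) v = n π + ψ v - Pk n ψ v`: for the step
`Pk n (ch o) v = Pk n (fun u => π + (ψ u - PL ψ u)) v = π + Pk n ψ v - Pk (n+1) ψ v`
(`Pk_addf`, `Pk_subf`, `Pk_const`, `Pk_succ'`). Hence `|J n 1 v - n π| ≤ 2 B` (`abs_Pk_le`). -/

open MulAction LGap

namespace ZUK

variable {H V X : Type*} [Group H] [MulAction H V] {w : V → V → ℝ} [Fintype (Ty H V)]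

theorem total_bound (hw : Gr H w) (hd : ∀ v, 0 < dg hw v)
    (hst : ∀ v : V, Finite (MulAction.stabilizer H v))
    (hconn : ∀ v u : V, Relation.ReflTransGen (fun a b => w a b ≠ 0) v u) (o : Ty H V)
    (p : V → X) :
    ∃ π B : ℝ, 0 < π ∧ 0 ≤ B ∧ ∀ (n : ℕ) (v : V), |J hw o p n (fun _ => 1) v - n * π| ≤ B := by
  obtain ⟨π, B, ψ, hπ, hB, hψ, he⟩ := exists_poisson hw hd hst hconn o
  refine ⟨π, 2 * B, hπ, by linarith, ?_⟩
  intro n v
  have key : ∀ n : ℕ, J hw o p n (fun _ => 1) v = n * π + ψ v - Pk hw n ψ v := by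
    intro n
    induction n with
    | zero =>
      unfold J
      rw [Finset.range_zero, Finset.sum_empty, Pk_zero]
      push_cast
      ring
    | succ n ih =>
      unfold J at ih ⊢
      rw [Finset.sum_range_succ, ih]
      have h1 : Pk hw n (fun u => ch o u * (1 : ℝ)) v =
          Pk hw n (fun u => π + (ψ u - PL hw ψ u)) v :=
        Pk_congr hw n (fun u => by rw [mul_one]; exact he u) v
      have h2 : Pk hw n (fun u => π + (ψ u - PL hw ψ u)) v =
          π + (Pk hw n ψ v - Pk hw (n + 1) ψ v) := by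
        rw [Pk_addf hw n (fun _ => π) (fun u => ψ u - PL hw ψ u) v, Pk_const hw hd,
          Pk_subf hw n ψ (fun u => PL hw ψ u) v, Pk_succ']
      rw [h1, h2]
      push_cast
      ring
  rw [key n]
  have h3 := hψ v
  have h4 := abs_Pk_le hw hd n hψ v
  have h5 : (n : ℝ) * π + ψ v - Pk hw n ψ v - n * π = ψ v - Pk hw n ψ v := by ring
  rw [h5]
  calc |ψ v - Pk hw n ψ v| ≤ |ψ v| + |Pk hw n ψ v| := abs_sub _ _
    _ ≤ 2 * B := by linarith

end ZUK
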