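import Pool.Agent.ZUK.Pol

/-! # Module Loc (difficulty 3): the local inequality for the distribution functions

`lap_bound`: for `0 ≤ Ψ ≤ 1`, `|∑_{u ∈ nb v} w v u * (J2 Ψ u - J2 Ψ v)| ≤ 2 * dg v`.
PROOF. The sum is `dg v * (PL (J2 Ψ) v - J2 Ψ v)`. With `F u = ch o u * Ψ (p u) ∈ [0, 1]` we have
`J n Ψ = ∑_{k<n} Pk k F`, `PL (J n Ψ) v = ∑_{k<n} Pk (k+1) F v` (`Pk_succ`, linearity), so
`PL (J n Ψ) v - J n Ψ v = Pk n F v - F v` (`Finset.sum_range_succ`, `Finset.sum_range_succ'`), which is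
in `[-1, 1]` (`Pk_nonneg`, `Pk_le_const`). Two such terms.

`local_ineq`. PROOF. Let `x u = Am s u`, `y u = Ap s u`. Apply `hc.ineq v` to `f₁ u = (x u + y u) / 2` and
to `f₂ u = y u - x u`, and add the first and 1/12 times the second. Left side: `κ ∑ w v u *
(((x u - x v + (y u - y v)) / 2)^2 + ((y u - y v) - (x u - x v))^2 / 12) = κ gq` by `qf_split`. The tensor
terms give `∑ φ * av (x q.1) (y q.1) (x q.2) (y q.2)` by `av_split`. The Laplacian terms: with
`a = ∑ w v u * (x u - x v)`, `b = ∑ w v u * (y u - y v)` they are `C * (((a + b) / 2)^2 + (b - a)^2 / 12)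
= C * qf a b ≤ C * (2 * dg v)^2` by `qf_split`, `qf_le`, `lap_bound` (`Ψ = ltI s`, `leI s`). -/

open MulAction LGap

namespace ZUK

variable {H V X : Type*} [Group H] [MulAction H V] {w : V → V → ℝ} {φ : V → V → V → ℝ}

theorem lap_bound (hw : Gr H w) (hd : ∀ v, 0 < dg hw v) (o : Ty H V) (p : V → X) (m n : ℕ)
    {Ψ : X → ℝ} (h0 : ∀ s, 0 ≤ Ψ s) (h1 : ∀ s, Ψ s ≤ 1) (v : V) :
    |∑ u ∈ nb hw v, w v u * (J2 hw o p m n Ψ u - J2 hw o p m n Ψ v)| ≤ 2 * dg hw v := by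
  have hd0 := (hd v).ne'
  have hF0 : ∀ u, 0 ≤ ch o u * Ψ (p u) := fun u => mul_nonneg (ch_nonneg o u) (h0 _)
  have hF1 : ∀ u, ch o u * Ψ (p u) ≤ 1 := fun u =>
    mul_le_one₀ (ch_le_one o u) (h0 _) (h1 _)
  have hJ : ∀ k : ℕ, |(∑ u ∈ nb hw v, w v u * J hw o p k Ψ u) - dg hw v * J hw o p k Ψ v| ≤
      dg hw v := by
    intro k
    have e1 : (∑ u ∈ nb hw v, w v u * J hw o p k Ψ u) =
        dg hw v * ∑ j ∈ Finset.range k, Pk hw (j + 1) (fun u => ch o u * Ψ (p u)) v := by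
      have e2 : ∀ j, dg hw v * Pk hw (j + 1) (fun u => ch o u * Ψ (p u)) v =
          ∑ u ∈ nb hw v, w v u * Pk hw j (fun u => ch o u * Ψ (p u)) u := by
        intro j
        rw [Pk_succ_apply, mul_div_cancel₀ _ hd0]
      rw [Finset.mul_sum, Finset.sum_congr rfl fun j _ => e2 j, Finset.sum_comm]
      refine Finset.sum_congr rfl fun u _ => ?_
      rw [J, Finset.mul_sum]
    have e3 : (∑ j ∈ Finset.range k, Pk hw (j + 1) (fun u => ch o u * Ψ (p u)) v) -
        J hw o p k Ψ v = Pk hw k (fun u => ch o u * Ψ (p u)) v - ch o v * Ψ (p v) := by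
      rw [J, ← Finset.sum_sub_distrib,
        Finset.sum_range_sub (fun j => Pk hw j (fun u => ch o u * Ψ (p u)) v), Pk_zero]
    rw [e1, ← mul_sub, e3, abs_mul, abs_of_pos (hd v)]
    have b1 : 0 ≤ Pk hw k (fun u => ch o u * Ψ (p u)) v := Pk_nonneg hw k hF0 v
    have b2 : Pk hw k (fun u => ch o u * Ψ (p u)) v ≤ 1 := Pk_le_const hw hd k hF1 v
    have b3 := hF0 v
    have b4 := hF1 v
    have b5 : |Pk hw k (fun u => ch o u * Ψ (p u)) v - ch o v * Ψ (p v)| ≤ 1 := by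
      rw [abs_le]
      constructor <;> linarith
    calc dg hw v * |Pk hw k (fun u => ch o u * Ψ (p u)) v - ch o v * Ψ (p v)|
        ≤ dg hw v * 1 := mul_le_mul_of_nonneg_left b5 (hd v).le
      _ = dg hw v := mul_one _
  have e4 : ∑ u ∈ nb hw v, w v u * (J2 hw o p m n Ψ u - J2 hw o p m n Ψ v) =
      ((∑ u ∈ nb hw v, w v u * J hw o p m Ψ u) - dg hw v * J hw o p m Ψ v) +
      ((∑ u ∈ nb hw v, w v u * J hw o p n Ψ u) - dg hw v * J hw o p n Ψ v) := by
    have e5 : dg hw v = ∑ u ∈ nb hw v, w v u := rfl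
    rw [e5, Finset.sum_mul, Finset.sum_mul, ← Finset.sum_sub_distrib, ← Finset.sum_sub_distrib,
      ← Finset.sum_add_distrib]
    refine Finset.sum_congr rfl fun u _ => ?_
    unfold J2
    ring
  rw [e4]
  calc _ ≤ _ := abs_add_le _ _
    _ ≤ dg hw v + dg hw v := add_le_add (hJ m) (hJ n)
    _ = 2 * dg hw v := by ring

theorem local_ineq [LinearOrder X] (hw : Gr H w) (hφ : Tn H φ) (hd : ∀ v, 0 < dg hw v)
    {κ C : ℝ} (hc : Ct hw hφ κ C) (o : Ty H V) (p : V → X) (m n : ℕ) (s : X) (v : V) :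
    κ * gq hw o p m n s v ≤ 4 * C * dg hw v ^ 2 + ∑ q ∈ pq hφ v, φ v q.1 q.2 *
      av (Am hw o p m n s q.1) (Ap hw o p m n s q.1) (Am hw o p m n s q.2) (Ap hw o p m n s q.2) := by
  have h1 := hc.ineq v (fun u => (Am hw o p m n s u + Ap hw o p m n s u) / 2)
  have h2 := hc.ineq v (fun u => Ap hw o p m n s u - Am hw o p m n s u)
  set a := ∑ u ∈ nb hw v, w v u * (Am hw o p m n s u - Am hw o p m n s v) with ha
  set b := ∑ u ∈ nb hw v, w v u * (Ap hw o p m n s u - Ap hw o p m n s v) with hb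
  have ea : |a| ≤ 2 * dg hw v := lap_bound hw hd o p m n (Ψ := ltI s)
    (fun t => by unfold ltI; split_ifs <;> norm_num)
    (fun t => by unfold ltI; split_ifs <;> norm_num) v
  have eb : |b| ≤ 2 * dg hw v := lap_bound hw hd o p m n (Ψ := leI s)
    (fun t => by unfold leI; split_ifs <;> norm_num)
    (fun t => by unfold leI; split_ifs <;> norm_num) v
  have hq : qf a b ≤ (2 * dg hw v) ^ 2 := qf_le ea eb
  have e1 : ∑ u ∈ nb hw v, w v u * ((Am hw o p m n s u + Ap hw o p m n s u) / 2 -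
      (Am hw o p m n s v + Ap hw o p m n s v) / 2) = (a + b) / 2 := by
    rw [ha, hb, ← Finset.sum_add_distrib, Finset.sum_div]
    refine Finset.sum_congr rfl fun u _ => ?_
    ring
  have e2 : ∑ u ∈ nb hw v, w v u * (Ap hw o p m n s u - Am hw o p m n s u -
      (Ap hw o p m n s v - Am hw o p m n s v)) = b - a := by
    rw [ha, hb, ← Finset.sum_sub_distrib]
    refine Finset.sum_congr rfl fun u _ => ?_
    ring
  have e3 : gq hw o p m n s v =
      (∑ u ∈ nb hw v, w v u * ((Am hw o p m n s u + Ap hw o p m n s u) / 2 -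
        (Am hw o p m n s v + Ap hw o p m n s v) / 2) ^ 2) +
      (∑ u ∈ nb hw v, w v u * (Ap hw o p m n s u - Am hw o p m n s u -
        (Ap hw o p m n s v - Am hw o p m n s v)) ^ 2) / 12 := by
    unfold gq
    rw [Finset.sum_div, ← Finset.sum_add_distrib]
    refine Finset.sum_congr rfl fun u _ => ?_
    rw [qf_split]
    ring
  have e4 : ∑ q ∈ pq hφ v, φ v q.1 q.2 *
      av (Am hw o p m n s q.1) (Ap hw o p m n s q.1) (Am hw o p m n s q.2)
        (Ap hw o p m n s q.2) =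
      (∑ q ∈ pq hφ v, φ v q.1 q.2 * ((Am hw o p m n s q.1 + Ap hw o p m n s q.1) / 2 *
        ((Am hw o p m n s q.2 + Ap hw o p m n s q.2) / 2))) +
      (∑ q ∈ pq hφ v, φ v q.1 q.2 * ((Ap hw o p m n s q.1 - Am hw o p m n s q.1) *
        (Ap hw o p m n s q.2 - Am hw o p m n s q.2))) / 12 := by
    rw [Finset.sum_div, ← Finset.sum_add_distrib]
    refine Finset.sum_congr rfl fun q _ => ?_
    rw [av_split]
    ring
  have e5 : qf a b = ((a + b) / 2) ^ 2 + (b - a) ^ 2 / 12 := qf_split a b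
  simp only [e1] at h1
  simp only [e2] at h2
  rw [e3, e4]
  have h3 : C * qf a b ≤ C * (2 * dg hw v) ^ 2 := mul_le_mul_of_nonneg_left hq hc.cnn
  rw [e5] at h3
  nlinarith [h1, h2, h3]

end ZUK
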