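import Pool.Agent.ZUK.Te3
import Pool.Agent.ZUK.Loc
import Pool.Agent.ZUK.Gbd

/-! # Module Enb (difficulty 3): the energy bound

PROOF. Take `π, B` from `total_bound`; then `|Tt m n v - (m + n) π| ≤ 2 B` for all `m n v`.
For each `v = rep o'` integrate `local_ineq` (`J2_mono`, `J2_cmul`, `J2_addf`, `J2_sumf`):
`κ * J2 (gq · v) v ≤ 4 C dg v ^ 2 * Tt v + ∑_{q ∈ pq v} φ v q.1 q.2 * J2 (av ...) v`. Multiply by `cw o'` and
sum: `κ * E2 ≤ ∑ cw o' * (4 C dg^2 (m + n)) + T3 Φ` (`Tt_le`), and by `tensor_exact`, `tensor_bound`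
`T3 Φ ≤ (1/3) (m + n) (4 (2B)^2 S)`, `S = ∑ cw ∑ |φ|`. So
`K = (∑ cw o' * 4 C dg (rep o')^2 + (16/3) B^2 S) / κ`. -/

open MulAction LGap

namespace ZUK

variable {H V X : Type*} [Group H] [MulAction H V] {w : V → V → ℝ} {φ : V → V → V → ℝ}
  [Fintype (Ty H V)] [LinearOrder X] [MulAction H X]

theorem energy_bound (hw : Gr H w) (hφ : Tn H φ) (hd : ∀ v, 0 < dg hw v)
    (hst : ∀ v : V, Finite (MulAction.stabilizer H v))
    (hconn : ∀ v u : V, Relation.ReflTransGen (fun a b => w a b ≠ 0) v u)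
    {κ C : ℝ} (hc : Ct hw hφ κ C) (o : Ty H V) {p : V → X}
    (hp : ∀ (h : H) v, p (h • v) = h • p v) (hm : ∀ h : H, StrictMono (fun x : X => h • x)) :
    ∃ K : ℝ, 0 ≤ K ∧ ∀ m n : ℕ, E2 hw o p m n ≤ K * (m + n) := by
  obtain ⟨π, B, _, hB, hJ⟩ := total_bound hw hd hst hconn o p
  set S : ℝ := ∑ o' : Ty H V, cw o' * ∑ q ∈ pq hφ (rep o'), |φ (rep o') q.1 q.2| with hS
  set A : ℝ := ∑ o' : Ty H V, cw o' * (4 * C * dg hw (rep o') ^ 2) with hA
  have hκ := hc.kpos
  have hC := hc.cnn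
  have hS0 : 0 ≤ S := Finset.sum_nonneg fun o' _ =>
    mul_nonneg (cw_pos hst o').le (Finset.sum_nonneg fun q _ => abs_nonneg _)
  have hA0 : 0 ≤ A := Finset.sum_nonneg fun o' _ =>
    mul_nonneg (cw_pos hst o').le (mul_nonneg (mul_nonneg (by norm_num) hC) (sq_nonneg _))
  refine ⟨(A + 16 / 3 * B ^ 2 * S) / κ, div_nonneg (by positivity) hκ.le, fun m n => ?_⟩
  have hT : ∀ v, |Tt hw o p m n v - ((m : ℝ) + n) * π| ≤ 2 * B := by
    intro v
    have h1 := hJ m v
    have h2 := hJ n v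
    have h3 : Tt hw o p m n v - ((m : ℝ) + n) * π =
        (J hw o p m (fun _ => 1) v - m * π) + (J hw o p n (fun _ => 1) v - n * π) := by
      unfold Tt J2
      ring
    rw [h3]
    calc _ ≤ _ := abs_add_le _ _
      _ ≤ 2 * B := by linarith
  have hb := tensor_bound hw hφ hd hst hc.marg o p m n hT
  rw [← hS] at hb
  have he := tensor_exact hw hφ hst o hp hm m n
  set Φ : V → V → V → ℝ := fun v x y => J2 hw o p m n (fun s => av (Am hw o p m n s x)
    (Ap hw o p m n s x) (Am hw o p m n s y) (Ap hw o p m n s y)) v with hΦ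
  have hloc : ∀ v, κ * J2 hw o p m n (fun s => gq hw o p m n s v) v ≤
      4 * C * dg hw v ^ 2 * Tt hw o p m n v + ∑ q ∈ pq hφ v, φ v q.1 q.2 * Φ v q.1 q.2 := by
    intro v
    have h1 := J2_mono hw o p m n (fun s => local_ineq hw hφ hd hc o p m n s v) v
    rw [J2_cmul] at h1
    have h2 : J2 hw o p m n (fun s => 4 * C * dg hw v ^ 2 + ∑ q ∈ pq hφ v, φ v q.1 q.2 *
        av (Am hw o p m n s q.1) (Ap hw o p m n s q.1) (Am hw o p m n s q.2)
          (Ap hw o p m n s q.2)) v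
        = 4 * C * dg hw v ^ 2 * Tt hw o p m n v +
          ∑ q ∈ pq hφ v, φ v q.1 q.2 * Φ v q.1 q.2 := by
      rw [J2_addf hw o p m n (fun _ => 4 * C * dg hw v ^ 2)
        (fun s => ∑ q ∈ pq hφ v, φ v q.1 q.2 *
        av (Am hw o p m n s q.1) (Ap hw o p m n s q.1) (Am hw o p m n s q.2)
          (Ap hw o p m n s q.2)) v]
      congr 1
      · have h3 := J2_cmul hw o p m n (4 * C * dg hw v ^ 2) (fun _ => 1) v
        simp only [mul_one] at h3
        exact h3
      · rw [J2_sumf]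
        refine Finset.sum_congr rfl fun q _ => ?_
        rw [J2_cmul]
    rw [h2] at h1
    exact h1
  have hsum : κ * E2 hw o p m n ≤ A * (m + n) + T3 hφ Φ := by
    unfold E2 T3
    rw [Finset.mul_sum, hA, Finset.sum_mul, ← Finset.sum_add_distrib]
    refine Finset.sum_le_sum fun o' _ => ?_
    have h1 := hloc (rep o')
    have h2 := Tt_le hw hd o p m n (rep o')
    have hcw := (cw_pos hst o').le
    have h3 : 4 * C * dg hw (rep o') ^ 2 * Tt hw o p m n (rep o') ≤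
        4 * C * dg hw (rep o') ^ 2 * (m + n) :=
      mul_le_mul_of_nonneg_left h2 (mul_nonneg (mul_nonneg (by norm_num) hC) (sq_nonneg _))
    have h4 := mul_le_mul_of_nonneg_left (h1.trans (add_le_add_left h3 _)) hcw
    calc κ * (cw o' * J2 hw o p m n (fun s => gq hw o p m n s (rep o')) (rep o'))
        = cw o' * (κ * J2 hw o p m n (fun s => gq hw o p m n s (rep o')) (rep o')) := by ring
      _ ≤ _ := h4
      _ = _ := by ring
  have h5 : 3 * T3 hφ Φ ≤ (m + n) * (4 * (2 * B) ^ 2 * S) := by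
    rw [he]
    exact (le_abs_self _).trans hb
  have h6 : κ * E2 hw o p m n ≤ (A + 16 / 3 * B ^ 2 * S) * (m + n) := by
    nlinarith [h5, hsum]
  calc E2 hw o p m n = (κ * E2 hw o p m n) / κ := by field_simp
    _ ≤ ((A + 16 / 3 * B ^ 2 * S) * (m + n)) / κ := div_le_div_of_nonneg_right h6 hκ.le
    _ = _ := by ring

end ZUK
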