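import Pool.Agent.ZUK.Tel
import Pool.Agent.ZUK.Dep

/-! # Module Exa (difficulty 3): exactness

For any three vertices `v, x, y` (no assumption):
`∫ a_x a_y dν_v + ∫ a_v a_y dν_x + ∫ a_v a_x dν_y = A_v A_x A_y`.

PROOF. Take `T` from `J2_rep` for `F = {v, x, y}`. For `z ∈ F` let `ν z s = J2 hw o p m n (eqI s) z`.
Then for `z ∈ F` and all `s`:
`Ap s z = J2 (leI s) z = ∑_{t ∈ T} leI s t * ν z t = ∑_{t ∈ T.filter (· ≤ s)} ν z t`,
`Am s z = ∑_{t ∈ T.filter (· < s)} ν z t`, `Tt z = ∑_{t ∈ T} ν z t`, and each of the three terms on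
the left is `∑_{s ∈ T} av (...) * ν _ s`. So the claim is `tele T (ν v) (ν x) (ν y)`. -/

open MulAction LGap

namespace ZUK

variable {H V X : Type*} [Group H] [MulAction H V] {w : V → V → ℝ} [LinearOrder X]

theorem exact3 (hw : Gr H w) (o : Ty H V) (p : V → X) (m n : ℕ) (v x y : V) :
    J2 hw o p m n (fun s => av (Am hw o p m n s x) (Ap hw o p m n s x)
        (Am hw o p m n s y) (Ap hw o p m n s y)) v
      + J2 hw o p m n (fun s => av (Am hw o p m n s v) (Ap hw o p m n s v)
        (Am hw o p m n s y) (Ap hw o p m n s y)) x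
      + J2 hw o p m n (fun s => av (Am hw o p m n s v) (Ap hw o p m n s v)
        (Am hw o p m n s x) (Ap hw o p m n s x)) y
      = Tt hw o p m n v * Tt hw o p m n x * Tt hw o p m n y := by
  classical
  obtain ⟨T, hT⟩ := J2_rep hw o p m n ({v, x, y} : Finset V)
  have hv : v ∈ ({v, x, y} : Finset V) := by simp
  have hx : x ∈ ({v, x, y} : Finset V) := by simp
  have hy : y ∈ ({v, x, y} : Finset V) := by simp
  have hAp : ∀ z ∈ ({v, x, y} : Finset V), ∀ s : X, Ap hw o p m n s z
      = ∑ t ∈ T.filter (fun t => t ≤ s), J2 hw o p m n (eqI t) z := by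
    intro z hz s
    unfold Ap
    rw [hT z hz, Finset.sum_filter]
    apply Finset.sum_congr rfl
    intro t _
    unfold leI
    split_ifs
    · rw [one_mul]
    · rw [zero_mul]
  have hAm : ∀ z ∈ ({v, x, y} : Finset V), ∀ s : X, Am hw o p m n s z
      = ∑ t ∈ T.filter (fun t => t < s), J2 hw o p m n (eqI t) z := by
    intro z hz s
    unfold Am
    rw [hT z hz, Finset.sum_filter]
    apply Finset.sum_congr rfl
    intro t _
    unfold ltI
    split_ifs
    · rw [one_mul]
    · rw [zero_mul]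
  have hTt : ∀ z ∈ ({v, x, y} : Finset V), Tt hw o p m n z
      = ∑ t ∈ T, J2 hw o p m n (eqI t) z := by
    intro z hz
    unfold Tt
    rw [hT z hz]
    apply Finset.sum_congr rfl
    intro t _
    rw [one_mul]
  have key := tele T (fun s => J2 hw o p m n (eqI s) v) (fun s => J2 hw o p m n (eqI s) x)
    (fun s => J2 hw o p m n (eqI s) y)
  rw [hT v hv, hT x hx, hT y hy, hTt v hv, hTt x hx, hTt y hy, ← key,
    Finset.sum_add_distrib, Finset.sum_add_distrib]
  congr 1
  · congr 1
    · apply Finset.sum_congr rfl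
      intro s _
      rw [hAm x hx, hAm y hy, hAp x hx, hAp y hy, mul_comm]
    · apply Finset.sum_congr rfl
      intro s _
      rw [hAm v hv, hAm y hy, hAp v hv, hAp y hy, mul_comm]
  · apply Finset.sum_congr rfl
    intro s _
    rw [hAm v hv, hAm x hx, hAp v hv, hAp x hx, mul_comm]

end ZUK
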