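import Pool.Agent.ZUK.Bas

/-! # Module Fub (difficulty 2): powers of the Markov operator in two variables commute

PROOF. Induction on `k`, generalizing `a`. `k = 0`: `Pk_zero`, both sides are `Pk j (Φ a) b`.
`k + 1`: by `Pk_succ_apply` the left side is
`(∑_{u ∈ nb a} w a u * Pk k (fun x => Pk j (fun z => Φ x z) b) u) / dg a`, by the induction hypothesis
`= (∑_{u ∈ nb a} w a u * Pk j (fun z => Pk k (fun x => Φ x z) u) b) / dg a`, and by linearity of `Pk j`
(`Pk_sumf`, `Pk_cmul`) this is `Pk j (fun z => (∑_u w a u * Pk k (fun x => Φ x z) u) / dg a) b`. -/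

open MulAction LGap

namespace ZUK

variable {H V X : Type*} [Group H] [MulAction H V] {w : V → V → ℝ}

theorem Pk_comm (hw : Gr H w) (k j : ℕ) (Φ : V → V → ℝ) (a b : V) :
    Pk hw k (fun x => Pk hw j (fun z => Φ x z) b) a
      = Pk hw j (fun z => Pk hw k (fun x => Φ x z) a) b := by
  induction k generalizing a with
  | zero => simp only [Pk_zero]
  | succ k ih =>
    rw [Pk_succ_apply, Finset.sum_congr rfl (fun u _ => by rw [ih u])]
    have h : (fun z => Pk hw (k + 1) (fun x => Φ x z) a) =
        fun z => (dg hw a)⁻¹ * ∑ u ∈ nb hw a, w a u * Pk hw k (fun x => Φ x z) u := by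
      funext z
      rw [Pk_succ_apply, div_eq_inv_mul]
    rw [h, Pk_cmul, Pk_sumf, div_eq_inv_mul]
    congr 1
    exact Finset.sum_congr rfl (fun u _ => by rw [Pk_cmul])

end ZUK
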