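import Pool.Agent.ZUK.Tra

/-! # Module Rev (difficulty 3): the energy seen from the base vertex

PROOF. Unfold `E2`, `J2`, `J`. For each `k`, with `Φ v u = gq m n (p u) v / dg v` (invariant: `gq_smul`,
`hp`, `dg_smul`; `dg v ≠ 0`):
`Pk k (fun u => ch o u * gq (p u) v) v = dg v * Pk k (fun u => ch o u * Φ v u) v` (`Pk_cmul`), and
`transport_half` gives `∑_{o'} cw o' * (dg v * Pk k (fun u => ch o u * Φ v u) v) =
cw o * (dg r * Pk k (fun u => Φ u r) r)` (`v = rep o'`, `r = rep o`), `Φ u r = gq (p r) u / dg u`. Sum over `k`. -/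

open MulAction LGap

namespace ZUK

variable {H V X : Type*} [Group H] [MulAction H V] {w : V → V → ℝ}
  [Fintype (Ty H V)] [LinearOrder X] [MulAction H X]

theorem Rev_key (hw : Gr H w) (hd : ∀ v, 0 < dg hw v)
    (hst : ∀ v : V, Finite (MulAction.stabilizer H v)) (o : Ty H V) {p : V → X}
    (hp : ∀ (h : H) v, p (h • v) = h • p v) (hm : ∀ h : H, StrictMono (fun x : X => h • x))
    (m n k : ℕ) :
    ∑ o' : Ty H V, cw o' * Pk hw k (fun u => ch o u * gq hw o p m n (p u) (rep o')) (rep o')
      = cw o * dg hw (rep o) *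
        Pk hw k (fun u => gq hw o p m n (p (rep o)) u / dg hw u) (rep o) := by
  have h := transport_half hw hd hst k o (fun v u => gq hw o p m n (p u) v / dg hw v)
    (by
      intro h u v
      rw [hp, gq_smul hw o hp hm, dg_smul])
  rw [← mul_assoc] at h
  rw [← h]
  apply Finset.sum_congr rfl
  intro o' _
  rw [← Pk_cmul hw k (dg hw (rep o'))]
  congr 1
  apply Pk_congr
  intro u
  have := (hd (rep o')).ne'
  field_simp

theorem E2_rev (hw : Gr H w) (hd : ∀ v, 0 < dg hw v)
    (hst : ∀ v : V, Finite (MulAction.stabilizer H v)) (o : Ty H V) {p : V → X}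
    (hp : ∀ (h : H) v, p (h • v) = h • p v) (hm : ∀ h : H, StrictMono (fun x : X => h • x))
    (m n : ℕ) :
    E2 hw o p m n = cw o * dg hw (rep o) *
      (∑ k ∈ Finset.range m, Pk hw k (fun u => gq hw o p m n (p (rep o)) u / dg hw u) (rep o)
      + ∑ k ∈ Finset.range n, Pk hw k (fun u => gq hw o p m n (p (rep o)) u / dg hw u) (rep o)) := by
  unfold E2 J2 J
  simp only [mul_add, Finset.mul_sum, Finset.sum_add_distrib]
  rw [Finset.sum_comm, Finset.sum_comm (s := Finset.univ) (t := Finset.range n)]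
  congr 1
  · exact Finset.sum_congr rfl fun k _ => Rev_key hw hd hst o hp hm m n k
  · exact Finset.sum_congr rfl fun k _ => Rev_key hw hd hst o hp hm m n k

end ZUK
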