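import Pool.Agent.ZUK.Enb
import Pool.Agent.ZUK.Rev

/-! # Module Gra (difficulty 4): the gradient of the rank functions

`grd_le`: if `|J m 1 v - t| ≤ B` for all `v`, then for `s`, `u`, and every `n`
`grd m s u ≤ 16 * (gq m n s u / dg u + gq 0 n s u / dg u) + 8 * B ^ 2`.
PROOF. `J m Ψ u = J2 m n Ψ u - J2 0 n Ψ u` (`J 0 = 0`). `sg s t = ltI s t + leI s t - 1`, so for a neighbour `u'`
of `u`: `bb m s u' - bb m s u = (x + y) - z` with
`x = (Am m n s u' - Am m n s u) - (Am 0 n s u' - Am 0 n s u)`, the same `y` for `Ap`, and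
`z = J m 1 u' - J m 1 u`, `|z| ≤ 2 B`. `(x + y - z)^2 ≤ 2 (x + y)^2 + 2 z^2 ≤ 8 qf x y + 8 B^2`
(`sq_add_le`) and `qf x y ≤ 2 qf (..m n..) + 2 qf (..0 n..)` (`qf_sub_le`). Multiply by `w u u'`, sum over
`u'`, divide by `dg u` (`∑ w u u' = dg u`).

`grad_bound`. PROOF. Let `π, B` be as in `total_bound`, `K₀` as in `energy_bound`, `r = rep o`,
`c₁ = cw o * dg r > 0`, `s = p r`. For `m ≤ n`: by `E2_rev` (the terms are nonnegative)
`c₁ * ∑_{k<n} Pk k (gq m n s / dg) r ≤ E2 m n ≤ K₀ (m + n) ≤ 2 K₀ n` and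
`c₁ * ∑_{k<n} Pk k (gq 0 n s / dg) r ≤ E2 0 n ≤ K₀ n`. By `grd_le`, `Pk_mono`, linearity, `Pk_const`,
`∑_{k<n} Pk k (grd m s) r ≤ 16 * (2 K₀ n + K₀ n) / c₁ + 8 B^2 n`. So `K = 48 K₀ / c₁ + 8 B^2`. -/

open MulAction LGap

namespace ZUK

variable {H V X : Type*} [Group H] [MulAction H V] {w : V → V → ℝ} {φ : V → V → V → ℝ}
  [LinearOrder X]

lemma Gra_J_eq (hw : Gr H w) (o : Ty H V) (p : V → X) (m n : ℕ) (Ψ : X → ℝ) (v : V) :
    J hw o p m Ψ v = J2 hw o p m n Ψ v - J2 hw o p 0 n Ψ v := by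
  unfold J2
  have h0 : J hw o p 0 Ψ v = 0 := by
    unfold J
    simp
  rw [h0]
  ring

lemma Gra_bb (hw : Gr H w) (o : Ty H V) (p : V → X) (m n : ℕ) (s : X) (v : V) :
    bb hw o p m s v = (Ap hw o p m n s v - Ap hw o p 0 n s v)
      + (Am hw o p m n s v - Am hw o p 0 n s v) - J hw o p m (fun _ => 1) v := by
  have h1 : bb hw o p m s v = J hw o p m (leI s) v + J hw o p m (ltI s) v
      - J hw o p m (fun _ => 1) v := by
    unfold bb
    have h2 : (sg s : X → ℝ) = fun t => (leI s t + ltI s t) - 1 := rfl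
    rw [h2, J_sub, J_addf]
  rw [h1, Gra_J_eq hw o p m n (leI s), Gra_J_eq hw o p m n (ltI s)]
  rfl

lemma Gra_gq_nonneg (hw : Gr H w) (o : Ty H V) (p : V → X) (m n : ℕ) (s : X) (v : V) :
    0 ≤ gq hw o p m n s v := by
  unfold gq
  exact Finset.sum_nonneg fun u _ => mul_nonneg (hw.nonneg v u) (qf_nonneg _ _)

theorem grd_le (hw : Gr H w) (hd : ∀ v, 0 < dg hw v) (o : Ty H V) (p : V → X) (m n : ℕ)
    {t B : ℝ} (hB : ∀ v, |J hw o p m (fun _ => 1) v - t| ≤ B) (s : X) (u : V) :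
    grd hw o p m s u ≤ 16 * (gq hw o p m n s u / dg hw u + gq hw o p 0 n s u / dg hw u)
      + 8 * B ^ 2 := by
  have hdu := hd u
  unfold grd
  rw [div_le_iff₀ hdu]
  have h1 : ∀ u' ∈ nb hw u, w u u' * (bb hw o p m s u' - bb hw o p m s u) ^ 2 ≤
      w u u' * (16 * qf (Am hw o p m n s u' - Am hw o p m n s u)
          (Ap hw o p m n s u' - Ap hw o p m n s u)
        + 16 * qf (Am hw o p 0 n s u' - Am hw o p 0 n s u)
          (Ap hw o p 0 n s u' - Ap hw o p 0 n s u) + 8 * B ^ 2) := by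
    intro u' _
    refine mul_le_mul_of_nonneg_left ?_ (hw.nonneg u u')
    rw [Gra_bb hw o p m n s u', Gra_bb hw o p m n s u]
    have e1 := hB u'
    have e2 := hB u
    generalize J hw o p m (fun _ => 1) u' = j1 at *
    generalize J hw o p m (fun _ => 1) u = j2 at *
    have hz : (j1 - j2) ^ 2 ≤ 4 * B ^ 2 := by
      have h2 : |j1 - j2| ≤ 2 * B := by
        rw [abs_le] at e1 e2 ⊢
        constructor <;> linarith [e1.1, e1.2, e2.1, e2.2]
      have h3 : (j1 - j2) ^ 2 ≤ (2 * B) ^ 2 := by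
        rw [← sq_abs]
        exact pow_le_pow_left₀ (abs_nonneg _) h2 2
      linarith [h3, (by ring : (2 * B) ^ 2 = 4 * B ^ 2)]
    have hq := qf_sub_le (Am hw o p m n s u' - Am hw o p m n s u)
      (Ap hw o p m n s u' - Ap hw o p m n s u) (Am hw o p 0 n s u' - Am hw o p 0 n s u)
      (Ap hw o p 0 n s u' - Ap hw o p 0 n s u)
    have hs := sq_add_le (Am hw o p m n s u' - Am hw o p m n s u -
        (Am hw o p 0 n s u' - Am hw o p 0 n s u))
      (Ap hw o p m n s u' - Ap hw o p m n s u - (Ap hw o p 0 n s u' - Ap hw o p 0 n s u))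
    set xx : ℝ := Am hw o p m n s u' - Am hw o p m n s u -
        (Am hw o p 0 n s u' - Am hw o p 0 n s u) with hxx
    set yy : ℝ := Ap hw o p m n s u' - Ap hw o p m n s u -
        (Ap hw o p 0 n s u' - Ap hw o p 0 n s u) with hyy
    have e3 : Ap hw o p m n s u' - Ap hw o p 0 n s u' + (Am hw o p m n s u' - Am hw o p 0 n s u')
        - j1 - (Ap hw o p m n s u - Ap hw o p 0 n s u
          + (Am hw o p m n s u - Am hw o p 0 n s u) - j2) = (xx + yy) - (j1 - j2) := by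
      rw [hxx, hyy]
      ring
    rw [e3]
    have h4 : (xx + yy - (j1 - j2)) ^ 2 ≤ 2 * (xx + yy) ^ 2 + 2 * (j1 - j2) ^ 2 := by
      nlinarith [sq_nonneg (xx + yy + (j1 - j2))]
    linarith
  refine (Finset.sum_le_sum h1).trans (le_of_eq ?_)
  have h5 : ∑ u' ∈ nb hw u, w u u' = dg hw u := rfl
  have h6 : ∀ u' ∈ nb hw u, w u u' * (16 * qf (Am hw o p m n s u' - Am hw o p m n s u)
          (Ap hw o p m n s u' - Ap hw o p m n s u)
        + 16 * qf (Am hw o p 0 n s u' - Am hw o p 0 n s u)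
          (Ap hw o p 0 n s u' - Ap hw o p 0 n s u) + 8 * B ^ 2) =
      16 * (w u u' * qf (Am hw o p m n s u' - Am hw o p m n s u)
          (Ap hw o p m n s u' - Ap hw o p m n s u))
      + 16 * (w u u' * qf (Am hw o p 0 n s u' - Am hw o p 0 n s u)
          (Ap hw o p 0 n s u' - Ap hw o p 0 n s u)) + 8 * B ^ 2 * w u u' := by
    intro u' _
    ring
  rw [Finset.sum_congr rfl h6, Finset.sum_add_distrib, Finset.sum_add_distrib, ← Finset.mul_sum,
    ← Finset.mul_sum, ← Finset.mul_sum, h5]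
  have h7 : ∀ k : ℕ, ∑ u' ∈ nb hw u, w u u' * qf (Am hw o p k n s u' - Am hw o p k n s u)
          (Ap hw o p k n s u' - Ap hw o p k n s u) = gq hw o p k n s u := fun k => rfl
  rw [h7, h7]
  have := hdu.ne'
  field_simp

theorem grad_bound [Fintype (Ty H V)] [MulAction H X]
    (hw : Gr H w) (hφ : Tn H φ) (hd : ∀ v, 0 < dg hw v)
    (hst : ∀ v : V, Finite (MulAction.stabilizer H v))
    (hconn : ∀ v u : V, Relation.ReflTransGen (fun a b => w a b ≠ 0) v u)
    {κ C : ℝ} (hc : Ct hw hφ κ C) (o : Ty H V) {p : V → X}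
    (hp : ∀ (h : H) v, p (h • v) = h • p v) (hm : ∀ h : H, StrictMono (fun x : X => h • x)) :
    ∃ K : ℝ, 0 ≤ K ∧ ∀ m n : ℕ, m ≤ n →
      ∑ k ∈ Finset.range n, Pk hw k (grd hw o p m (p (rep o))) (rep o) ≤ K * n := by
  obtain ⟨π, B, hπ, hB0, hB⟩ := total_bound hw hd hst hconn o p
  obtain ⟨K₀, hK₀, hE⟩ := energy_bound hw hφ hd hst hconn hc o hp hm
  set r : V := rep o with hr
  have hc₁ : 0 < cw o * dg hw r := mul_pos (cw_pos hst o) (hd r)
  set c₁ : ℝ := cw o * dg hw r with hc₁d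
  refine ⟨48 * K₀ / c₁ + 8 * B ^ 2, by positivity, ?_⟩
  intro m n hmn
  have hmn' : (m : ℝ) ≤ n := by exact_mod_cast hmn
  have hpos : ∀ (a b k : ℕ), 0 ≤ Pk hw k (fun u => gq hw o p a b (p r) u / dg hw u) r := by
    intro a b k
    exact Pk_nonneg hw k (fun u => div_nonneg (Gra_gq_nonneg hw o p a b _ u) (dg_nonneg hw u)) r
  have hsum : ∀ a : ℕ, ∑ k ∈ Finset.range n, Pk hw k (fun u => gq hw o p a n (p r) u / dg hw u) r
      ≤ K₀ * (a + n) / c₁ := by
    intro a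
    rw [le_div_iff₀ hc₁]
    have h1 := hE a n
    rw [E2_rev hw hd hst o hp hm a n] at h1
    have h2 : 0 ≤ ∑ k ∈ Finset.range a, Pk hw k (fun u => gq hw o p a n (p r) u / dg hw u) r :=
      Finset.sum_nonneg fun k _ => hpos a n k
    have h3 : cw o * dg hw r * (∑ k ∈ Finset.range n,
        Pk hw k (fun u => gq hw o p a n (p r) u / dg hw u) r) ≤ K₀ * (a + n) := by
      refine le_trans ?_ h1
      refine mul_le_mul_of_nonneg_left ?_ hc₁.le
      rw [hr] at h2 ⊢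
      linarith
    rw [mul_comm]
    exact h3
  have hk : ∀ k ∈ Finset.range n, Pk hw k (grd hw o p m (p r)) r ≤
      16 * (Pk hw k (fun u => gq hw o p m n (p r) u / dg hw u) r
        + Pk hw k (fun u => gq hw o p 0 n (p r) u / dg hw u) r) + 8 * B ^ 2 := by
    intro k _
    have h1 := Pk_mono hw k (f := grd hw o p m (p r))
      (g := fun u => 16 * (gq hw o p m n (p r) u / dg hw u + gq hw o p 0 n (p r) u / dg hw u)
        + 8 * B ^ 2) (fun u => grd_le hw hd o p m n (fun v => hB m v) (p r) u) r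
    rw [Pk_addf, Pk_cmul, Pk_addf, Pk_const hw hd] at h1
    exact h1
  refine (Finset.sum_le_sum hk).trans ?_
  rw [Finset.sum_add_distrib, ← Finset.mul_sum, Finset.sum_add_distrib, Finset.sum_const,
    Finset.card_range, nsmul_eq_mul]
  have h1 := hsum m
  have h2 := hsum 0
  have h3 : K₀ * (m + n) / c₁ ≤ 2 * (K₀ * n / c₁) := by
    rw [← mul_div_assoc]
    refine div_le_div_of_nonneg_right ?_ hc₁.le
    nlinarith
  have h4 : K₀ * ((0 : ℕ) + n) / c₁ = K₀ * n / c₁ := by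
    rw [Nat.cast_zero, zero_add]
  rw [h4] at h2
  have h5 : (48 * K₀ / c₁ + 8 * B ^ 2) * (n : ℝ) = 48 * (K₀ * n / c₁) + n * (8 * B ^ 2) := by
    ring
  rw [h5]
  linarith

end ZUK
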