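import Pool.Agent.ZUK.Bas

/-! # Module Xpa (difficulty 3): expansion of the second moment

PROOF. Induction on `N`, for all `v`. `N = 0`: both sides are `0`. Step: by `Finset.sum_range_succ'` the
right side for `N + 1` is the term `k = 0`,
`Rk 0 0 v + 2 ∑_{j<N} Rk 0 (j+1) v` with `Rk 0 j v = sv s v * Pk j (sv s) v` (`Pk_zero`), so it is
`sv^2 + 2 sv ∑_{j<N} Pk (j+1) (sv s) v = sv^2 + 2 sv * PL (bb N s) v`
(`bb N s = ∑_{j<N} Pk j (sv s)`, `Pk_succ`, linearity of `PL`), plus the terms `k + 1`: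
`Rk (k+1) 0 v + 2 ∑_{j < N+1-1-(k+1)} Rk (k+1) (j+1) v`, `N + 1 - 1 - (k+1) = N - 1 - k`, and
`Rk (k+1) j v = PL (fun u => Rk k j u) v` (`Pk_succ`); by linearity of `PL` these sum to
`PL (SN N) v` (induction hypothesis). -/

open MulAction LGap

namespace ZUK

variable {H V X : Type*} [Group H] [MulAction H V] {w : V → V → ℝ} [LinearOrder X]

theorem SN_expand (hw : Gr H w) (o : Ty H V) (p : V → X) (s : X) (N : ℕ) (v : V) :
    SN hw o p s N v = ∑ k ∈ Finset.range N, (Rk hw o p s k 0 v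
      + 2 * ∑ j ∈ Finset.range (N - 1 - k), Rk hw o p s k (j + 1) v) := by
  induction N generalizing v with
  | zero => rfl
  | succ N ih =>
    have hP : ∀ (f : V → ℝ) (u : V), PL hw f u = Pk hw 1 f u := by
      intro f u
      rw [Pk_one]
    have hR0 : ∀ j, Rk hw o p s 0 j v = sv o p s v * Pk hw j (sv o p s) v := by
      intro j
      unfold Rk
      rw [Pk_zero]
    have hb : PL hw (bb hw o p N s) v = ∑ j ∈ Finset.range N, Pk hw (j + 1) (sv o p s) v := by
      have h1 : bb hw o p N s = fun u => ∑ j ∈ Finset.range N, Pk hw j (sv o p s) u := rfl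
      rw [h1, hP, Pk_sumf]
      apply Finset.sum_congr rfl
      intro j _
      rw [Pk_one, ← Pk_succ]
    have hRs : ∀ k j, Pk hw 1 (Rk hw o p s k j) v = Rk hw o p s (k + 1) j v := by
      intro k j
      have h1 : Rk hw o p s k j = Pk hw k (fun u => sv o p s u * Pk hw j (sv o p s) u) := rfl
      rw [h1, Pk_one, ← Pk_succ]
      rfl
    have hS : PL hw (SN hw o p s N) v = ∑ k ∈ Finset.range N, (Rk hw o p s (k + 1) 0 v
        + 2 * ∑ j ∈ Finset.range (N - 1 - k), Rk hw o p s (k + 1) (j + 1) v) := by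
      have h1 : SN hw o p s N = fun u => ∑ k ∈ Finset.range N, (Rk hw o p s k 0 u
        + 2 * ∑ j ∈ Finset.range (N - 1 - k), Rk hw o p s k (j + 1) u) := funext ih
      rw [h1, hP, Pk_sumf hw 1 (Finset.range N) (fun k u => Rk hw o p s k 0 u
        + 2 * ∑ j ∈ Finset.range (N - 1 - k), Rk hw o p s k (j + 1) u)]
      apply Finset.sum_congr rfl
      intro k _
      rw [Pk_addf hw 1 (fun u => Rk hw o p s k 0 u)
        (fun u => 2 * ∑ j ∈ Finset.range (N - 1 - k), Rk hw o p s k (j + 1) u),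
        Pk_cmul hw 1 2 (fun u => ∑ j ∈ Finset.range (N - 1 - k), Rk hw o p s k (j + 1) u),
        Pk_sumf hw 1 (Finset.range (N - 1 - k)) (fun j u => Rk hw o p s k (j + 1) u)]
      have h2 : Pk hw 1 (fun u => Rk hw o p s k 0 u) v = Rk hw o p s (k + 1) 0 v := hRs k 0
      rw [h2]
      congr 2
      apply Finset.sum_congr rfl
      intro j _
      exact hRs k (j + 1)
    have hL : SN hw o p s (N + 1) v = sv o p s v ^ 2
        + 2 * sv o p s v * PL hw (bb hw o p N s) v + PL hw (SN hw o p s N) v := rfl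
    rw [hL, hb, hS, Finset.sum_range_succ', hR0 0, Pk_zero]
    have h3 : ∑ k ∈ Finset.range N, (Rk hw o p s (k + 1) 0 v
        + 2 * ∑ j ∈ Finset.range (N - 1 - k), Rk hw o p s (k + 1) (j + 1) v) =
        ∑ k ∈ Finset.range N, (Rk hw o p s (k + 1) 0 v
        + 2 * ∑ j ∈ Finset.range (N + 1 - 1 - (k + 1)), Rk hw o p s (k + 1) (j + 1) v) := by
      apply Finset.sum_congr rfl
      intro k _
      have h4 : N + 1 - 1 - (k + 1) = N - 1 - k := by omega
      rw [h4]
    have h5 : N + 1 - 1 - 0 = N := by omega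
    have h6 : ∑ j ∈ Finset.range N, Rk hw o p s 0 (j + 1) v =
        sv o p s v * ∑ j ∈ Finset.range N, Pk hw (j + 1) (sv o p s) v := by
      rw [Finset.mul_sum]
      apply Finset.sum_congr rfl
      intro j _
      exact hR0 (j + 1)
    rw [h3, h5, h6]
    ring

end ZUK
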