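import Pool.Agent.ZUK.Thr
import Pool.Agent.ZUK.Xpa

/-! # Module Lo1 (difficulty 4): lower bound for the second moment, first form

PROOF. `r = rep o`, `F u = ch o u * ne1 (p r) (p u) ≥ 0`, `R k j = Rk (p r) k j r`. By `SN_expand` and
`R k 0 = Pk k (sv^2) r ≥ 0` (`Pk_zero`, `Pk_nonneg`): `SN N r ≥ 2 ∑_{k<N} ∑_{j<N-1-k} R k (j+1)`. Since
`R 0 j = sv (p r) r * .. = 0` (`sg_self`), the terms `k = 0` vanish. Let `D` be the finite set of pairs
`(a, b)` with `a, b ≥ 1`, `a + b ≤ N - 1`; then `SN N r ≥ 2 ∑_D R a b = ∑_D (R a b + R b a)`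
(`D` is symmetric), and by `three_times` `≥ ∑_D Pk a (fun u => F u * Pk b (ch o) u) r`. This sum is, adding
the terms `a = 0` (which vanish: `F r = 0` since `ne1 (p r) (p r) = 0`),
`∑_{a<N} Pk a (fun u => F u * ∑_{j<N-1-a} Pk (j+1) (ch o) u) r`, and for `a < N`
`∑_{j<N-1-a} Pk (j+1) (ch o) u = J (N-a) 1 u - ch o u ≥ (N-a) π - B - 1` (`Finset.sum_range_succ'`, `ch_le_one`).
Since `F ≥ 0`: `Pk a (F * ...) r ≥ Pk a F r * ((N - a) π - B - 1)`. -/

open MulAction LGap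

namespace ZUK

variable {H V X : Type*} [Group H] [MulAction H V] {w : V → V → ℝ}
  [Fintype (Ty H V)] [LinearOrder X] [MulAction H X]

theorem SN_lower1 (hw : Gr H w) (hd : ∀ v, 0 < dg hw v)
    (hst : ∀ v : V, Finite (MulAction.stabilizer H v)) (o : Ty H V) {p : V → X}
    (hp : ∀ (h : H) v, p (h • v) = h • p v) (hm : ∀ h : H, StrictMono (fun x : X => h • x))
    {π B : ℝ} (hB : ∀ (n : ℕ) (v : V), |J hw o p n (fun _ => 1) v - n * π| ≤ B) (N : ℕ) :
    ∑ a ∈ Finset.range N, Pk hw a (fun u => ch o u * ne1 (p (rep o)) (p u)) (rep o)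
        * (((N : ℝ) - a) * π - B - 1)
      ≤ SN hw o p (p (rep o)) N (rep o) := by
  classical
  obtain ⟨r, hr⟩ : ∃ r : V, r = rep o := ⟨_, rfl⟩
  have h3 := three_times hw hd hst o hp hm
  rw [← hr] at h3 ⊢
  have hne0 : ∀ a b : X, 0 ≤ ne1 a b := by
    intro a b
    unfold ne1
    split_ifs <;> norm_num
  have hne_self : ∀ a : X, ne1 a a = 0 := by
    intro a
    unfold ne1
    rw [if_pos rfl]
  obtain ⟨F, hF⟩ : ∃ F : V → ℝ, F = fun u => ch o u * ne1 (p r) (p u) := ⟨_, rfl⟩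
  have hF0 : ∀ u, 0 ≤ F u := by
    intro u
    rw [hF]
    exact mul_nonneg (ch_nonneg o u) (hne0 _ _)
  have hFr : F r = 0 := by
    rw [hF]
    show ch o r * ne1 (p r) (p r) = 0
    rw [hne_self, mul_zero]
  obtain ⟨R, hR⟩ : ∃ R : ℕ → ℕ → ℝ, R = fun k j => Rk hw o p (p r) k j r := ⟨_, rfl⟩
  have hR0 : ∀ k, 0 ≤ R k 0 := by
    intro k
    rw [hR]
    show 0 ≤ Pk hw k (fun u => sv o p (p r) u * Pk hw 0 (sv o p (p r)) u) r
    rw [Pk_zero]
    exact Pk_nonneg hw k (fun u => mul_self_nonneg _) r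
  have hR00 : ∀ j, R 0 j = 0 := by
    intro j
    rw [hR]
    show Pk hw 0 (fun u => sv o p (p r) u * Pk hw j (sv o p (p r)) u) r = 0
    rw [Pk_zero]
    show sv o p (p r) r * _ = 0
    have : sv o p (p r) r = 0 := by
      unfold sv
      rw [sg_self, mul_zero]
    rw [this, zero_mul]
  obtain ⟨G, hG⟩ : ∃ G : ℕ → ℕ → ℝ, G = fun a b => Pk hw a (fun u => F u * Pk hw b (ch o) u) r :=
    ⟨_, rfl⟩
  have hthree : ∀ a b, G a b ≤ R a b + R b a := by
    intro a b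
    rw [hG, hR, hF]
    exact h3 a b
  have hG0 : ∀ b, G 0 b = 0 := by
    intro b
    rw [hG]
    show Pk hw 0 (fun u => F u * Pk hw b (ch o) u) r = 0
    rw [Pk_zero]
    show F r * _ = 0
    rw [hFr, zero_mul]
  have hexp := SN_expand hw o p (p r) N r
  have hSN : 2 * ∑ k ∈ Finset.range N, ∑ j ∈ Finset.range (N - 1 - k), R k (j + 1) ≤
      SN hw o p (p r) N r := by
    rw [hexp, Finset.mul_sum]
    refine Finset.sum_le_sum fun k _ => ?_
    have e1 := hR0 k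
    rw [hR] at e1 ⊢
    have e2 : 0 ≤ Rk hw o p (p r) k 0 r := e1
    show 2 * ∑ j ∈ Finset.range (N - 1 - k), Rk hw o p (p r) k (j + 1) r ≤ _
    linarith
  -- the triangle of pairs
  obtain ⟨D, hD⟩ : ∃ D : Finset (ℕ × ℕ), D = (Finset.range N ×ˢ Finset.range N).filter
    (fun q => 1 ≤ q.1 ∧ 1 ≤ q.2 ∧ q.1 + q.2 + 1 ≤ N) := ⟨_, rfl⟩
  have hmemD : ∀ q : ℕ × ℕ, q ∈ D ↔ 1 ≤ q.1 ∧ 1 ≤ q.2 ∧ q.1 + q.2 + 1 ≤ N := by
    intro q
    rw [hD, Finset.mem_filter, Finset.mem_product, Finset.mem_range, Finset.mem_range]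
    constructor
    · exact fun h => h.2
    · intro h
      exact ⟨⟨by omega, by omega⟩, h⟩
  have htri : ∀ f : ℕ → ℕ → ℝ, (∀ b, f 0 b = 0) →
      ∑ k ∈ Finset.range N, ∑ j ∈ Finset.range (N - 1 - k), f k (j + 1) = ∑ q ∈ D, f q.1 q.2 := by
    intro f hf
    rw [Finset.sum_sigma']
    symm
    have h0 : ∑ x ∈ (Finset.range N).sigma (fun k => Finset.range (N - 1 - k)), f x.1 (x.2 + 1) =
        ∑ x ∈ ((Finset.range N).sigma (fun k => Finset.range (N - 1 - k))).filter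
          (fun x => 1 ≤ x.1), f x.1 (x.2 + 1) := by
      symm
      refine Finset.sum_subset (Finset.filter_subset _ _) fun x hx hx' => ?_
      have hx0 : x.1 = 0 := by
        by_contra hc
        exact hx' (Finset.mem_filter.2 ⟨hx, by omega⟩)
      rw [hx0]
      exact hf _
    rw [h0]
    refine Finset.sum_bij' (fun q _ => (⟨q.1, q.2 - 1⟩ : (_ : ℕ) × ℕ))
      (fun x _ => (x.1, x.2 + 1)) ?_ ?_ ?_ ?_ ?_
    · intro q hq
      rw [hmemD] at hq
      rw [Finset.mem_filter, Finset.mem_sigma, Finset.mem_range, Finset.mem_range]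
      exact ⟨⟨by show q.1 < N; omega, by show q.2 - 1 < N - 1 - q.1; omega⟩, hq.1⟩
    · intro x hx
      rw [Finset.mem_filter, Finset.mem_sigma, Finset.mem_range, Finset.mem_range] at hx
      rw [hmemD]
      refine ⟨hx.2, by show 1 ≤ x.2 + 1; omega, ?_⟩
      show x.1 + (x.2 + 1) + 1 ≤ N
      omega
    · intro q hq
      rw [hmemD] at hq
      refine Prod.ext rfl ?_
      show q.2 - 1 + 1 = q.2
      omega
    · intro x hx
      rfl
    · intro q hq
      rw [hmemD] at hq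
      show f q.1 q.2 = f q.1 (q.2 - 1 + 1)
      rw [Nat.sub_add_cancel hq.2.1]
  have hswap : ∀ f : ℕ → ℕ → ℝ, ∑ q ∈ D, f q.1 q.2 = ∑ q ∈ D, f q.2 q.1 := by
    intro f
    refine Finset.sum_bij' (fun q _ => (q.2, q.1)) (fun q _ => (q.2, q.1)) ?_ ?_ ?_ ?_ ?_
    · intro q hq
      rw [hmemD] at hq ⊢
      exact ⟨hq.2.1, hq.1, by show q.2 + q.1 + 1 ≤ N; omega⟩
    · intro q hq
      rw [hmemD] at hq ⊢
      exact ⟨hq.2.1, hq.1, by show q.2 + q.1 + 1 ≤ N; omega⟩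
    · intro q _
      rfl
    · intro q _
      rfl
    · intro q _
      rfl
  have hlow : ∑ q ∈ D, G q.1 q.2 ≤ SN hw o p (p r) N r := by
    refine le_trans ?_ hSN
    rw [htri R hR00, two_mul]
    nth_rewrite 2 [hswap R]
    rw [← Finset.sum_add_distrib]
    exact Finset.sum_le_sum fun q _ => hthree q.1 q.2
  refine le_trans ?_ hlow
  rw [← htri G hG0]
  refine Finset.sum_le_sum fun a ha => ?_
  rw [Finset.mem_range] at ha
  have hgoal : (fun u => ch o u * ne1 (p r) (p u)) = F := hF.symm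
  rw [hgoal]
  -- the inner sum
  have hpt : ∀ u, ((N : ℝ) - a) * π - B - 1 ≤
      ∑ j ∈ Finset.range (N - 1 - a), Pk hw (j + 1) (ch o) u := by
    intro u
    have e1 := (abs_le.1 (hB (N - a) u)).1
    have e2 : J hw o p (N - a) (fun _ => 1) u = ∑ k ∈ Finset.range (N - a), Pk hw k (ch o) u := by
      unfold J
      refine Finset.sum_congr rfl fun k _ => ?_
      exact Pk_congr hw k (fun v => mul_one _) u
    have e3 : N - a = (N - 1 - a) + 1 := by omega
    rw [e2] at e1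
    nth_rewrite 1 [e3] at e1
    rw [Finset.sum_range_succ', Pk_zero] at e1
    have e4 := ch_le_one o u
    have e5 : ((N - a : ℕ) : ℝ) = (N : ℝ) - a := by
      rw [Nat.cast_sub ha.le]
    rw [e5] at e1
    linarith
  have h5 : ∑ j ∈ Finset.range (N - 1 - a), G a (j + 1) =
      Pk hw a (fun u => ∑ j ∈ Finset.range (N - 1 - a), F u * Pk hw (j + 1) (ch o) u) r := by
    rw [hG, Pk_sumf]
  rw [h5]
  have h6 : ∀ u, (((N : ℝ) - a) * π - B - 1) * F u ≤
      ∑ j ∈ Finset.range (N - 1 - a), F u * Pk hw (j + 1) (ch o) u := by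
    intro u
    rw [← Finset.mul_sum, mul_comm]
    exact mul_le_mul_of_nonneg_left (hpt u) (hF0 u)
  have h7 := Pk_mono hw a h6 r
  rw [Pk_cmul] at h7
  rw [mul_comm]
  exact h7

end ZUK
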