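import Pool.Agent.ZUK.Gbd

/-! # Module LoK (difficulty 4): many times at which the position differs

`path_pos`: if `x` and `y` are connected then some power of the Markov operator has a positive entry.
PROOF. Induction on `Relation.ReflTransGen` (from the head: `Relation.ReflTransGen.head_induction_on`):
for `x = y` take `ℓ = 0`; if `w x x' ≠ 0` and `0 < Pk ℓ 1_y x'`, then
`Pk (ℓ+1) 1_y x = (∑_{u ∈ nb x} w x u * Pk ℓ 1_y u) / dg x > 0` (`Pk_succ_apply`, all terms are `≥ 0` and the
term `u = x'` is positive).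

`low_K`. PROOF. `r = rep o`, `y = g₀ • r`, `ℓ` with `δ = Pk ℓ 1_y r > 0` (`path_pos`; `δ ≤ 1`),
`F u = ch o u * ne1 (p r) (p u) ∈ [0, 1]`. Claim: `δ * ch o u ≤ F u + Pk ℓ F u` for all `u`. If `ch o u = 0`
clear. Otherwise `u = h • r` for some `h` (`typ_eq_iff`). If `p u ≠ p r` then `F u = 1 ≥ δ`. If `p u = p r`:
`y' = h • y = h • g₀ • r` has `p y' = h • g₀ • p r ≠ h • p r = p u = p r` (injectivity of `h`), so
`F ≥ 1_{y'}` pointwise, and `Pk ℓ 1_{y'} u = Pk ℓ 1_{h • y} (h • r) = Pk ℓ 1_y r = δ` (`Pk_smul`).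
Apply `∑_{k<n} Pk k` at `r`: `δ * J n 1 r ≤ K n + ∑_{k<n} Pk (k+ℓ) F r`, `K n = ∑_{k<n} Pk k F r` (`Pk_add`), and
`∑_{k<n} Pk (k+ℓ) F r ≤ ∑_{k<n+ℓ} Pk k F r ≤ K n + ℓ` (terms in `[0,1]`). With `total_bound`
`2 K n + ℓ ≥ δ (n π - B)`. So `c = δ π / 2`, `C = (δ B + ℓ) / 2`. -/

open MulAction LGap

namespace ZUK

variable {H V X : Type*} [Group H] [MulAction H V] {w : V → V → ℝ}

open Classical in
theorem path_pos (hw : Gr H w) (hd : ∀ v, 0 < dg hw v) {x y : V}
    (h : Relation.ReflTransGen (fun a b => w a b ≠ 0) x y) :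
    ∃ l : ℕ, 0 < Pk hw l (fun u => if u = y then 1 else 0) x := by
  induction h using Relation.ReflTransGen.head_induction_on with
  | refl =>
    refine ⟨0, ?_⟩
    rw [Pk_zero]
    show (0 : ℝ) < if y = y then 1 else 0
    rw [if_pos rfl]
    exact one_pos
  | @head a b hab _ ih =>
    obtain ⟨l, hl⟩ := ih
    refine ⟨l + 1, ?_⟩
    rw [Pk_succ_apply]
    refine div_pos ?_ (hd _)
    have hnn : ∀ u, 0 ≤ Pk hw l (fun u => if u = y then (1 : ℝ) else 0) u :=
      Pk_nonneg hw l (fun u => by split_ifs <;> norm_num)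
    exact Finset.sum_pos' (fun u _ => mul_nonneg (hw.nonneg _ _) (hnn u))
      ⟨b, (mem_nb hw).2 hab, mul_pos (lt_of_le_of_ne (hw.nonneg _ _) (Ne.symm hab)) hl⟩

theorem low_K [Fintype (Ty H V)] [LinearOrder X] [MulAction H X]
    (hw : Gr H w) (hd : ∀ v, 0 < dg hw v)
    (hst : ∀ v : V, Finite (MulAction.stabilizer H v))
    (hconn : ∀ v u : V, Relation.ReflTransGen (fun a b => w a b ≠ 0) v u) (o : Ty H V)
    {p : V → X} (hp : ∀ (h : H) v, p (h • v) = h • p v)
    (hm : ∀ h : H, StrictMono (fun x : X => h • x)) {g₀ : H}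
    (hg : g₀ • p (rep o) ≠ p (rep o)) :
    ∃ c C : ℝ, 0 < c ∧ 0 ≤ C ∧ ∀ n : ℕ, c * n - C ≤
      ∑ k ∈ Finset.range n, Pk hw k (fun u => ch o u * ne1 (p (rep o)) (p u)) (rep o) := by
  classical
  obtain ⟨r, hr⟩ : ∃ r : V, r = rep o := ⟨_, rfl⟩
  rw [← hr] at hg ⊢
  obtain ⟨l, hl⟩ := path_pos hw hd (hconn r (g₀ • r))
  obtain ⟨δ, hδ⟩ : ∃ δ : ℝ, δ = Pk hw l (fun u => if u = g₀ • r then 1 else 0) r := ⟨_, rfl⟩
  have hδ0 : 0 < δ := by rw [hδ]; convert hl
  have hδ1 : δ ≤ 1 := by
    rw [hδ]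
    exact Pk_le_const hw hd l (fun u => by split_ifs <;> norm_num) r
  obtain ⟨F, hF⟩ : ∃ F : V → ℝ, F = fun u => ch o u * ne1 (p r) (p u) := ⟨_, rfl⟩
  have hne0 : ∀ a b : X, 0 ≤ ne1 a b := by
    intro a b
    unfold ne1
    split_ifs <;> norm_num
  have hne1 : ∀ a b : X, ne1 a b ≤ 1 := by
    intro a b
    unfold ne1
    split_ifs <;> norm_num
  have hF0 : ∀ u, 0 ≤ F u := by
    intro u
    rw [hF]
    exact mul_nonneg (ch_nonneg o u) (hne0 _ _)
  have hF1 : ∀ u, F u ≤ 1 := by
    intro u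
    rw [hF]
    exact mul_le_one₀ (ch_le_one o u) (hne0 _ _) (hne1 _ _)
  have hclaim : ∀ u, δ * ch o u ≤ F u + Pk hw l F u := by
    intro u
    have h1 : 0 ≤ Pk hw l F u := Pk_nonneg hw l hF0 u
    by_cases hu : typ H u = o
    · have hc : ch o u = 1 := by
        unfold ch
        rw [if_pos hu]
      have ht : typ H r = typ H u := by rw [hr, typ_rep, hu]
      obtain ⟨h, hh⟩ := typ_eq_iff.1 ht
      rw [hc, mul_one]
      by_cases hp1 : p u = p r
      · have hy : p (h • g₀ • r) ≠ p r := by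
          intro he
          have e1 : h • p r = p r := by rw [← hp, hh, hp1]
          rw [hp, hp, ← e1] at he
          have e2 : g₀ • h • p r = h • p r := by
            rw [e1] at he ⊢
            exact (hm h).injective (by rw [he, e1])
          rw [e1] at e2
          exact hg e2
        have hcy : ch o (h • g₀ • r) = 1 := by
          rw [ch_smul, ch_smul, hr, ch_rep]
        have hFy : F (h • g₀ • r) = 1 := by
          rw [hF]
          show ch o (h • g₀ • r) * ne1 (p r) (p (h • g₀ • r)) = 1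
          rw [hcy, one_mul]
          unfold ne1
          rw [if_neg hy]
        have hle : ∀ v, (if v = h • g₀ • r then (1 : ℝ) else 0) ≤ F v := by
          intro v
          by_cases hv : v = h • g₀ • r
          · rw [if_pos hv, hv, hFy]
          · rw [if_neg hv]
            exact hF0 v
        have h2 := Pk_mono hw l hle u
        have h3 : Pk hw l (fun v => if v = h • g₀ • r then (1 : ℝ) else 0) u = δ := by
          rw [← hh, Pk_smul, hδ]
          apply Pk_congr
          intro v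
          by_cases hv : v = g₀ • r
          · rw [if_pos hv, if_pos (by rw [hv])]
          · rw [if_neg hv, if_neg (fun he => hv (smul_left_cancel h he))]
        rw [h3] at h2
        have h4 := hF0 u
        linarith
      · have hFu : F u = 1 := by
          rw [hF]
          show ch o u * ne1 (p r) (p u) = 1
          rw [hc, one_mul]
          unfold ne1
          rw [if_neg hp1]
        rw [hFu]
        linarith
    · have hc : ch o u = 0 := by
        unfold ch
        rw [if_neg hu]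
      rw [hc, mul_zero]
      have h4 := hF0 u
      linarith
  obtain ⟨π, B, hπ, hB, hJ⟩ := total_bound hw hd hst hconn o p
  refine ⟨δ * π / 2, (δ * B + l) / 2, by positivity, by positivity, fun n => ?_⟩
  have hgoal : (fun u => ch o u * ne1 (p r) (p u)) = F := hF.symm
  rw [hgoal]
  obtain ⟨a, ha⟩ : ∃ a : ℕ → ℝ, a = fun k => Pk hw k F r := ⟨_, rfl⟩
  have ha0 : ∀ k, 0 ≤ a k := fun k => by rw [ha]; exact Pk_nonneg hw k hF0 r
  have ha1 : ∀ k, a k ≤ 1 := fun k => by rw [ha]; exact Pk_le_const hw hd k hF1 r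
  have hK : ∑ k ∈ Finset.range n, Pk hw k F r = ∑ k ∈ Finset.range n, a k := by rw [ha]
  rw [hK]
  have hstep : ∀ k, δ * Pk hw k (fun u => ch o u * 1) r ≤ a k + a (k + l) := by
    intro k
    rw [← Pk_cmul]
    have h1 : ∀ u, δ * (ch o u * 1) ≤ F u + Pk hw l F u := by
      intro u
      rw [mul_one]
      exact hclaim u
    have h2 := Pk_mono hw k h1 r
    rw [Pk_addf] at h2
    rw [ha]
    show _ ≤ Pk hw k F r + Pk hw (k + l) F r
    rw [Pk_add]
    exact h2
  have hsum : δ * J hw o p n (fun _ => 1) r ≤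
      ∑ k ∈ Finset.range n, a k + ∑ k ∈ Finset.range n, a (k + l) := by
    unfold J
    rw [Finset.mul_sum, ← Finset.sum_add_distrib]
    exact Finset.sum_le_sum fun k _ => hstep k
  have hshift : ∑ k ∈ Finset.range n, a (k + l) ≤ ∑ k ∈ Finset.range n, a k + l := by
    have e1 := Finset.sum_range_add a l n
    have e2 := Finset.sum_range_add a n l
    have e3 : ∑ x ∈ Finset.range l, a (n + x) ≤ l := by
      calc ∑ x ∈ Finset.range l, a (n + x) ≤ ∑ x ∈ Finset.range l, (1 : ℝ) :=
            Finset.sum_le_sum fun x _ => ha1 _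
        _ = l := by simp
    have e4 : 0 ≤ ∑ x ∈ Finset.range l, a x := Finset.sum_nonneg fun x _ => ha0 x
    have e5 : ∑ x ∈ Finset.range n, a (l + x) = ∑ x ∈ Finset.range n, a (x + l) :=
      Finset.sum_congr rfl fun x _ => by rw [add_comm]
    rw [add_comm l n] at e1
    linarith
  have hJn := (abs_le.1 (hJ n r)).1
  have h5 : δ * (n * π - B) ≤ δ * J hw o p n (fun _ => 1) r :=
    mul_le_mul_of_nonneg_left (by linarith) hδ0.le
  nlinarith

end ZUK
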