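import Pool.Agent.ZUK.Lo1
import Pool.Agent.ZUK.LoK

/-! # Module Lo2 (difficulty 3): quadratic lower bound for the second moment

PROOF. `κ a = Pk a F r ∈ [0, 1]` (`F = ch * ne1`, `Pk_nonneg`, `Pk_le_const`), `K n = ∑_{a<n} κ a ≥ c n - C` (`low_K`),
`π, B` from `total_bound`. By `SN_lower1`
`SN N r ≥ π ∑_{a<N} κ a (N - a) - (B + 1) ∑_{a<N} κ a ≥ π ∑_{a<N} κ a (N - a) - (B+1) N`. Abel summation:
`∑_{a<N} κ a * (N - a) = ∑_{n<N} K (n+1)` (induction on `N`: both sides increase by `K (N+1)`)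
`≥ ∑_{n<N} (c (n+1) - C) ≥ c N^2 / 2 - C N`. So the constants `π c / 2` and `π C + B + 1` work. -/

open MulAction LGap

namespace ZUK

variable {H V X : Type*} [Group H] [MulAction H V] {w : V → V → ℝ}
  [Fintype (Ty H V)] [LinearOrder X] [MulAction H X]

private lemma Lo2_abel (κ : ℕ → ℝ) (N : ℕ) :
    ∑ a ∈ Finset.range N, κ a * ((N : ℝ) - a) =
      ∑ n ∈ Finset.range N, ∑ a ∈ Finset.range (n + 1), κ a := by
  induction N with
  | zero => simp
  | succ N ih =>
    rw [Finset.sum_range_succ (fun n => ∑ a ∈ Finset.range (n + 1), κ a), ← ih,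
      Finset.sum_range_succ (fun a => κ a * (((N + 1 : ℕ) : ℝ) - a)), Finset.sum_range_succ κ,
      ← add_assoc, ← Finset.sum_add_distrib]
    congr 1
    · apply Finset.sum_congr rfl
      intro a _
      push_cast
      ring
    · push_cast
      ring

private lemma Lo2_sum (c C : ℝ) (N : ℕ) :
    ∑ n ∈ Finset.range N, (c * ((n + 1 : ℕ) : ℝ) - C) = c * ((N : ℝ) * (N + 1) / 2) - C * N := by
  induction N with
  | zero => simp
  | succ N ih =>
    rw [Finset.sum_range_succ, ih]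
    push_cast
    ring

theorem SN_lower (hw : Gr H w) (hd : ∀ v, 0 < dg hw v)
    (hst : ∀ v : V, Finite (MulAction.stabilizer H v))
    (hconn : ∀ v u : V, Relation.ReflTransGen (fun a b => w a b ≠ 0) v u) (o : Ty H V)
    {p : V → X} (hp : ∀ (h : H) v, p (h • v) = h • p v)
    (hm : ∀ h : H, StrictMono (fun x : X => h • x)) {g₀ : H}
    (hg : g₀ • p (rep o) ≠ p (rep o)) :
    ∃ c C : ℝ, 0 < c ∧ 0 ≤ C ∧ ∀ N : ℕ, c * (N : ℝ) ^ 2 - C * N ≤
      SN hw o p (p (rep o)) N (rep o) := by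
  obtain ⟨c, C, hc, hC, hK⟩ := low_K hw hd hst hconn o hp hm hg
  obtain ⟨π, B, hπ, hB0, hB⟩ := total_bound hw hd hst hconn o p
  refine ⟨π * c / 2, π * C + B + 1, by positivity, by positivity, fun N => ?_⟩
  refine le_trans ?_ (SN_lower1 hw hd hst o hp hm hB N)
  set κ : ℕ → ℝ := fun a => Pk hw a (fun u => ch o u * ne1 (p (rep o)) (p u)) (rep o) with hκ
  have hch0 : ∀ u : V, 0 ≤ ch o u := fun u => by
    unfold ch
    split_ifs <;> norm_num
  have hne0 : ∀ a b : X, 0 ≤ ne1 a b := fun a b => by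
    unfold ne1
    split_ifs <;> norm_num
  have hne1 : ∀ a b : X, ne1 a b ≤ 1 := fun a b => by
    unfold ne1
    split_ifs <;> norm_num
  have hk1 : ∀ a, κ a ≤ 1 := fun a => by
    refine Pk_le_const hw hd a (fun u => ?_) _
    calc ch o u * ne1 (p (rep o)) (p u) ≤ 1 * 1 :=
          mul_le_mul (ch_le_one o u) (hne1 _ _) (hne0 _ _) zero_le_one
      _ = 1 := one_mul 1
  have e : ∑ a ∈ Finset.range N, κ a * (((N : ℝ) - a) * π - B - 1) =
      π * ∑ a ∈ Finset.range N, κ a * ((N : ℝ) - a) - (B + 1) * ∑ a ∈ Finset.range N, κ a := by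
    rw [Finset.mul_sum, Finset.mul_sum, ← Finset.sum_sub_distrib]
    apply Finset.sum_congr rfl
    intro a _
    ring
  have e2 : ∑ a ∈ Finset.range N, Pk hw a (fun u => ch o u * ne1 (p (rep o)) (p u)) (rep o)
        * (((N : ℝ) - a) * π - B - 1) =
      ∑ a ∈ Finset.range N, κ a * (((N : ℝ) - a) * π - B - 1) := rfl
  rw [e2, e, Lo2_abel]
  have h1 : ∑ a ∈ Finset.range N, κ a ≤ N := by
    calc ∑ a ∈ Finset.range N, κ a ≤ ∑ _a ∈ Finset.range N, (1 : ℝ) :=
          Finset.sum_le_sum fun a _ => hk1 a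
      _ = N := by simp
  have h2 : c * ((N : ℝ) * (N + 1) / 2) - C * N ≤
      ∑ n ∈ Finset.range N, ∑ a ∈ Finset.range (n + 1), κ a := by
    rw [← Lo2_sum]
    exact Finset.sum_le_sum fun n _ => hK (n + 1)
  have h3 : π * (c * ((N : ℝ) * (N + 1) / 2) - C * N) ≤
      π * ∑ n ∈ Finset.range N, ∑ a ∈ Finset.range (n + 1), κ a :=
    mul_le_mul_of_nonneg_left h2 hπ.le
  have h4 : (B + 1) * ∑ a ∈ Finset.range N, κ a ≤ (B + 1) * N :=
    mul_le_mul_of_nonneg_left h1 (by positivity)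
  have h5 : 0 ≤ π * c * N := by positivity
  nlinarith [h3, h4, h5]

end ZUK
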