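import Pool.Agent.LGap.Basic

/-! # Module Ps (difficulty 2): an equivariant map to the linear order

PROOF. Copy of the lemmas `pow_smul_gt`, ..., `pos_rep` of Pool/Agent/LGap/Basic.lean with `X` in place of
`UI`: an element `s` of finite order acts trivially on `X` (if `x < s • x` then `x < s ^ (n+1) • x` for all `n`),
so `a • v = b • v` implies `a • x = b • x`; put `p v = frame H v • x₀`. -/

open MulAction LGap

namespace ZUK

variable {H V X : Type*} [Group H] [MulAction H V] [LinearOrder X] [MulAction H X]

private lemma ps_gt (hm : ∀ h : H, StrictMono (fun x : X => h • x)) (s : H) (x : X)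
    (hx : x < s • x) : ∀ n : ℕ, x < s ^ (n + 1) • x := by
  intro n
  induction n with
  | zero => simpa using hx
  | succ n ih =>
    rw [pow_succ', mul_smul]
    exact hx.trans (hm s ih)

private lemma ps_lt (hm : ∀ h : H, StrictMono (fun x : X => h • x)) (s : H) (x : X)
    (hx : s • x < x) : ∀ n : ℕ, s ^ (n + 1) • x < x := by
  intro n
  induction n with
  | zero => simpa using hx
  | succ n ih =>
    rw [pow_succ', mul_smul]
    exact (hm s ih).trans hx

private lemma ps_torsion (hm : ∀ h : H, StrictMono (fun x : X => h • x)) (s : H)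
    (hs : IsOfFinOrder s) (x : X) : s • x = x := by
  obtain ⟨n, hn, hsn⟩ := isOfFinOrder_iff_pow_eq_one.1 hs
  obtain ⟨m, rfl⟩ : ∃ m, n = m + 1 := ⟨n - 1, by omega⟩
  rcases lt_trichotomy x (s • x) with h | h | h
  · have := ps_gt hm s x h m
    rw [hsn, one_smul] at this
    exact absurd this (lt_irrefl _)
  · exact h.symm
  · have := ps_lt hm s x h m
    rw [hsn, one_smul] at this
    exact absurd this (lt_irrefl _)

private lemma ps_stab (hm : ∀ h : H, StrictMono (fun x : X => h • x))
    (hst : ∀ v : V, Finite (MulAction.stabilizer H v)) {s : H} {v : V} (hs : s • v = v)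
    (x : X) : s • x = x := by
  have := hst v
  have h1 : IsOfFinOrder (⟨s, hs⟩ : MulAction.stabilizer H v) := isOfFinOrder_of_finite _
  have h2 : IsOfFinOrder s := by
    have := (MulAction.stabilizer H v).subtype.isOfFinOrder h1
    simpa using this
  exact ps_torsion hm s h2 x

private lemma ps_eq (hm : ∀ h : H, StrictMono (fun x : X => h • x))
    (hst : ∀ v : V, Finite (MulAction.stabilizer H v)) {a b : H} {v : V} (h : a • v = b • v)
    (x : X) : a • x = b • x := by
  have h1 : (b⁻¹ * a) • v = v := by rw [mul_smul, h, inv_smul_smul]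
  have h2 := ps_stab hm hst h1 x
  rw [mul_smul, inv_smul_eq_iff] at h2
  exact h2

theorem exists_pos (hm : ∀ h : H, StrictMono (fun x : X => h • x))
    (hst : ∀ v : V, Finite (MulAction.stabilizer H v)) (x₀ : X) :
    ∃ p : V → X, (∀ (h : H) v, p (h • v) = h • p v) ∧ ∀ o : Ty H V, p (rep o) = x₀ := by
  refine ⟨fun v => frame H v • x₀, fun h v => ?_, fun o => ?_⟩
  · rw [← mul_smul]
    apply ps_eq hm hst (v := rep (typ H v))
    rw [mul_smul, frame_smul]
    have := frame_smul (H := H) (h • v)
    rw [typ_smul] at this
    exact this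
  · have : frame H (rep o) • rep o = (1:H) • rep o := by
      rw [one_smul]
      have := frame_smul (H := H) (rep o)
      rw [typ_rep] at this
      exact this
    show frame H (rep o) • x₀ = x₀
    rw [ps_eq hm hst this, one_smul]

end ZUK
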