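import Pool.Agent.ZUK.Upp
import Pool.Agent.ZUK.Lo2
import Pool.Agent.ZUK.Ctr
import Pool.Agent.ZUK.Ps

/-! # ZUK: main theorem -/

open MulAction LGap

namespace ZUK

variable {H V X : Type*} [Group H] [MulAction H V] {w : V → V → ℝ} {φ : V → V → V → ℝ}
  [Fintype (Ty H V)] [LinearOrder X] [MulAction H X]

/-- **Main theorem**: a group with a certificate acts trivially on linear orders. -/
theorem main [Nonempty V] (hw : Gr H w) (hφ : Tn H φ) (hd : ∀ v, 0 < dg hw v)
    (hst : ∀ v : V, Finite (MulAction.stabilizer H v))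
    (hconn : ∀ v u : V, Relation.ReflTransGen (fun a b => w a b ≠ 0) v u)
    {κ C : ℝ} (hc : Ct hw hφ κ C) (hm : ∀ h : H, StrictMono (fun x : X => h • x))
    (g : H) (x : X) : g • x = x := by
  by_contra hne
  obtain ⟨v₀⟩ := (inferInstance : Nonempty V)
  obtain ⟨p, hp, hpr⟩ := exists_pos (V := V) hm hst x
  set o : Ty H V := typ H v₀
  have hg : g • p (rep o) ≠ p (rep o) := by
    rw [hpr]
    exact hne
  obtain ⟨c, C', hc0, hC0, h1⟩ := SN_lower hw hd hst hconn o hp hm hg
  obtain ⟨K, _, h2⟩ := SN_upper hw hφ hd hst hconn hc o hp hm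
  exact contra _ hc0 hC0 h1 h2

end ZUK
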