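import Pool.Agent.ZUK.Tra

/-! # Module Poi (difficulty 4): Poisson equation on the finite quotient

PROOF. For `f : Ty H V → ℝ` put `L f o' = f o' - PL (fun u => f (typ H u)) (rep o')`, a linear map
`(Ty H V → ℝ) →ₗ[ℝ] (Ty H V → ℝ)`, `μ o' = cw o' * dg (rep o') > 0`, `M = ∑ μ o' > 0` and
`⟨f⟩ = ∑ μ o' * f o'`.
(0) `PL (fun u => f (typ u)) v` depends only on `typ v` (`PL_smul`, `typ_smul`, `typ_eq_iff`), so
`PL (fun u => f (typ u)) v = PL (fun u => f (typ u)) (rep (typ v))`.
(1) `⟨L f⟩ = 0`: `transport` with `k = 1` and `Φ v u = f (typ u)`: `⟨P f⟩ = ∑ μ PL (fun _ => f (typ (rep o')))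
= ∑ μ f o'` (`PL_const`, `Pk_one`, `typ_rep`).
(2) if `L f = 0` then `f` is constant: `h = fun v => f (typ v)` is harmonic: `PL h v = h v` for all `v`.
Let `o₁` be a maximum point of `f` on the finite set `Ty H V`; if `h v = max` then all neighbours `u` of
`v` (`w v u ≠ 0`) have `h u = max` (a weighted mean of numbers `≤ max` equals `max`, positive weights).
By connectivity `h = max` everywhere.
(3) The linear map `L' f = L f + ⟨f⟩ • 1` is injective: if `L' f = 0` then `0 = ⟨L' f⟩ = ⟨f⟩ M` by (1), so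
`⟨f⟩ = 0`, `L f = 0`, `f` constant `= c`, `⟨f⟩ = c M = 0`, `c = 0`. So it is surjective
(`LinearMap.injective_iff_surjective`).
(4) Let `π = μ o / M > 0` and `g = 1_o - π` (so `⟨g⟩ = 0`); take `f` with `L' f = g`. Then
`⟨f⟩ M = ⟨g⟩ - ⟨L f⟩ = 0`, so `L f = g`. Put `ψ v = f (typ v)`, `B = ∑ |f o'|`. By (0),
`ψ v - PL ψ v = L f (typ v) = g (typ v) = ch o v - π`. -/

open MulAction LGap

namespace ZUK

variable {H V X : Type*} [Group H] [MulAction H V] {w : V → V → ℝ} [Fintype (Ty H V)]

omit [Fintype (Ty H V)] in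
private lemma poi_typ (hw : Gr H w) (f : Ty H V → ℝ) (v : V) :
    PL hw (fun u => f (typ H u)) v = PL hw (fun u => f (typ H u)) (rep (typ H v)) := by
  conv_lhs => rw [← frame_smul (H := H) v]
  rw [PL_smul]
  exact PL_congr hw (fun u => by rw [typ_smul]) _

private lemma poi_avg (hw : Gr H w) (hd : ∀ v, 0 < dg hw v)
    (hst : ∀ v : V, Finite (MulAction.stabilizer H v)) (f : Ty H V → ℝ) :
    ∑ o' : Ty H V, cw o' * dg hw (rep o') * PL hw (fun u => f (typ H u)) (rep o') =
      ∑ o' : Ty H V, cw o' * dg hw (rep o') * f o' := by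
  have h1 := transport hw hd hst 1 (fun _ u => f (typ H u)) (fun h u v => by rw [typ_smul])
  have h2 : ∀ o' : Ty H V, Pk hw 1 (fun _ : V => f (typ H (rep o'))) (rep o') = f o' := by
    intro o'
    rw [Pk_const hw hd, typ_rep]
  simp only [h2, Pk_one] at h1
  calc ∑ o' : Ty H V, cw o' * dg hw (rep o') * PL hw (fun u => f (typ H u)) (rep o')
      = ∑ o' : Ty H V, cw o' * (dg hw (rep o') * PL hw (fun u => f (typ H u)) (rep o')) :=
        Finset.sum_congr rfl fun o' _ => by ring
    _ = ∑ o' : Ty H V, cw o' * (dg hw (rep o') * f o') := h1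
    _ = _ := Finset.sum_congr rfl fun o' _ => by ring

private lemma poi_const (hw : Gr H w) (hd : ∀ v, 0 < dg hw v)
    (hconn : ∀ v u : V, Relation.ReflTransGen (fun a b => w a b ≠ 0) v u) (o : Ty H V)
    (f : Ty H V → ℝ) (hf : ∀ o', f o' = PL hw (fun u => f (typ H u)) (rep o')) :
    ∃ c, ∀ o', f o' = c := by
  have : Nonempty (Ty H V) := ⟨o⟩
  obtain ⟨o₁, ho₁⟩ := Finite.exists_max f
  have hh : ∀ v, f (typ H v) = PL hw (fun u => f (typ H u)) v := by
    intro v
    rw [poi_typ hw f v]
    exact hf _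
  have hstep : ∀ v, f (typ H v) = f o₁ → ∀ u, w v u ≠ 0 → f (typ H u) = f o₁ := by
    intro v hv u hu
    have h1 := hh v
    rw [hv, PL_apply, eq_div_iff (hd v).ne'] at h1
    have h2 : ∑ z ∈ nb hw v, w v z * (f o₁ - f (typ H z)) = 0 := by
      simp only [mul_sub]
      rw [Finset.sum_sub_distrib, ← h1, ← Finset.sum_mul]
      have h3 : ∑ z ∈ nb hw v, w v z = dg hw v := rfl
      rw [h3]
      ring
    have h4 := (Finset.sum_eq_zero_iff_of_nonneg (fun z _ =>
      mul_nonneg (hw.nonneg v z) (sub_nonneg.2 (ho₁ (typ H z))))).1 h2 u ((mem_nb hw).2 hu)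
    rcases mul_eq_zero.1 h4 with h5 | h5
    · exact absurd h5 hu
    · linarith
  refine ⟨f o₁, fun o' => ?_⟩
  have h6 : ∀ x, Relation.ReflTransGen (fun a b => w a b ≠ 0) (rep o₁) x →
      f (typ H x) = f o₁ := by
    intro x h7
    induction h7 with
    | refl => rw [typ_rep]
    | tail _ hbc ih => exact hstep _ ih _ hbc
  have h8 := h6 _ (hconn (rep o₁) (rep o'))
  rw [typ_rep] at h8
  exact h8

theorem exists_poisson (hw : Gr H w) (hd : ∀ v, 0 < dg hw v)
    (hst : ∀ v : V, Finite (MulAction.stabilizer H v))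
    (hconn : ∀ v u : V, Relation.ReflTransGen (fun a b => w a b ≠ 0) v u) (o : Ty H V) :
    ∃ (π B : ℝ) (ψ : V → ℝ), 0 < π ∧ 0 ≤ B ∧ (∀ v, |ψ v| ≤ B) ∧
      ∀ v, ch o v = π + (ψ v - PL hw ψ v) := by
  classical
  have : Nonempty (Ty H V) := ⟨o⟩
  obtain ⟨μ, hμ⟩ : ∃ μ : Ty H V → ℝ, ∀ o', μ o' = cw o' * dg hw (rep o') := ⟨_, fun _ => rfl⟩
  have hμ0 : ∀ o', 0 < μ o' := fun o' => by
    rw [hμ]
    exact mul_pos (cw_pos hst o') (hd _)
  have hM : 0 < ∑ o', μ o' := Finset.sum_pos (fun o' _ => hμ0 o') Finset.univ_nonempty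
  obtain ⟨L', hL'⟩ : ∃ L' : (Ty H V → ℝ) →ₗ[ℝ] (Ty H V → ℝ), ∀ f o',
      L' f o' = f o' - PL hw (fun u => f (typ H u)) (rep o') + ∑ o'', μ o'' * f o'' := by
    refine ⟨{ toFun := fun f o' => f o' - PL hw (fun u => f (typ H u)) (rep o') +
                ∑ o'', μ o'' * f o''
              map_add' := ?_
              map_smul' := ?_ }, fun f o' => rfl⟩
    · intro f g
      funext o'
      have h1 : PL hw (fun u => (f + g) (typ H u)) (rep o') =
          PL hw (fun u => f (typ H u)) (rep o') + PL hw (fun u => g (typ H u)) (rep o') := by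
        have h2 : (fun u => (f + g) (typ H u)) = (fun u => f (typ H u)) + fun u => g (typ H u) :=
          rfl
        rw [h2, map_add]
        rfl
      show (f + g) o' - PL hw (fun u => (f + g) (typ H u)) (rep o') +
        ∑ o'', μ o'' * (f + g) o'' = (f o' - PL hw (fun u => f (typ H u)) (rep o') +
          ∑ o'', μ o'' * f o'') + (g o' - PL hw (fun u => g (typ H u)) (rep o') +
          ∑ o'', μ o'' * g o'')
      rw [h1]
      simp only [Pi.add_apply, mul_add, Finset.sum_add_distrib]
      ring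
    · intro c f
      funext o'
      have h1 : PL hw (fun u => (c • f) (typ H u)) (rep o') =
          c * PL hw (fun u => f (typ H u)) (rep o') := by
        have h2 : (fun u => (c • f) (typ H u)) = c • (fun u => f (typ H u)) := rfl
        rw [h2, map_smul]
        rfl
      show (c • f) o' - PL hw (fun u => (c • f) (typ H u)) (rep o') +
        ∑ o'', μ o'' * (c • f) o'' = c * (f o' - PL hw (fun u => f (typ H u)) (rep o') +
          ∑ o'', μ o'' * f o'')
      rw [h1]
      have h2 : ∑ o'', μ o'' * (c • f) o'' = c * ∑ o'', μ o'' * f o'' := by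
        rw [Finset.mul_sum]
        exact Finset.sum_congr rfl fun _ _ => by
          simp only [Pi.smul_apply, smul_eq_mul]
          ring
      rw [h2]
      simp only [Pi.smul_apply, smul_eq_mul]
      ring
  -- the average of `L' f`
  have havg : ∀ f : Ty H V → ℝ, ∑ o', μ o' * L' f o' = (∑ o', μ o') * ∑ o', μ o' * f o' := by
    intro f
    have h1 := poi_avg hw hd hst f
    simp only [← hμ] at h1
    simp only [hL', mul_add, mul_sub, Finset.sum_add_distrib, Finset.sum_sub_distrib]
    rw [h1, sub_self, zero_add, ← Finset.sum_mul]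
  have hinj : Function.Injective L' := by
    rw [← LinearMap.ker_eq_bot, LinearMap.ker_eq_bot']
    intro f hf
    have h1 := havg f
    rw [hf] at h1
    simp only [Pi.zero_apply, mul_zero, Finset.sum_const_zero] at h1
    have h2 : ∑ o', μ o' * f o' = 0 := by
      rcases mul_eq_zero.1 h1.symm with h | h
      · exact absurd h hM.ne'
      · exact h
    have h3 : ∀ o', f o' = PL hw (fun u => f (typ H u)) (rep o') := by
      intro o'
      have h4 := congrFun hf o'
      rw [hL', h2, add_zero, Pi.zero_apply] at h4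
      linarith
    obtain ⟨c, hc⟩ := poi_const hw hd hconn o f h3
    have h5 : (∑ o', μ o') * c = 0 := by
      rw [Finset.sum_mul, ← h2]
      exact Finset.sum_congr rfl fun o' _ => by rw [hc]
    have h6 : c = 0 := by
      rcases mul_eq_zero.1 h5 with h | h
      · exact absurd h hM.ne'
      · exact h
    funext o'
    rw [hc, h6]
    rfl
  have hsurj : Function.Surjective L' := LinearMap.injective_iff_surjective.1 hinj
  obtain ⟨π, hπ⟩ : ∃ π : ℝ, π = μ o / ∑ o', μ o' := ⟨_, rfl⟩
  obtain ⟨f, hf⟩ := hsurj (fun o' => (if o' = o then 1 else 0) - π)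
  have hf0 : ∑ o', μ o' * f o' = 0 := by
    have h1 := havg f
    rw [hf] at h1
    have h2 : ∑ o', μ o' * ((if o' = o then (1 : ℝ) else 0) - π) = 0 := by
      simp only [mul_sub, Finset.sum_sub_distrib, mul_ite, mul_one, mul_zero,
        Finset.sum_ite_eq', Finset.mem_univ, if_true]
      rw [← Finset.sum_mul, hπ]
      field_simp
      ring
    rw [h2] at h1
    rcases mul_eq_zero.1 h1.symm with h | h
    · exact absurd h hM.ne'
    · exact h
  refine ⟨π, ∑ o', |f o'|, fun v => f (typ H v), ?_, ?_, ?_, ?_⟩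
  · rw [hπ]
    exact div_pos (hμ0 o) hM
  · exact Finset.sum_nonneg fun _ _ => abs_nonneg _
  · intro v
    exact Finset.single_le_sum (f := fun o' => |f o'|) (fun _ _ => abs_nonneg _)
      (Finset.mem_univ (typ H v))
  · intro v
    have h1 := congrFun hf (typ H v)
    rw [hL', hf0, add_zero, ← poi_typ hw f v] at h1
    have h2 : ch o v = if typ H v = o then 1 else 0 := by
      unfold ch
      split_ifs <;> rfl
    rw [h2, h1]
    ring

end ZUK
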