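import Pool.Agent.ZUK.Bas

/-! # ZUK: polynomial identities and inequalities -/

open MulAction LGap

namespace ZUK

lemma av_self (x x' : ℝ) : av x x' x x' = qf x x' := by
  unfold av qf
  ring

lemma av_comm (x x' y y' : ℝ) : av x x' y y' = av y y' x x' := by
  unfold av
  ring

lemma qf_neg (x y : ℝ) : qf (-x) (-y) = qf x y := by
  unfold qf
  ring

lemma qf_split (x y : ℝ) : qf x y = ((x + y) / 2) ^ 2 + (y - x) ^ 2 / 12 := by
  unfold qf
  ring

lemma av_split (x x' y y' : ℝ) :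
    av x x' y y' = (x + x') / 2 * ((y + y') / 2) + (x' - x) * (y' - y) / 12 := by
  unfold av
  ring

lemma sq_add_le (x y : ℝ) : (x + y) ^ 2 ≤ 4 * qf x y := by
  unfold qf
  nlinarith [sq_nonneg (x - y)]

lemma qf_sub_le (x y x' y' : ℝ) : qf (x - x') (y - y') ≤ 2 * qf x y + 2 * qf x' y' := by
  have h := qf_nonneg (x + x') (y + y')
  unfold qf at *
  nlinarith

lemma qf_le {x y c : ℝ} (hx : |x| ≤ c) (hy : |y| ≤ c) : qf x y ≤ c ^ 2 := by
  obtain ⟨h1, h2⟩ := abs_le.1 hx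
  obtain ⟨h3, h4⟩ := abs_le.1 hy
  have h5 : x ^ 2 ≤ c ^ 2 := sq_le_sq' h1 h2
  have h6 : y ^ 2 ≤ c ^ 2 := sq_le_sq' h3 h4
  unfold qf
  nlinarith [sq_nonneg (x - y)]

/-- the product of three affine functions: jumps -/
lemma av_ident (x x' y y' z z' : ℝ) :
    (x' - x) * av y y' z z' + (y' - y) * av x x' z z' + (z' - z) * av x x' y y'
      = x' * y' * z' - x * y * z := by
  unfold av
  ring

end ZUK
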