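import Pool.Agent.ZUK.Bas

/-! # Module Tr3 (difficulty 3): sums over a symmetric tensor modulo the group

`T3 Φ = ∑_o cw o ∑_{(x, y)} φ(rep o, x, y) Φ(rep o, x, y)`.

`T3_swap23`: swap the two components of `q` (`Finset.sum_nbij'` with `Prod.swap`, as in
`LGap.S3_swap23` in Pool/Agent/LGap/Main.lean), `hφ.swap23`.
`T3_swap12`: copy of the proof of `LGap.S3_swap12` in Pool/Agent/LGap/Main.lean: rows
`∑_{q ∈ pq v} φ v q.1 q.2 * Φ v q.1 q.2 = ∑ᶠ u, ∑ᶠ w, φ v u w * Φ v u w` (`finsum_curry`), then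
`massTransport` for `F v u = ∑ᶠ w, φ v u w * Φ v u w` (rows and columns have finite support, since
`F v u ≠ 0` implies `φ v u w ≠ 0` for some `w`, hence `(u, w)` is in the finite set `hφ.fin v`; for the
columns use `φ u v w = φ v u w`), then `hφ.swap12`.
`marg1`: if all marginals vanish, `∑_{q ∈ pq v} φ v q.1 q.2 * g q.1 = 0`: equals
`∑ᶠ x, ∑ᶠ y, φ v x y * g x = ∑ᶠ x, (∑ᶠ y, φ v x y) * g x` (`finsum_curry`, `finsum_mul`).
`marg2`: from `marg1` by `hφ.swap23` and swapping. -/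

open MulAction LGap

namespace ZUK

variable {H V X : Type*} [Group H] [MulAction H V] {φ : V → V → V → ℝ}

/-- sum over the tensor modulo the group -/
noncomputable def T3 [Fintype (Ty H V)] (hφ : Tn H φ) (Φ : V → V → V → ℝ) : ℝ :=
  ∑ o : Ty H V, cw o * ∑ q ∈ pq hφ (rep o), φ (rep o) q.1 q.2 * Φ (rep o) q.1 q.2

private lemma Tr3_row (hφ : Tn H φ) (v : V) (G : V → V → ℝ) :
    ∑ q ∈ pq hφ v, φ v q.1 q.2 * G q.1 q.2 = ∑ᶠ x, ∑ᶠ y, φ v x y * G x y := by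
  have hsup : (Function.support fun q : V × V => φ v q.1 q.2 * G q.1 q.2).Finite := by
    refine (hφ.fin v).subset ?_
    intro q hq h0
    apply hq
    show φ v q.1 q.2 * G q.1 q.2 = 0
    rw [h0, zero_mul]
  have h1 := finsum_curry (fun q : V × V => φ v q.1 q.2 * G q.1 q.2) hsup
  rw [← h1]
  symm
  apply finsum_eq_sum_of_support_subset
  intro q hq
  rw [Finset.mem_coe, mem_pq]
  intro h0
  apply hq
  show φ v q.1 q.2 * G q.1 q.2 = 0
  rw [h0, zero_mul]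

private lemma Tr3_swap (hφ : Tn H φ) (v : V) (G : V → V → ℝ) :
    ∑ q ∈ pq hφ v, φ v q.1 q.2 * G q.1 q.2 = ∑ q ∈ pq hφ v, φ v q.1 q.2 * G q.2 q.1 := by
  refine Finset.sum_nbij' Prod.swap Prod.swap ?_ ?_ ?_ ?_ ?_
  · intro q hq
    rw [mem_pq] at hq ⊢
    show φ v q.2 q.1 ≠ 0
    rw [hφ.swap23]
    exact hq
  · intro q hq
    rw [mem_pq] at hq ⊢
    show φ v q.2 q.1 ≠ 0
    rw [hφ.swap23]
    exact hq
  · intro q _
    exact Prod.swap_swap q
  · intro q _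
    exact Prod.swap_swap q
  · intro q _
    show φ v q.1 q.2 * G q.1 q.2 = φ v q.2 q.1 * G q.1 q.2
    rw [hφ.swap23]

theorem T3_swap23 [Fintype (Ty H V)] (hφ : Tn H φ) (Φ : V → V → V → ℝ) :
    T3 hφ Φ = T3 hφ (fun v x y => Φ v y x) := by
  unfold T3
  refine Finset.sum_congr rfl fun o _ => ?_
  rw [Tr3_swap hφ (rep o) (Φ (rep o))]

theorem T3_swap12 [Fintype (Ty H V)] (hφ : Tn H φ)
    (hst : ∀ v : V, Finite (MulAction.stabilizer H v)) (Φ : V → V → V → ℝ)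
    (hinv : ∀ (h : H) v x y, Φ (h • v) (h • x) (h • y) = Φ v x y) :
    T3 hφ Φ = T3 hφ (fun v x y => Φ x v y) := by
  have hex : ∀ v u : V, (∑ᶠ w, φ v u w * Φ v u w) ≠ 0 → ∃ w, φ v u w ≠ 0 := by
    intro v u h
    by_contra hc
    push Not at hc
    apply h
    have h0 : ∀ w, φ v u w * Φ v u w = 0 := fun w => by rw [hc w, zero_mul]
    rw [finsum_congr h0, finsum_zero]
  have h := massTransport hst (fun v u => ∑ᶠ w, φ v u w * Φ v u w)
    (fun h v u => by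
      show ∑ᶠ w, φ (h • v) (h • u) w * Φ (h • v) (h • u) w = ∑ᶠ w, φ v u w * Φ v u w
      rw [← finsum_comp_equiv (MulAction.toPerm h)]
      apply finsum_congr
      intro w
      simp only [MulAction.toPerm_apply]
      rw [hφ.inv, hinv])
    (fun v => ((hφ.fin v).image Prod.fst).subset (fun u hu => by
      obtain ⟨w, hw⟩ := hex v u hu
      exact ⟨(u, w), hw, rfl⟩))
    (fun v => ((hφ.fin v).image Prod.fst).subset (fun u hu => by
      obtain ⟨w, hw⟩ := hex u v hu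
      refine ⟨(u, w), ?_, rfl⟩
      show φ v u w ≠ 0
      rw [hφ.swap12]
      exact hw))
  have h1 : T3 hφ Φ = ∑ o : Ty H V, cw o * ∑ᶠ u, ∑ᶠ w, φ (rep o) u w * Φ (rep o) u w := by
    unfold T3
    refine Finset.sum_congr rfl fun o _ => ?_
    rw [Tr3_row hφ (rep o) (Φ (rep o))]
  have h2 : T3 hφ (fun v x y => Φ x v y) =
      ∑ o : Ty H V, cw o * ∑ᶠ u, ∑ᶠ w, φ u (rep o) w * Φ u (rep o) w := by
    unfold T3
    refine Finset.sum_congr rfl fun o _ => ?_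
    rw [Tr3_row hφ (rep o) (fun x y => Φ x (rep o) y)]
    congr 1
    apply finsum_congr
    intro u
    apply finsum_congr
    intro w
    rw [hφ.swap12]
  rw [h1, h2]
  exact h

theorem marg1 (hφ : Tn H φ) (hz : ∀ v x, ∑ᶠ y, φ v x y = 0) (v : V) (g : V → ℝ) :
    ∑ q ∈ pq hφ v, φ v q.1 q.2 * g q.1 = 0 := by
  rw [Tr3_row hφ v (fun x _ => g x)]
  have h1 : ∀ x, ∑ᶠ y, φ v x y * g x = 0 := by
    intro x
    rw [← finsum_mul, hz v x, zero_mul]
  rw [finsum_congr h1, finsum_zero]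

theorem marg2 (hφ : Tn H φ) (hz : ∀ v x, ∑ᶠ y, φ v x y = 0) (v : V) (g : V → ℝ) :
    ∑ q ∈ pq hφ v, φ v q.1 q.2 * g q.2 = 0 := by
  rw [Tr3_swap hφ v (fun _ y => g y)]
  exact marg1 hφ hz v g

end ZUK
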