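import Pool.Agent.ZUK.Exa
import Pool.Agent.ZUK.Tr3

/-! # Module Te3 (difficulty 3): the tensor term is a boundary term

`tensor_exact`: with `Φ v x y = J2 (fun s => av (Am s x) (Ap s x) (Am s y) (Ap s y)) v`:
`3 * T3 Φ = T3 (fun v x y => Tt v * Tt x * Tt y)`.
PROOF. `Φ` is invariant (`J2_smul`, `Am_smul`, `Ap_smul`). By `T3_swap12`, `T3 Φ = T3 (fun v x y => Φ x v y)`.
Also `T3 Φ = T3 (fun v x y => Φ y v x)`: apply `T3_swap12` and then `T3_swap23` to the function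
`fun v x y => Φ x v y`. So `3 * T3 Φ = T3 (fun v x y => Φ v x y + Φ x v y + Φ y v x)` (linearity, unfold
`T3`), and `exact3` (`J2` of `av (a_v) (a_y)` at `x` is `Φ x v y`, and at `y` it is `Φ y v x`) gives the claim.

`tensor_bound`: if `|Tt v - t| ≤ b` for all `v` then
`|T3 (fun v x y => Tt v * Tt x * Tt y)| ≤ (m + n) * (4 * b ^ 2 * ∑_o cw o ∑_{q ∈ pq (rep o)} |φ (rep o) q.1 q.2|)`.
PROOF. For each `v`: since the marginals vanish (`marg1`, `marg2` with `g = Tt * Tt v` and constants)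
`∑_q φ Tt q.1 Tt q.2 = ∑_q φ (Tt q.1 - Tt v) (Tt q.2 - Tt v)` and `|Tt x - Tt v| ≤ 2 b`. Multiply by
`0 ≤ Tt v ≤ m + n` (`Tt_nonneg`, `Tt_le`). -/

open MulAction LGap

namespace ZUK

variable {H V X : Type*} [Group H] [MulAction H V] {w : V → V → ℝ} {φ : V → V → V → ℝ}
  [Fintype (Ty H V)] [LinearOrder X]

theorem tensor_exact [MulAction H X] (hw : Gr H w) (hφ : Tn H φ)
    (hst : ∀ v : V, Finite (MulAction.stabilizer H v)) (o : Ty H V) {p : V → X}
    (hp : ∀ (h : H) v, p (h • v) = h • p v) (hm : ∀ h : H, StrictMono (fun x : X => h • x))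
    (m n : ℕ) :
    3 * T3 hφ (fun v x y => J2 hw o p m n (fun s => av (Am hw o p m n s x) (Ap hw o p m n s x)
        (Am hw o p m n s y) (Ap hw o p m n s y)) v)
      = T3 hφ (fun v x y => Tt hw o p m n v * Tt hw o p m n x * Tt hw o p m n y) := by
  set Φ : V → V → V → ℝ := fun v x y => J2 hw o p m n (fun s => av (Am hw o p m n s x)
    (Ap hw o p m n s x) (Am hw o p m n s y) (Ap hw o p m n s y)) v with hΦ
  have hinv : ∀ (h : H) v x y, Φ (h • v) (h • x) (h • y) = Φ v x y := by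
    intro h v x y
    simp only [hΦ]
    rw [J2_smul hw o hp]
    simp only [Am_smul hw o hp hm, Ap_smul hw o hp hm]
  have h1 : T3 hφ Φ = T3 hφ (fun v x y => Φ x v y) := T3_swap12 hφ hst Φ hinv
  have h2 : T3 hφ (fun v x y => Φ x v y) = T3 hφ (fun v x y => Φ y v x) :=
    T3_swap23 hφ (fun v x y => Φ x v y)
  have h3 : T3 hφ Φ + T3 hφ (fun v x y => Φ x v y) + T3 hφ (fun v x y => Φ y v x) =
      T3 hφ (fun v x y => Tt hw o p m n v * Tt hw o p m n x * Tt hw o p m n y) := by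
    unfold T3
    rw [← Finset.sum_add_distrib, ← Finset.sum_add_distrib]
    refine Finset.sum_congr rfl fun o' _ => ?_
    rw [← mul_add, ← mul_add, ← Finset.sum_add_distrib, ← Finset.sum_add_distrib]
    congr 1
    refine Finset.sum_congr rfl fun q _ => ?_
    have he : Φ (rep o') q.1 q.2 + Φ q.1 (rep o') q.2 + Φ q.2 (rep o') q.1 =
        Tt hw o p m n (rep o') * Tt hw o p m n q.1 * Tt hw o p m n q.2 :=
      exact3 hw o p m n (rep o') q.1 q.2
    simp only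
    rw [← he]
    ring
  rw [← h3, ← h2, ← h1]
  ring

theorem tensor_bound (hw : Gr H w) (hφ : Tn H φ) (hd : ∀ v, 0 < dg hw v)
    (hst : ∀ v : V, Finite (MulAction.stabilizer H v))
    (hz : ∀ v x, ∑ᶠ y, φ v x y = 0) (o : Ty H V) (p : V → X)
    (m n : ℕ) {t b : ℝ} (hb : ∀ v, |Tt hw o p m n v - t| ≤ b) :
    |T3 hφ (fun v x y => Tt hw o p m n v * Tt hw o p m n x * Tt hw o p m n y)|
      ≤ (m + n) * (4 * b ^ 2 *
        ∑ o' : Ty H V, cw o' * ∑ q ∈ pq hφ (rep o'), |φ (rep o') q.1 q.2|) := by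
  have key : ∀ v : V, |∑ q ∈ pq hφ v, φ v q.1 q.2 * (Tt hw o p m n v * Tt hw o p m n q.1 *
      Tt hw o p m n q.2)| ≤ (m + n) * (4 * b ^ 2 * ∑ q ∈ pq hφ v, |φ v q.1 q.2|) := by
    intro v
    have hd2 : ∀ x, |Tt hw o p m n x - Tt hw o p m n v| ≤ 2 * b := by
      intro x
      have e : Tt hw o p m n x - Tt hw o p m n v =
          (Tt hw o p m n x - t) + -(Tt hw o p m n v - t) := by ring
      rw [e]
      refine (abs_add_le _ _).trans ?_
      rw [abs_neg]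
      linarith [hb x, hb v]
    have m1 : ∑ q ∈ pq hφ v, φ v q.1 q.2 * (Tt hw o p m n q.1) = 0 :=
      marg1 hφ hz v (fun x => Tt hw o p m n x)
    have m2 : ∑ q ∈ pq hφ v, φ v q.1 q.2 * (Tt hw o p m n q.2) = 0 :=
      marg2 hφ hz v (fun x => Tt hw o p m n x)
    have m3 : ∑ q ∈ pq hφ v, φ v q.1 q.2 * (1 : ℝ) = 0 := marg1 hφ hz v (fun _ => 1)
    have e : ∑ q ∈ pq hφ v, φ v q.1 q.2 * (Tt hw o p m n v * Tt hw o p m n q.1 *
        Tt hw o p m n q.2) = Tt hw o p m n v * ∑ q ∈ pq hφ v, φ v q.1 q.2 *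
        ((Tt hw o p m n q.1 - Tt hw o p m n v) * (Tt hw o p m n q.2 - Tt hw o p m n v)) := by
      have e1 : ∀ q ∈ pq hφ v, φ v q.1 q.2 *
        ((Tt hw o p m n q.1 - Tt hw o p m n v) * (Tt hw o p m n q.2 - Tt hw o p m n v)) =
        φ v q.1 q.2 * (Tt hw o p m n q.1 * Tt hw o p m n q.2)
        - Tt hw o p m n v * (φ v q.1 q.2 * (Tt hw o p m n q.1))
        - Tt hw o p m n v * (φ v q.1 q.2 * (Tt hw o p m n q.2))
        + Tt hw o p m n v ^ 2 * (φ v q.1 q.2 * (1 : ℝ)) := fun q _ => by ring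
      rw [Finset.sum_congr rfl e1, Finset.sum_add_distrib, Finset.sum_sub_distrib,
        Finset.sum_sub_distrib, ← Finset.mul_sum, ← Finset.mul_sum, ← Finset.mul_sum, m1, m2, m3,
        mul_zero, mul_zero, sub_zero, sub_zero, add_zero, Finset.mul_sum]
      refine Finset.sum_congr rfl fun q _ => ?_
      ring
    have hT0 := Tt_nonneg hw o p m n v
    have hT1 := Tt_le hw hd o p m n v
    rw [e, abs_mul, abs_of_nonneg hT0]
    have hs : |∑ q ∈ pq hφ v, φ v q.1 q.2 *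
        ((Tt hw o p m n q.1 - Tt hw o p m n v) * (Tt hw o p m n q.2 - Tt hw o p m n v))| ≤
        4 * b ^ 2 * ∑ q ∈ pq hφ v, |φ v q.1 q.2| := by
      refine (Finset.abs_sum_le_sum_abs _ _).trans ?_
      rw [Finset.mul_sum]
      refine Finset.sum_le_sum fun q _ => ?_
      rw [abs_mul, abs_mul]
      have hb0 : 0 ≤ 2 * b := (abs_nonneg _).trans (hd2 v)
      have h4 : |Tt hw o p m n q.1 - Tt hw o p m n v| * |Tt hw o p m n q.2 - Tt hw o p m n v| ≤
          (2 * b) * (2 * b) := mul_le_mul (hd2 _) (hd2 _) (abs_nonneg _) hb0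
      calc |φ v q.1 q.2| * (|Tt hw o p m n q.1 - Tt hw o p m n v| *
            |Tt hw o p m n q.2 - Tt hw o p m n v|)
          ≤ |φ v q.1 q.2| * ((2 * b) * (2 * b)) := mul_le_mul_of_nonneg_left h4 (abs_nonneg _)
        _ = 4 * b ^ 2 * |φ v q.1 q.2| := by ring
    exact mul_le_mul hT1 hs (abs_nonneg _) (hT0.trans hT1)
  unfold T3
  refine (Finset.abs_sum_le_sum_abs _ _).trans ?_
  rw [Finset.mul_sum, Finset.mul_sum]
  refine Finset.sum_le_sum fun o' _ => ?_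
  have hc : 0 ≤ cw o' := (cw_pos hst o').le
  rw [abs_mul, abs_of_nonneg hc]
  calc cw o' * |∑ q ∈ pq hφ (rep o'), φ (rep o') q.1 q.2 * (Tt hw o p m n (rep o') *
        Tt hw o p m n q.1 * Tt hw o p m n q.2)|
      ≤ cw o' * ((m + n) * (4 * b ^ 2 * ∑ q ∈ pq hφ (rep o'), |φ (rep o') q.1 q.2|)) :=
        mul_le_mul_of_nonneg_left (key (rep o')) hc
    _ = _ := by ring

end ZUK
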