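import Pool.Agent.ZUK.Pol

/-! # Module Tel (difficulty 2): telescoping

`tele`: for a finite set `T` of a linear order and real functions `α β γ` on it, with the partial
sums `up δ s = ∑_{t ∈ T, t ≤ s} δ t` and `lo δ s = ∑_{t ∈ T, t < s} δ t`.

PROOF. Induction on `T` with `Finset.induction_on_max` (adding an element `a` larger than all
elements of `T`). For `s ∈ T` the filters `(insert a T).filter (· ≤ s)` and `T.filter (· ≤ s)` agree
(`a ≤ s` is false), also for `<`. For `s = a`: `(insert a T).filter (· ≤ a) = insert a T`,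
`(insert a T).filter (· < a) = T`. So the sum for `insert a T` is the sum for `T`, which is
`A * B * C` (`A = ∑_T α` etc.) plus
`α a * av B (B + β a) C (C + γ a) + β a * av A (A + α a) C (C + γ a) + γ a * av A (A + α a) B (B + β a)`
and by `av_ident` (with `x = A`, `x' = A + α a`, ...) this is
`(A + α a) * (B + β a) * (C + γ a) - A * B * C`. -/

open MulAction LGap

namespace ZUK

theorem tele {X : Type*} [LinearOrder X] (T : Finset X) (α β γ : X → ℝ) :
    ∑ s ∈ T, (α s * av (∑ t ∈ T.filter (fun t => t < s), β t) (∑ t ∈ T.filter (fun t => t ≤ s), β t)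
          (∑ t ∈ T.filter (fun t => t < s), γ t) (∑ t ∈ T.filter (fun t => t ≤ s), γ t)
        + β s * av (∑ t ∈ T.filter (fun t => t < s), α t) (∑ t ∈ T.filter (fun t => t ≤ s), α t)
          (∑ t ∈ T.filter (fun t => t < s), γ t) (∑ t ∈ T.filter (fun t => t ≤ s), γ t)
        + γ s * av (∑ t ∈ T.filter (fun t => t < s), α t) (∑ t ∈ T.filter (fun t => t ≤ s), α t)
          (∑ t ∈ T.filter (fun t => t < s), β t) (∑ t ∈ T.filter (fun t => t ≤ s), β t))
      = (∑ s ∈ T, α s) * (∑ s ∈ T, β s) * (∑ s ∈ T, γ s) := by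
  induction T using Finset.induction_on_max with
  | empty => simp
  | insert a T ha ih =>
    have hna : a ∉ T := fun h => lt_irrefl _ (ha a h)
    have fa1 : (insert a T).filter (fun t => t < a) = T := by
      rw [Finset.filter_insert, if_neg (lt_irrefl a)]
      exact Finset.filter_true_of_mem ha
    have fa2 : (insert a T).filter (fun t => t ≤ a) = insert a T := by
      rw [Finset.filter_insert, if_pos le_rfl, Finset.filter_true_of_mem fun t ht => (ha t ht).le]
    have fs1 : ∀ s ∈ T, (insert a T).filter (fun t => t < s) = T.filter (fun t => t < s) := by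
      intro s hs
      rw [Finset.filter_insert, if_neg (ha s hs).not_gt]
    have fs2 : ∀ s ∈ T, (insert a T).filter (fun t => t ≤ s) = T.filter (fun t => t ≤ s) := by
      intro s hs
      rw [Finset.filter_insert, if_neg (ha s hs).not_ge]
    rw [Finset.sum_insert hna, fa1, fa2]
    refine (congrArg₂ (· + ·) rfl
      ((Finset.sum_congr rfl fun s hs => by rw [fs1 s hs, fs2 s hs]).trans ih)).trans ?_
    simp only [Finset.sum_insert hna]
    have h := av_ident (∑ s ∈ T, α s) (α a + ∑ s ∈ T, α s) (∑ s ∈ T, β s) (β a + ∑ s ∈ T, β s)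
      (∑ s ∈ T, γ s) (γ a + ∑ s ∈ T, γ s)
    simp only [add_sub_cancel_right] at h
    linarith

end ZUK
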