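import Pool.Agent.ZUK.Ant

/-! # Module Thr (difficulty 4): three times

PROOF. For an invariant `Φ : V → V → V → ℝ` let
`TT k j Φ = ∑_{o'} cw o' * (dg v * Pk k (fun y => Pk j (fun z => Φ v y z) y) v)`, `v = rep o'`.
(a) `TT k j Φ = ∑_{o'} cw o' * (dg v * Pk k (fun x => Pk j (fun z => Φ x v z) v) v)`: `transport` with
`Ψ v y = Pk j (fun z => Φ v y z) y` (invariant by `Pk_smul`).
(b) `TT k j Φ = TT j k (fun x y z => Φ z y x)`: by (a), `Pk_comm` (at `a = b = v`) and (a) for the function
`fun x y z => Φ z y x`.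
Let `c x = ch o x`, `g x y = sg (p x) (p y)`, `r = rep o`, `c₁ = cw o * dg r > 0`, and
`Φ₁ x y z = c x * c y * c z * (g x y * g x z)`, `Φ₂ x y z = c x * c y * c z * (g y x * g y z)`,
`Φ₃ x y z = c x * c y * c z * (g z x * g z y)`. Only `o' = o` contributes to the sums.
`TT k j Φ₁ = c₁ * Rk (p r) k j r`.
`TT k j Φ₂ = c₁ * Pk k (fun x => Pk j (fun z => c x * c z * (g r x * g r z)) r) r` (by (a))
`= c₁ * Pk k (sv (p r)) r * Pk j (sv (p r)) r = 0` by `Pk_sv`.
`TT k j Φ₃ = TT j k (fun x y z => Φ₃ z y x) = c₁ * Rk (p r) j k r` by (b).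
Pointwise: `g x y * g x z + g y x * g y z + g z x * g z y ≥ ne1 (p x) (p y)` (it is `1` unless
`p x = p y = p z`, and `0` in this case: cases on the order of the three points, `sg_of_lt`, `sg_of_gt`,
`sg_self`). Hence `c₁ * (Rk k j r + Rk j k r) ≥ TT k j (fun x y z => c x * c y * c z * ne1 (p x) (p y))
= c₁ * Pk k (fun y => c y * ne1 (p r) (p y) * Pk j (ch o) y) r`. -/

open MulAction LGap

namespace ZUK

variable {H V X : Type*} [Group H] [MulAction H V] {w : V → V → ℝ}
  [Fintype (Ty H V)] [LinearOrder X] [MulAction H X]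

lemma Thr_ptw {X : Type*} [LinearOrder X] (a b c : X) :
    ne1 a b ≤ sg a b * sg a c + sg b a * sg b c + sg c a * sg c b := by
  rw [sg_anti a b, sg_anti a c, sg_anti b c]
  unfold ne1
  rcases lt_trichotomy a b with h1 | h1 | h1
  · rw [if_neg h1.ne', sg_of_gt h1]
    rcases lt_trichotomy a c with h2 | h2 | h2
    · rw [sg_of_gt h2]
      linarith
    · subst h2
      rw [sg_self, sg_of_lt h1]
      norm_num
    · rw [sg_of_lt h2, sg_of_lt (h2.trans h1)]
      norm_num
  · subst h1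
    rw [if_pos rfl, sg_self]
    nlinarith [sq_nonneg (sg a c)]
  · rw [if_neg h1.ne, sg_of_lt h1]
    rcases lt_trichotomy a c with h2 | h2 | h2
    · rw [sg_of_gt h2, sg_of_gt (h1.trans h2)]
      norm_num
    · subst h2
      rw [sg_self, sg_of_gt h1]
      norm_num
    · rw [sg_of_lt h2]
      linarith

/-- the triple sums -/
noncomputable def Thr_TT (hw : Gr H w) (k j : ℕ) (Φ : V → V → V → ℝ) : ℝ :=
  ∑ o' : Ty H V, cw o' * (dg hw (rep o') *
    Pk hw k (fun y => Pk hw j (fun z => Φ (rep o') y z) y) (rep o'))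

omit [LinearOrder X] [MulAction H X] in
lemma Thr_a (hw : Gr H w) (hd : ∀ v, 0 < dg hw v)
    (hst : ∀ v : V, Finite (MulAction.stabilizer H v)) (k j : ℕ) (Φ : V → V → V → ℝ)
    (hinv : ∀ (h : H) x y z, Φ (h • x) (h • y) (h • z) = Φ x y z) :
    Thr_TT hw k j Φ = ∑ o' : Ty H V, cw o' * (dg hw (rep o') *
      Pk hw k (fun x => Pk hw j (fun z => Φ x (rep o') z) (rep o')) (rep o')) := by
  refine transport hw hd hst k (fun v y => Pk hw j (fun z => Φ v y z) y) ?_
  intro h u v
  rw [Pk_smul]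
  simp only [hinv]

omit [LinearOrder X] [MulAction H X] in
lemma Thr_b (hw : Gr H w) (hd : ∀ v, 0 < dg hw v)
    (hst : ∀ v : V, Finite (MulAction.stabilizer H v)) (k j : ℕ) (Φ : V → V → V → ℝ)
    (hinv : ∀ (h : H) x y z, Φ (h • x) (h • y) (h • z) = Φ x y z) :
    Thr_TT hw k j Φ = Thr_TT hw j k (fun x y z => Φ z y x) := by
  rw [Thr_a hw hd hst k j Φ hinv,
    Thr_a hw hd hst j k (fun x y z => Φ z y x) (fun h x y z => hinv h z y x)]
  refine Finset.sum_congr rfl fun o' _ => ?_
  congr 2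
  exact Pk_comm hw k j (fun x z => Φ x (rep o') z) (rep o') (rep o')

omit [LinearOrder X] [MulAction H X] in
lemma Thr_only (hw : Gr H w) (o : Ty H V) (F : Ty H V → ℝ) (h0 : ∀ o', o' ≠ o → F o' = 0) :
    ∑ o' : Ty H V, cw o' * (dg hw (rep o') * F o') = cw o * (dg hw (rep o) * F o) := by
  classical
  refine Finset.sum_eq_single_of_mem o (Finset.mem_univ _) fun o' _ hne => ?_
  rw [h0 o' hne, mul_zero, mul_zero]

omit [LinearOrder X] [MulAction H X] in
lemma Thr_first (hw : Gr H w) (o : Ty H V) (k j : ℕ) (Θ : V → V → V → ℝ) :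
    Thr_TT hw k j (fun x y z => ch o x * Θ x y z) = cw o * (dg hw (rep o) *
      Pk hw k (fun y => Pk hw j (fun z => Θ (rep o) y z) y) (rep o)) := by
  unfold Thr_TT
  rw [Thr_only hw o (fun o' => Pk hw k (fun y => Pk hw j
    (fun z => ch o (rep o') * Θ (rep o') y z) y) (rep o'))]
  · simp only [ch_rep, one_mul]
  · intro o' hne
    simp only [ch_rep_ne hne, zero_mul, Pk_zerof]

theorem three_times (hw : Gr H w) (hd : ∀ v, 0 < dg hw v)
    (hst : ∀ v : V, Finite (MulAction.stabilizer H v)) (o : Ty H V) {p : V → X}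
    (hp : ∀ (h : H) v, p (h • v) = h • p v) (hm : ∀ h : H, StrictMono (fun x : X => h • x))
    (k j : ℕ) :
    Pk hw k (fun u => ch o u * ne1 (p (rep o)) (p u) * Pk hw j (ch o) u) (rep o)
      ≤ Rk hw o p (p (rep o)) k j (rep o) + Rk hw o p (p (rep o)) j k (rep o) := by
  classical
  have hc₁ : 0 < cw o * dg hw (rep o) := mul_pos (cw_pos hst o) (hd _)
  set r : V := rep o with hr
  have hsinv : ∀ (h : H) x y, sg (p (h • x)) (p (h • y)) = sg (p x) (p y) := by
    intro h x y
    rw [hp, hp, sg_smul hm]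
  have hT1 : ∀ a b : ℕ, Thr_TT hw a b (fun x y z => ch o x * (ch o y * ch o z *
      (sg (p x) (p y) * sg (p x) (p z)))) = cw o * (dg hw r * Rk hw o p (p r) a b r) := by
    intro a b
    rw [Thr_first]
    congr 2
    unfold Rk
    refine Pk_congr hw a (fun y => ?_) r
    rw [← Pk_cmul]
    refine Pk_congr hw b (fun z => ?_) y
    unfold sv
    ring
  have hT2 : Thr_TT hw k j (fun x y z => ch o x * (ch o y * ch o z *
      (sg (p y) (p x) * sg (p y) (p z)))) = 0 := by
    rw [Thr_a hw hd hst k j _ (fun h x y z => by simp only [ch_smul, hsinv])]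
    have h1 := Thr_only hw o (fun o' => Pk hw k (fun x => Pk hw j (fun z =>
      ch o x * (ch o (rep o') * ch o z * (sg (p (rep o')) (p x) * sg (p (rep o')) (p z))))
        (rep o')) (rep o')) (by
          intro o' hne
          simp only [ch_rep_ne hne, zero_mul, mul_zero, Pk_zerof])
    rw [h1]
    have h2 : Pk hw k (fun x => Pk hw j (fun z =>
      ch o x * (ch o r * ch o z * (sg (p r) (p x) * sg (p r) (p z)))) r) r =
        Pk hw j (sv o p (p r)) r * Pk hw k (sv o p (p r)) r := by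
      rw [← Pk_cmul]
      refine Pk_congr hw k (fun x => ?_) r
      rw [mul_comm, ← Pk_cmul]
      refine Pk_congr hw j (fun z => ?_) r
      have h3 : ch o r = 1 := ch_rep o
      rw [h3]
      unfold sv
      ring
    rw [← hr, h2, hr, Pk_sv hw hd hst o hp hm k]
    ring
  have hT3 : Thr_TT hw k j (fun x y z => ch o x * (ch o y * ch o z *
      (sg (p z) (p x) * sg (p z) (p y)))) = cw o * (dg hw r * Rk hw o p (p r) j k r) := by
    rw [Thr_b hw hd hst k j _ (fun h x y z => by simp only [ch_smul, hsinv]), ← hT1 j k]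
    congr 1
    funext x y z
    ring
  have hT4 : Thr_TT hw k j (fun x y z => ch o x * (ch o y * ch o z * ne1 (p x) (p y))) =
      cw o * (dg hw r * Pk hw k (fun u => ch o u * ne1 (p r) (p u) * Pk hw j (ch o) u) r) := by
    rw [Thr_first]
    congr 2
    refine Pk_congr hw k (fun y => ?_) r
    rw [← Pk_cmul]
    refine Pk_congr hw j (fun z => ?_) y
    ring
  have hle : Thr_TT hw k j (fun x y z => ch o x * (ch o y * ch o z * ne1 (p x) (p y))) ≤
      Thr_TT hw k j (fun x y z => ch o x * (ch o y * ch o z *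
        (sg (p x) (p y) * sg (p x) (p z)))) +
      Thr_TT hw k j (fun x y z => ch o x * (ch o y * ch o z *
        (sg (p y) (p x) * sg (p y) (p z)))) +
      Thr_TT hw k j (fun x y z => ch o x * (ch o y * ch o z *
        (sg (p z) (p x) * sg (p z) (p y)))) := by
    unfold Thr_TT
    rw [← Finset.sum_add_distrib, ← Finset.sum_add_distrib]
    refine Finset.sum_le_sum fun o' _ => ?_
    rw [← mul_add, ← mul_add, ← mul_add, ← mul_add]
    refine mul_le_mul_of_nonneg_left ?_ (cw_pos hst o').le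
    refine mul_le_mul_of_nonneg_left ?_ (hd _).le
    rw [← Pk_addf, ← Pk_addf]
    refine Pk_mono hw k (fun y => ?_) _
    rw [← Pk_addf, ← Pk_addf]
    refine Pk_mono hw j (fun z => ?_) _
    have h1 := Thr_ptw (p (rep o')) (p y) (p z)
    have h2 : 0 ≤ ch o (rep o') * (ch o y * ch o z) :=
      mul_nonneg (ch_nonneg o _) (mul_nonneg (ch_nonneg o _) (ch_nonneg o _))
    have h3 := mul_le_mul_of_nonneg_left h1 h2
    linarith
  rw [hT1, hT2, hT3, hT4] at hle
  have h5 : cw o * dg hw r * Pk hw k (fun u => ch o u * ne1 (p r) (p u) * Pk hw j (ch o) u) r ≤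
      cw o * dg hw r * (Rk hw o p (p r) k j r + Rk hw o p (p r) j k r) := by
    linarith
  exact le_of_mul_le_mul_left h5 hc₁

end ZUK
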