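import Pool.Agent.ZUK.Fub

/-! # Module Tra (difficulty 4): transport (reversibility of the random walk modulo the group)

`transport`: write `T k Φ` for the left side. PROOF. Induction on `k`, for all invariant `Φ`.
`k = 0`: both sides are `∑ cw dg Φ (rep o') (rep o')` (`Pk_zero`).

Case of `PL` (write `T1 Φ = ∑_{o'} cw o' * (dg (rep o') * PL (Φ (rep o')) (rep o'))`): by `PL_apply`,
`dg v ≠ 0` and `sum_nb`, `dg v * PL f v = ∑ᶠ u, w v u * f u`. Apply `LGap.massTransport` to the function
`F v u = w v u * Φ v u` (invariant; finite rows since `hw.fin`; finite columns since `w u v = w v u`).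

Step: `Pk (k+1) (Φ v) v = PL (Φ' v) v` with `Φ' v u = Pk k (Φ v) u` (`Pk_succ`); `Φ'` is invariant
(`Pk_smul` and invariance of `Φ`). By the case of `PL`,
`T (k+1) Φ = ∑ cw dg PL (fun u => Pk k (Φ u) v) v`; by `Pk_comm` (with powers `1` and `k`, `Pk_one`)
`PL (fun u => Pk k (fun z => Φ u z) v) v = Pk k (fun z => PL (fun u => Φ u z) v) v = Pk k (Φ'' v) v`
with `Φ'' v z = PL (fun u => Φ u z) v`, which is invariant (`PL_smul`). By the induction hypothesis
`∑ cw dg Pk k (Φ'' v) v = ∑ cw dg Pk k (fun z => Φ'' z v) v = ∑ cw dg Pk k (fun z => PL (fun u => Φ u v) z) v`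
`= ∑ cw dg Pk (k+1) (fun u => Φ u v) v` (`Pk_succ'`).

`transport_half`: apply `transport` to `Φ' v u = ch o u * Φ v u`. The right side is
`∑_{o'} cw dg Pk k (fun u => ch o (rep o') * Φ u (rep o')) (rep o')`; only `o' = o` contributes
(`ch_rep`, `ch_rep_ne`, `Pk_zerof`).

`transport_one`: apply `transport_half` to `Φ' v u = ch o v * Φ v u`; the left side has again only the
term `o' = o`, and `cw o * dg (rep o) > 0` (`cw_pos`) can be cancelled. -/

open MulAction LGap

namespace ZUK

variable {H V X : Type*} [Group H] [MulAction H V] {w : V → V → ℝ} [Fintype (Ty H V)]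

omit [Fintype (Ty H V)] in
private lemma tra_dg (hw : Gr H w) (hd : ∀ v, 0 < dg hw v) (f : V → ℝ) (v : V) :
    dg hw v * PL hw f v = ∑ᶠ u, w v u * f u := by
  rw [PL_apply, mul_div_cancel₀ _ (hd v).ne', sum_nb]

private lemma tra_one (hw : Gr H w) (hd : ∀ v, 0 < dg hw v)
    (hst : ∀ v : V, Finite (MulAction.stabilizer H v)) (Φ : V → V → ℝ)
    (hinv : ∀ (h : H) u v, Φ (h • u) (h • v) = Φ u v) :
    ∑ o' : Ty H V, cw o' * (dg hw (rep o') * PL hw (fun u => Φ (rep o') u) (rep o'))
      = ∑ o' : Ty H V, cw o' * (dg hw (rep o') * PL hw (fun u => Φ u (rep o')) (rep o')) := by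
  simp only [tra_dg hw hd]
  have h1 := massTransport hst (fun v u => w v u * Φ v u)
    (fun h v u => by rw [hw.inv, hinv])
    (fun v => (hw.fin v).subset fun u hu => left_ne_zero_of_mul hu)
    (fun v => (hw.fin v).subset fun u hu => by
      have h2 := left_ne_zero_of_mul (show w u v * Φ u v ≠ 0 from hu)
      rw [hw.symm] at h2
      exact h2)
  rw [h1]
  refine Finset.sum_congr rfl fun o' _ => ?_
  congr 1
  exact finsum_congr fun u => by rw [hw.symm]

theorem transport (hw : Gr H w) (hd : ∀ v, 0 < dg hw v)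
    (hst : ∀ v : V, Finite (MulAction.stabilizer H v)) (k : ℕ) (Φ : V → V → ℝ)
    (hinv : ∀ (h : H) u v, Φ (h • u) (h • v) = Φ u v) :
    ∑ o' : Ty H V, cw o' * (dg hw (rep o') * Pk hw k (fun u => Φ (rep o') u) (rep o'))
      = ∑ o' : Ty H V, cw o' * (dg hw (rep o') * Pk hw k (fun u => Φ u (rep o')) (rep o')) := by
  induction k generalizing Φ with
  | zero => simp only [Pk_zero]
  | succ k ih =>
    have h1 := tra_one hw hd hst (fun v u => Pk hw k (fun z => Φ v z) u) (fun h u v => by
      show Pk hw k (fun z => Φ (h • u) z) (h • v) = _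
      rw [Pk_smul]
      exact Pk_congr hw k (fun z => hinv h u z) v)
    have h2 := ih (fun v z => PL hw (fun u => Φ u z) v) (fun h u v => by
      show PL hw (fun x => Φ x (h • v)) (h • u) = _
      rw [PL_smul]
      exact PL_congr hw (fun x => hinv h x v) u)
    calc ∑ o' : Ty H V, cw o' * (dg hw (rep o') * Pk hw (k + 1) (fun u => Φ (rep o') u) (rep o'))
        = ∑ o' : Ty H V, cw o' * (dg hw (rep o') *
            PL hw (fun u => Pk hw k (fun z => Φ (rep o') z) u) (rep o')) := by
          refine Finset.sum_congr rfl fun o' _ => ?_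
          rw [Pk_succ]
      _ = ∑ o' : Ty H V, cw o' * (dg hw (rep o') *
            PL hw (fun u => Pk hw k (fun z => Φ u z) (rep o')) (rep o')) := h1
      _ = ∑ o' : Ty H V, cw o' * (dg hw (rep o') *
            Pk hw k (fun z => PL hw (fun u => Φ u z) (rep o')) (rep o')) := by
          refine Finset.sum_congr rfl fun o' _ => ?_
          have h3 := Pk_comm hw 1 k Φ (rep o') (rep o')
          simp only [Pk_one] at h3
          rw [h3]
      _ = ∑ o' : Ty H V, cw o' * (dg hw (rep o') *
            Pk hw k (fun z => PL hw (fun u => Φ u (rep o')) z) (rep o')) := h2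
      _ = ∑ o' : Ty H V, cw o' * (dg hw (rep o') *
            Pk hw (k + 1) (fun u => Φ u (rep o')) (rep o')) := by
          refine Finset.sum_congr rfl fun o' _ => ?_
          rw [Pk_succ']

theorem transport_half (hw : Gr H w) (hd : ∀ v, 0 < dg hw v)
    (hst : ∀ v : V, Finite (MulAction.stabilizer H v)) (k : ℕ) (o : Ty H V) (Φ : V → V → ℝ)
    (hinv : ∀ (h : H) u v, Φ (h • u) (h • v) = Φ u v) :
    ∑ o' : Ty H V, cw o' * (dg hw (rep o') * Pk hw k (fun u => ch o u * Φ (rep o') u) (rep o'))
      = cw o * (dg hw (rep o) * Pk hw k (fun u => Φ u (rep o)) (rep o)) := by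
  have h1 := transport hw hd hst k (fun v u => ch o u * Φ v u) (fun h u v => by
    rw [ch_smul, hinv])
  rw [h1, Finset.sum_eq_single o]
  · congr 2
    exact Pk_congr hw k (fun u => by rw [ch_rep, one_mul]) _
  · intro o' _ ho
    have h2 : Pk hw k (fun u => ch o (rep o') * Φ u (rep o')) (rep o') = 0 := by
      rw [Pk_congr hw k (g := fun _ => 0) (fun u => by rw [ch_rep_ne ho, zero_mul]), Pk_zerof]
    rw [h2, mul_zero, mul_zero]
  · intro h
    exact absurd (Finset.mem_univ o) h

theorem transport_one (hw : Gr H w) (hd : ∀ v, 0 < dg hw v)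
    (hst : ∀ v : V, Finite (MulAction.stabilizer H v)) (k : ℕ) (o : Ty H V) (Φ : V → V → ℝ)
    (hinv : ∀ (h : H) u v, Φ (h • u) (h • v) = Φ u v) :
    Pk hw k (fun u => ch o u * Φ (rep o) u) (rep o)
      = Pk hw k (fun u => ch o u * Φ u (rep o)) (rep o) := by
  have h1 := transport_half hw hd hst k o (fun v u => ch o v * Φ v u) (fun h u v => by
    rw [ch_smul, hinv])
  have h3 : ∑ o' : Ty H V, cw o' * (dg hw (rep o') *
      Pk hw k (fun u => ch o u * (ch o (rep o') * Φ (rep o') u)) (rep o')) =
      cw o * (dg hw (rep o) * Pk hw k (fun u => ch o u * Φ (rep o) u) (rep o)) := by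
    rw [Finset.sum_eq_single o]
    · congr 2
      exact Pk_congr hw k (fun u => by rw [ch_rep, one_mul]) _
    · intro o' _ ho
      have h2 : Pk hw k (fun u => ch o u * (ch o (rep o') * Φ (rep o') u)) (rep o') = 0 := by
        rw [Pk_congr hw k (g := fun _ => 0)
          (fun u => by rw [ch_rep_ne ho, zero_mul, mul_zero]), Pk_zerof]
      rw [h2, mul_zero, mul_zero]
    · intro h
      exact absurd (Finset.mem_univ o) h
  rw [h3] at h1
  exact mul_left_cancel₀ (hd (rep o)).ne' (mul_left_cancel₀ (cw_pos hst o).ne' h1)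

end ZUK
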