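import Pool.Agent.ZUK.Bas

/-! # Module Var (difficulty 3): the variance recursion

`bb_succ`: `bb (N+1) s v = sv s v + PL (bb N s) v`. PROOF. `bb N s = ∑_{k<N} Pk k (sv s)` (unfold `bb`, `J`,
`sv`); `Finset.sum_range_succ'`, `Pk_succ`, `Pk_zero` and linearity of `PL`.

`var_le`: `PL (fun u => b u ^ 2) v - (PL b v) ^ 2 ≤ (∑_{u ∈ nb v} w v u * (b u - b v) ^ 2) / dg v`.
PROOF. Expand: with `μ = PL b v` the right side minus the left side is `(μ - b v)^2`, since
`∑ w (b u - b v)^2 / dg = PL (b^2) v - 2 b v μ + (b v)^2` (`∑ w v u = dg v`).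

`SN_le`. PROOF. Induction on `N`, for all `v`. `N = 0`: `SN 0 = 0`, `bb 0 = 0`. Step:
`SN (N+1) v - bb (N+1) s v ^2 = sv^2 + 2 sv PL (bb N) v + PL (SN N) v - (sv + PL (bb N) v)^2
= PL (SN N) v - (PL (bb N) v)^2`. By the induction hypothesis and `PL_mono` and linearity
`PL (SN N) v ≤ PL (fun u => bb N s u ^ 2) v + ∑_{m<N} Pk (N - m) (grd m s) v`
(`PL (Pk (N-1-m) g) = Pk (N-m) g`, `Pk_succ`), and `var_le` bounds the rest by `grd N s v = Pk 0 (grd N s) v`.
`Finset.sum_range_succ`; `N + 1 - 1 - m = N - m`. -/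

open MulAction LGap

namespace ZUK

variable {H V X : Type*} [Group H] [MulAction H V] {w : V → V → ℝ} [LinearOrder X]

theorem bb_succ (hw : Gr H w) (o : Ty H V) (p : V → X) (N : ℕ) (s : X) (v : V) :
    bb hw o p (N + 1) s v = sv o p s v + PL hw (bb hw o p N s) v := by
  have hb : bb hw o p N s = ∑ k ∈ Finset.range N, Pk hw k (fun u => ch o u * sg s (p u)) := by
    funext u
    rw [Finset.sum_apply]
    rfl
  rw [hb, map_sum, Finset.sum_apply]
  unfold bb J
  rw [Finset.sum_range_succ', Pk_zero, add_comm]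
  congr 1
  apply Finset.sum_congr rfl
  intro k _
  rw [Pk_succ]

omit [LinearOrder X] in
theorem var_le (hw : Gr H w) (hd : ∀ v, 0 < dg hw v) (b : V → ℝ) (v : V) :
    PL hw (fun u => b u ^ 2) v - (PL hw b v) ^ 2
      ≤ (∑ u ∈ nb hw v, w v u * (b u - b v) ^ 2) / dg hw v := by
  have hD : 0 < dg hw v := hd v
  have e : ∑ u ∈ nb hw v, w v u * (b u - b v) ^ 2 =
      ∑ u ∈ nb hw v, w v u * b u ^ 2 - 2 * b v * ∑ u ∈ nb hw v, w v u * b u
        + b v ^ 2 * dg hw v := by
    unfold dg
    rw [Finset.mul_sum, Finset.mul_sum, ← Finset.sum_sub_distrib, ← Finset.sum_add_distrib]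
    apply Finset.sum_congr rfl
    intro u _
    ring
  rw [PL_apply, PL_apply, e]
  set S2 := ∑ u ∈ nb hw v, w v u * b u ^ 2
  set S1 := ∑ u ∈ nb hw v, w v u * b u
  have h : (S2 - 2 * b v * S1 + b v ^ 2 * dg hw v) / dg hw v - (S2 / dg hw v -
      (S1 / dg hw v) ^ 2) = (S1 / dg hw v - b v) ^ 2 := by
    field_simp
    ring
  have h2 := sq_nonneg (S1 / dg hw v - b v)
  linarith

theorem SN_le (hw : Gr H w) (hd : ∀ v, 0 < dg hw v) (o : Ty H V) (p : V → X) (s : X) (N : ℕ)
    (v : V) :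
    SN hw o p s N v - bb hw o p N s v ^ 2
      ≤ ∑ m ∈ Finset.range N, Pk hw (N - 1 - m) (grd hw o p m s) v := by
  induction N generalizing v with
  | zero =>
    have h1 : bb hw o p 0 s v = 0 := by
      unfold bb J
      simp
    rw [h1]
    simp [SN]
  | succ N ih =>
    have h1 : SN hw o p s (N + 1) v = sv o p s v ^ 2 + 2 * sv o p s v * PL hw (bb hw o p N s) v
        + PL hw (SN hw o p s N) v := rfl
    rw [h1, bb_succ]
    have h2 : PL hw (SN hw o p s N) v ≤ PL hw (fun u => bb hw o p N s u ^ 2) v +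
        ∑ m ∈ Finset.range N, Pk hw (N - m) (grd hw o p m s) v := by
      have h3 : PL hw (SN hw o p s N) v ≤ PL hw (fun u => bb hw o p N s u ^ 2 +
          ∑ m ∈ Finset.range N, Pk hw (N - 1 - m) (grd hw o p m s) u) v :=
        PL_mono hw (fun u => by linarith [ih u]) v
      have h4 : PL hw (fun u => bb hw o p N s u ^ 2 +
          ∑ m ∈ Finset.range N, Pk hw (N - 1 - m) (grd hw o p m s) u) v =
          PL hw (fun u => bb hw o p N s u ^ 2) v +
          ∑ m ∈ Finset.range N, Pk hw (N - m) (grd hw o p m s) v := by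
        have h5 : (fun u => bb hw o p N s u ^ 2 +
            ∑ m ∈ Finset.range N, Pk hw (N - 1 - m) (grd hw o p m s) u) =
            (fun u => bb hw o p N s u ^ 2) +
            ∑ m ∈ Finset.range N, Pk hw (N - 1 - m) (grd hw o p m s) := by
          funext u
          rw [Pi.add_apply, Finset.sum_apply]
        rw [h5, map_add, map_sum, Pi.add_apply, Finset.sum_apply]
        congr 1
        apply Finset.sum_congr rfl
        intro m hm
        have hm' := Finset.mem_range.1 hm
        rw [← Pk_succ, show N - 1 - m + 1 = N - m by omega]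
      linarith
    have h6 := var_le hw hd (bb hw o p N s) v
    rw [Finset.sum_range_succ]
    have h7 : Pk hw (N + 1 - 1 - N) (grd hw o p N s) v =
        (∑ u ∈ nb hw v, w v u * (bb hw o p N s u - bb hw o p N s v) ^ 2) / dg hw v := by
      rw [show N + 1 - 1 - N = 0 by omega, Pk_zero]
      rfl
    rw [h7]
    have h8 : ∑ m ∈ Finset.range N, Pk hw (N + 1 - 1 - m) (grd hw o p m s) v =
        ∑ m ∈ Finset.range N, Pk hw (N - m) (grd hw o p m s) v := by
      rw [show N + 1 - 1 = N by omega]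
    rw [h8]
    nlinarith [h2, h6]

end ZUK
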