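import Pool.Agent.ZUK.Gra
import Pool.Agent.ZUK.Var
import Pool.Agent.ZUK.Ant

/-! # Module Upp (difficulty 3): upper bound for the sum of the second moments

PROOF. `r = rep o`, `s = p r`, `K` from `grad_bound`. By `SN_le` and `bb_zero`,
`SN N r ≤ ∑_{m<N} Pk (N-1-m) (grd m s) r`. Sum over `N ≤ n` and interchange the sums (for fixed `m < n`,
`N` runs over `m+1, ..., n`, so `k = N-1-m` runs over `0, ..., n-1-m`; all terms are `≥ 0` since `grd ≥ 0`):
`∑_{N<n+1} SN N r ≤ ∑_{m<n} ∑_{k<n} Pk k (grd m s) r ≤ ∑_{m<n} K n = K n^2`. -/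

open MulAction LGap

namespace ZUK

variable {H V X : Type*} [Group H] [MulAction H V] {w : V → V → ℝ} {φ : V → V → V → ℝ}
  [Fintype (Ty H V)] [LinearOrder X] [MulAction H X]

private lemma upp_tri (a : ℕ → ℕ → ℝ) (n : ℕ) :
    ∑ N ∈ Finset.range (n + 1), ∑ m ∈ Finset.range N, a (N - 1 - m) m =
      ∑ m ∈ Finset.range n, ∑ k ∈ Finset.range (n - m), a k m := by
  induction n with
  | zero => simp
  | succ n ih =>
    rw [Finset.sum_range_succ, ih, Nat.add_sub_cancel]
    have h1 : ∑ m ∈ Finset.range (n + 1), ∑ k ∈ Finset.range (n + 1 - m), a k m =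
        ∑ m ∈ Finset.range (n + 1), (∑ k ∈ Finset.range (n - m), a k m + a (n - m) m) := by
      apply Finset.sum_congr rfl
      intro m hm
      have hm' : m ≤ n := Nat.lt_succ_iff.1 (Finset.mem_range.1 hm)
      rw [show n + 1 - m = (n - m) + 1 by omega, Finset.sum_range_succ]
    rw [h1, Finset.sum_add_distrib]
    congr 1
    rw [Finset.sum_range_succ]
    simp

theorem SN_upper (hw : Gr H w) (hφ : Tn H φ) (hd : ∀ v, 0 < dg hw v)
    (hst : ∀ v : V, Finite (MulAction.stabilizer H v))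
    (hconn : ∀ v u : V, Relation.ReflTransGen (fun a b => w a b ≠ 0) v u)
    {κ C : ℝ} (hc : Ct hw hφ κ C) (o : Ty H V) {p : V → X}
    (hp : ∀ (h : H) v, p (h • v) = h • p v) (hm : ∀ h : H, StrictMono (fun x : X => h • x)) :
    ∃ K : ℝ, 0 ≤ K ∧ ∀ n : ℕ,
      ∑ N ∈ Finset.range (n + 1), SN hw o p (p (rep o)) N (rep o) ≤ K * (n : ℝ) ^ 2 := by
  obtain ⟨K, hK0, hK⟩ := grad_bound hw hφ hd hst hconn hc o hp hm
  refine ⟨K, hK0, fun n => ?_⟩
  have hnn : ∀ k m, 0 ≤ Pk hw k (grd hw o p m (p (rep o))) (rep o) := by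
    intro k m
    apply Pk_nonneg
    intro u
    unfold grd
    exact div_nonneg (Finset.sum_nonneg fun x _ => mul_nonneg (hw.nonneg _ _) (sq_nonneg _))
      (dg_nonneg hw u)
  calc ∑ N ∈ Finset.range (n + 1), SN hw o p (p (rep o)) N (rep o)
      ≤ ∑ N ∈ Finset.range (n + 1), ∑ m ∈ Finset.range N,
          Pk hw (N - 1 - m) (grd hw o p m (p (rep o))) (rep o) := by
        apply Finset.sum_le_sum
        intro N _
        have h1 := SN_le hw hd o p (p (rep o)) N (rep o)
        rw [bb_zero hw hd hst o hp hm N] at h1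
        linarith
    _ = ∑ m ∈ Finset.range n, ∑ k ∈ Finset.range (n - m),
          Pk hw k (grd hw o p m (p (rep o))) (rep o) :=
        upp_tri (fun k m => Pk hw k (grd hw o p m (p (rep o))) (rep o)) n
    _ ≤ ∑ m ∈ Finset.range n, K * (n : ℝ) := by
        apply Finset.sum_le_sum
        intro m hm'
        refine le_trans ?_ (hK m n (Finset.mem_range.1 hm').le)
        apply Finset.sum_le_sum_of_subset_of_nonneg
        · exact Finset.range_mono (Nat.sub_le n m)
        · intro k _ _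
          exact hnn k m
    _ = K * (n : ℝ) ^ 2 := by
        rw [Finset.sum_const, Finset.card_range, nsmul_eq_mul]
        ring

end ZUK
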